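import Pool.Agent.Work.MP_2a6590_nt.XL.Stmts

set_option autoImplicit false

namespace Pool.Agent.Work.MP_2a6590_nt.XL

open Finset Pool.Agent.Work.MP_2a6590_nt.H97

namespace XBAD

theorem count (h1 : S_core) (ι : Type) [Fintype ι] [DecidableEq ι] (N : ℕ) (b : ι → ZMod N)
    (hV : Vd b) : (Bad b).card ≤ (Fintype.card ι + 1) * TL (FF b) := by
  classical
  have hex : ∀ T : Finset ι, T ∈ Bad b → T ∉ A1 (FF b) → T ∉ A2 (FF b) →
      ∃ T' : Finset ι, T' ∈ A3 (FF b) ∧ sg b T' = sg b T := by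
    intro T hT hA1 hA2
    rw [mem_Bad] at hT
    obtain ⟨T', hc, hs⟩ := hT
    have h := h1 ι N b hV T (ind T') (by rw [sum_ind]; exact hc) (by rw [val_ind]; exact hs)
    rw [sum_ind] at h
    refine ⟨T', ?_, hs⟩
    unfold A1 at hA1
    unfold A2 at hA2
    unfold A3
    rw [Finset.mem_filter] at hA1 hA2 ⊢
    simp only [Finset.mem_univ, true_and, not_le] at hA1 hA2 ⊢
    omega
  have hcard3 : ((Bad b) \ (A1 (FF b) ∪ A2 (FF b))).card ≤
      ((A3 (FF b)) ×ˢ (range (Fintype.card ι + 1))).card := by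
    have hex' : ∀ T : Finset ι, ∃ T' : Finset ι, T ∈ (Bad b) \ (A1 (FF b) ∪ A2 (FF b)) →
        T' ∈ A3 (FF b) ∧ sg b T' = sg b T := by
      intro T
      by_cases h : T ∈ (Bad b) \ (A1 (FF b) ∪ A2 (FF b))
      · have h' := h
        rw [Finset.mem_sdiff, Finset.mem_union, not_or] at h'
        obtain ⟨T', hT'⟩ := hex T h'.1 h'.2.1 h'.2.2
        exact ⟨T', fun _ => hT'⟩
      · exact ⟨∅, fun hh => absurd hh h⟩
    choose g hg using hex'
    refine Finset.card_le_card_of_injOn (fun T => (g T, T.card)) ?_ ?_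
    · intro T hT
      have hT' := Finset.mem_coe.mp hT
      refine Finset.mem_coe.mpr (Finset.mem_product.mpr ⟨(hg T hT').1, ?_⟩)
      exact Finset.mem_range.mpr (Nat.lt_succ_of_le (Finset.card_le_univ T))
    · intro T hT S hS e
      have hT' := Finset.mem_coe.mp hT
      have hS' := Finset.mem_coe.mp hS
      obtain ⟨e1, e2⟩ := Prod.mk.inj e
      refine sg_inj hV e2 ?_
      rw [← (hg T hT').2, ← (hg S hS').2, e1]
  rw [Finset.card_product, Finset.card_range] at hcard3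
  have h4 : (Bad b).card ≤ ((Bad b) \ (A1 (FF b) ∪ A2 (FF b))).card +
      (A1 (FF b) ∪ A2 (FF b)).card := by
    have h5 := Finset.card_le_card (Finset.subset_union_left (s₁ := Bad b)
      (s₂ := A1 (FF b) ∪ A2 (FF b)))
    rw [← Finset.sdiff_union_self_eq_union] at h5
    exact h5.trans (Finset.card_union_le _ _)
  have h6 := Finset.card_union_le (A1 (FF b)) (A2 (FF b))
  unfold TL
  nlinarith

end XBAD

theorem BAD_pf (h1 : S_core) (h2 : S_tail) : S_bad := by
  intro K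
  obtain ⟨n₀, hn⟩ := h2 K
  refine ⟨n₀, ?_⟩
  intro ι _ _ N b hV hc hK
  have h3 := hn ι hc (FF b) hK
  have h4 := XBAD.count h1 ι N b hV
  refine le_trans ?_ h3
  calc 2 ^ 12 * (Fintype.card ι + 1) * (Bad b).card
      ≤ 2 ^ 12 * (Fintype.card ι + 1) * ((Fintype.card ι + 1) * TL (FF b)) :=
        Nat.mul_le_mul_left _ h4
    _ = 2 ^ 12 * (Fintype.card ι + 1) ^ 2 * TL (FF b) := by ring

end Pool.Agent.Work.MP_2a6590_nt.XL
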