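import Pool.Agent.Work.MP_2a6590_nt.XL.Stmts

/-!
# MP_2a6590_nt, block XL, item BIG
-/

set_option autoImplicit false

namespace Pool.Agent.Work.MP_2a6590_nt.XL

open Finset Pool.Agent.Work.MP_2a6590_nt.H97

namespace XBIG

variable {ι : Type} [Fintype ι] [DecidableEq ι] {N : ℕ}

/-- Two classes which contain two elements with different doubles. -/
theorem cls {a : ι → ZMod N} (hV : Vd a) {x x' : ι} (hne : a x + a x ≠ a x' + a x')
    {c d : ZMod N} (hxc : x ∈ CT c a) (hxc' : x' ∈ CT c a) (hxd : x ∈ CT d a)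
    (hxd' : x' ∈ CT d a) : d = c ∨ d = c + (a x + a x - (a x' + a x')) := by
  rw [mem_CT] at hxc hxc' hxd hxd'
  obtain ⟨y, h1⟩ := hxc
  obtain ⟨y', h2⟩ := hxc'
  obtain ⟨z, h3⟩ := hxd
  obtain ⟨z', h4⟩ := hxd'
  have key : a y + a z' = a y' + a z := by linear_combination h2 - h1 - h4 + h3
  have hyy : y ≠ y' := by
    rintro rfl
    exact hne (h1.trans h2.symm)
  by_cases hyz : y = z'
  · by_cases hyz' : y' = z
    · right
      subst hyz'
      linear_combination h2 - h3
    · exfalso
      have h5 := uniq hV {y', z} (un y + un z') (by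
        simp only [Pi.add_apply]
        rw [Finset.sum_add_distrib, sum_un, sum_un, Finset.card_pair hyz']) (by
        rw [val_add, val_un, val_un, key]
        unfold H97.sg
        rw [Finset.sum_pair hyz'])
      have h6 := congrFun h5 y
      rw [Pi.add_apply, ← hyz, un_self] at h6
      unfold H97.ind at h6
      split_ifs at h6 <;> omega
  · left
    have h5 := uniq hV {y, z'} (un y' + un z) (by
      simp only [Pi.add_apply]
      rw [Finset.sum_add_distrib, sum_un, sum_un, Finset.card_pair hyz]) (by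
      rw [val_add, val_un, val_un, ← key]
      unfold H97.sg
      rw [Finset.sum_pair hyz])
    have h6 := congrFun h5 y'
    rw [Pi.add_apply, un_self] at h6
    have h7 : y' ∈ ({y, z'} : Finset ι) := by
      by_contra h8
      rw [ind_notMem h8] at h6
      omega
    rw [Finset.mem_insert, Finset.mem_singleton] at h7
    rcases h7 with h7 | h7
    · exact absurd h7.symm hyy
    · rw [← h7] at h4
      linear_combination h2 - h4

/-- At most two indices have a given double. -/
theorem dbl [NeZero N] {a : ι → ZMod N} (hV : Vd a) (x : ι) :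
    (univ.filter fun i => a i + a i = a x + a x).card ≤ 2 := by
  have h1 := IsAddCyclic.card_nsmul_eq_zero_le (α := ZMod N) (n := 2) (by norm_num)
  refine le_trans ?_ h1
  refine Finset.card_le_card_of_injOn (fun i => a i - a x) ?_ ?_
  · intro i hi
    have hi2 := (Finset.mem_filter.mp (Finset.mem_coe.mp hi)).2
    rw [Finset.mem_coe, Finset.mem_filter]
    refine ⟨Finset.mem_univ _, ?_⟩
    rw [two_nsmul]
    linear_combination hi2
  · intro i _ j _ hij
    exact Vd_inj hV (sub_left_injective hij)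

/-- Different doubles and no three elements in one class. -/
def Gd (a : ι → ZMod N) (X : Finset ι) : Prop :=
  (∀ x ∈ X, ∀ x' ∈ X, a x + a x = a x' + a x' → x = x') ∧ ∀ c, (X ∩ CT c a).card ≤ 2

/-- The classes with at least two elements of `X`. -/
noncomputable def Cs [NeZero N] (a : ι → ZMod N) (X : Finset ι) : Finset (ZMod N) :=
  univ.filter fun c => 2 ≤ (X ∩ CT c a).card

theorem card_Cs [NeZero N] {a : ι → ZMod N} (hV : Vd a) {X : Finset ι} (hX : Gd a X) :
    (Cs a X).card ≤ 2 * X.card ^ 2 := by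
  classical
  have hsub : Cs a X ⊆ (X ×ˢ X).biUnion fun p => univ.filter fun c : ZMod N =>
      p.1 ≠ p.2 ∧ p.1 ∈ X ∧ p.2 ∈ X ∧ p.1 ∈ CT c a ∧ p.2 ∈ CT c a := by
    intro c hc
    have hc2 := (Finset.mem_filter.mp hc).2
    obtain ⟨x, hx, x', hx', hne⟩ := Finset.one_lt_card.mp hc2
    rw [Finset.mem_inter] at hx hx'
    rw [Finset.mem_biUnion]
    refine ⟨(x, x'), Finset.mem_product.mpr ⟨hx.1, hx'.1⟩, ?_⟩
    rw [Finset.mem_filter]
    exact ⟨Finset.mem_univ _, hne, hx.1, hx'.1, hx.2, hx'.2⟩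
  refine (Finset.card_le_card hsub).trans ?_
  refine (Finset.card_biUnion_le_card_mul _ _ 2 ?_).trans ?_
  · rintro ⟨x, x'⟩ _
    rcases (univ.filter fun c : ZMod N =>
      x ≠ x' ∧ x ∈ X ∧ x' ∈ X ∧ x ∈ CT c a ∧ x' ∈ CT c a).eq_empty_or_nonempty with h0 | ⟨c, hc⟩
    · show (univ.filter fun c : ZMod N =>
        x ≠ x' ∧ x ∈ X ∧ x' ∈ X ∧ x ∈ CT c a ∧ x' ∈ CT c a).card ≤ 2
      rw [h0]
      simp
    · obtain ⟨_, hne, hx, hx', hc1, hc2⟩ := Finset.mem_filter.mp hc
      have hd : a x + a x ≠ a x' + a x' := fun h => hne (hX.1 x hx x' hx' h)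
      refine le_trans (Finset.card_le_card (t := {c, c + (a x + a x - (a x' + a x'))}) ?_)
        Finset.card_le_two
      intro d hd'
      obtain ⟨_, _, _, _, hd1, hd2⟩ := Finset.mem_filter.mp hd'
      rw [Finset.mem_insert, Finset.mem_singleton]
      exact cls hV hd hc1 hc2 hd1 hd2
  · rw [Finset.card_product]
    apply le_of_eq
    ring

/-- The cover of `I` given by a maximal `X`. -/
theorem cover [NeZero N] {a : ι → ZMod N} {I X : Finset ι} (hX : Gd a X) (hXI : X ⊆ I)
    (hmax : ∀ Y ⊆ I, Gd a Y → Y.card ≤ X.card) :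
    I ⊆ (X.biUnion fun x => univ.filter fun i => a i + a i = a x + a x) ∪
      (Cs a X).biUnion fun c => I ∩ CT c a := by
  classical
  intro i hi
  rw [Finset.mem_union]
  by_cases hiX : i ∈ X
  · left
    rw [Finset.mem_biUnion]
    exact ⟨i, hiX, by simp⟩
  by_cases h1 : ∃ x ∈ X, a i + a i = a x + a x
  · left
    rw [Finset.mem_biUnion]
    obtain ⟨x, hx, h2⟩ := h1
    exact ⟨x, hx, by simpa using h2⟩
  right
  push Not at h1
  by_contra h2
  rw [Finset.mem_biUnion] at h2
  push Not at h2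
  have h3 : Gd a (insert i X) := by
    refine ⟨?_, ?_⟩
    · intro x hx x' hx' he
      rw [Finset.mem_insert] at hx hx'
      rcases hx with hx | hx <;> rcases hx' with hx' | hx'
      · rw [hx, hx']
      · exact absurd (by rw [← hx]; exact he) (h1 x' hx')
      · exact absurd (by rw [← hx']; exact he.symm) (h1 x hx)
      · exact hX.1 x hx x' hx' he
    · intro c
      by_cases hic : i ∈ CT c a
      · have h4 : ¬ 2 ≤ (X ∩ CT c a).card := by
          intro h5
          exact h2 c (Finset.mem_filter.mpr ⟨Finset.mem_univ _, h5⟩)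
            (Finset.mem_inter.mpr ⟨hi, hic⟩)
        rw [Finset.insert_inter_of_mem hic]
        have := Finset.card_insert_le i (X ∩ CT c a)
        omega
      · rw [Finset.insert_inter_of_notMem hic]
        exact hX.2 c
  have h4 := hmax (insert i X) (Finset.insert_subset hi hXI) h3
  rw [Finset.card_insert_of_notMem hiX] at h4
  omega

end XBIG

open XBIG in
theorem BIG_pf (h1 : S_three) : S_big := by
  classical
  obtain ⟨M, hM⟩ := h1
  refine ⟨4 * M ^ 2, 4 * M, ?_⟩
  intro ι _ _ N a hN hV hN2 I hI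
  have : NeZero N := ⟨hN.ne'⟩
  -- a maximal set
  obtain ⟨X, hX, hXmax⟩ := Finset.exists_max_image (I.powerset.filter fun X => Gd a X)
    (fun X => X.card) ⟨∅, by
      rw [Finset.mem_filter]
      refine ⟨Finset.empty_mem_powerset _, ?_, ?_⟩
      · intro x hx
        simp at hx
      · intro c
        simp⟩
  rw [Finset.mem_filter, Finset.mem_powerset] at hX
  obtain ⟨hXI, hXg⟩ := hX
  have hmax : ∀ Y ⊆ I, Gd a Y → Y.card ≤ X.card := fun Y hY hYg =>
    hXmax Y (Finset.mem_filter.mpr ⟨Finset.mem_powerset.mpr hY, hYg⟩)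
  have hXM : X.card < M := by
    by_contra hcon
    push Not at hcon
    obtain ⟨c, hc⟩ := hM ι N a hN hV hN2 X hcon
    have := hXg.2 c
    omega
  -- the maximal class
  obtain ⟨c, _, hc⟩ := Finset.exists_max_image (univ : Finset (ZMod N))
    (fun c => (I ∩ CT c a).card) ⟨0, Finset.mem_univ _⟩
  refine ⟨c, ?_⟩
  set t := (I ∩ CT c a).card with ht
  have e1 : (X.biUnion fun x => univ.filter fun i => a i + a i = a x + a x).card ≤ X.card * 2 :=
    Finset.card_biUnion_le_card_mul _ _ 2 fun x _ => dbl hV x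
  have e2 : ((Cs a X).biUnion fun c => I ∩ CT c a).card ≤ (Cs a X).card * t :=
    Finset.card_biUnion_le_card_mul _ _ t fun d _ => hc d (Finset.mem_univ _)
  have e3 := card_Cs hV hXg
  have e4 := (Finset.card_le_card (cover hXg hXI hmax)).trans (Finset.card_union_le _ _)
  have e5 : (Cs a X).card * t ≤ 2 * X.card ^ 2 * t := Nat.mul_le_mul_right t e3
  have e6 : X.card ^ 2 ≤ M ^ 2 := Nat.pow_le_pow_left hXM.le 2
  have e7 : 2 * X.card ^ 2 * t ≤ 2 * M ^ 2 * t :=
    Nat.mul_le_mul_right t (Nat.mul_le_mul_left 2 e6)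
  have e8 : 4 * M ^ 2 * t = 2 * (2 * M ^ 2 * t) := by ring
  rw [e8]
  omega

end Pool.Agent.Work.MP_2a6590_nt.XL
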