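import Pool.Agent.Work.MP_2a6590_nt.XL.Stmts

set_option autoImplicit false

namespace Pool.Agent.Work.MP_2a6590_nt.XL

open Finset Pool.Agent.Work.MP_2a6590_nt.H97

namespace XCOIN

theorem geo (k : ℕ) : ∑ i ∈ range k, 2 ^ i + 1 = 2 ^ k := by
  induction k with
  | zero => rfl
  | succ k ih => rw [Finset.sum_range_succ, pow_succ]; omega

end XCOIN

theorem COIN_pf : S_coin := by
  intro k n hkn
  induction n, hkn using Nat.le_induction with
  | base =>
    intro _
    refine ⟨fun i => if i < k then 1 else 0, ?_, ?_, ?_⟩
    · intro i hi
      exact if_neg (by omega)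
    · have e : ∑ i ∈ range k, (if i < k then 1 else 0) = ∑ i ∈ range k, 1 :=
        Finset.sum_congr rfl fun i hi => if_pos (Finset.mem_range.1 hi)
      rw [e, Finset.sum_const, Finset.card_range, smul_eq_mul, mul_one]
    · have e : ∑ i ∈ range k, (if i < k then 1 else 0) * 2 ^ i = ∑ i ∈ range k, 2 ^ i :=
        Finset.sum_congr rfl fun i hi => by rw [if_pos (Finset.mem_range.1 hi), one_mul]
      rw [e]
      have := XCOIN.geo k
      omega
  | succ n hn ih =>
    intro h2
    obtain ⟨m, h0, h1, h3⟩ := ih (by omega)
    by_cases hex : ∃ i, i + 1 < k ∧ 0 < m (i + 1)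
    · obtain ⟨i, hi, hm⟩ := hex
      refine ⟨fun j => if j = i + 1 then m j - 1 else if j = i then m j + 2 else m j, ?_, ?_, ?_⟩
      · intro j hj
        have := h0 j hj
        have a1 : j ≠ i + 1 := by omega
        have a2 : j ≠ i := by omega
        simp only [if_neg a1, if_neg a2, this]
      · have key : ∑ j ∈ range k, (if j = i + 1 then m j - 1 else if j = i then m j + 2 else m j) +
            ∑ j ∈ range k, (if j = i + 1 then 1 else 0) =
            ∑ j ∈ range k, m j + ∑ j ∈ range k, (if j = i then 2 else 0) := by
          rw [← Finset.sum_add_distrib, ← Finset.sum_add_distrib]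
          refine Finset.sum_congr rfl fun j _ => ?_
          by_cases a1 : j = i + 1
          · subst a1
            simp only [if_true, if_neg (show ¬ (i + 1 = i) by omega)]
            omega
          · by_cases a2 : j = i
            · simp only [if_neg a1, if_pos a2]
            · simp only [if_neg a1, if_neg a2]
        rw [Finset.sum_ite_eq', Finset.sum_ite_eq', if_pos (Finset.mem_range.2 hi),
          if_pos (Finset.mem_range.2 (by omega)), h1] at key
        beta_reduce
        omega
      · have key : ∑ j ∈ range k, (if j = i + 1 then m j - 1 else if j = i then m j + 2 else m j) *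
            2 ^ j + ∑ j ∈ range k, (if j = i + 1 then 2 ^ (i + 1) else 0) =
            ∑ j ∈ range k, m j * 2 ^ j + ∑ j ∈ range k, (if j = i then 2 * 2 ^ i else 0) := by
          rw [← Finset.sum_add_distrib, ← Finset.sum_add_distrib]
          refine Finset.sum_congr rfl fun j _ => ?_
          by_cases a1 : j = i + 1
          · subst a1
            simp only [if_true, if_neg (show ¬ (i + 1 = i) by omega)]
            obtain ⟨p, hp⟩ : ∃ p, m (i + 1) = p + 1 := ⟨m (i + 1) - 1, by omega⟩
            rw [hp, Nat.add_sub_cancel]
            ring
          · by_cases a2 : j = i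
            · subst a2
              simp only [if_neg a1, if_true]
              ring
            · simp only [if_neg a1, if_neg a2]
        rw [Finset.sum_ite_eq', Finset.sum_ite_eq', if_pos (Finset.mem_range.2 hi),
          if_pos (Finset.mem_range.2 (by omega)), h3, pow_succ 2 i] at key
        beta_reduce
        omega
    · exfalso
      have e : ∑ i ∈ range k, m i * 2 ^ i = ∑ i ∈ range k, m i := by
        refine Finset.sum_congr rfl fun j hj => ?_
        rcases j with _ | j
        · rw [pow_zero, mul_one]
        · have : m (j + 1) = 0 := by
            by_contra hc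
            exact hex ⟨j, Finset.mem_range.1 hj, Nat.pos_of_ne_zero hc⟩
          rw [this, zero_mul]
      rw [h3, h1] at e
      omega

end Pool.Agent.Work.MP_2a6590_nt.XL
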