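import Pool.Agent.Work.MP_2a6590_nt.XL.Defs

/-!
# MP_2a6590_nt, block XL: the powers of two are valid mod `2 ^ n - 2 ^ k` if `2 ^ k ≤ n`
-/

set_option autoImplicit false

namespace Pool.Agent.Work.MP_2a6590_nt.XL

open Finset Pool.Agent.Work.MP_2a6590_nt.H97

namespace XCONV

theorem geo (n : ℕ) : ∑ i ∈ range n, 2 ^ i = 2 ^ n - 1 := by
  rw [Nat.geomSum_eq (le_refl 2)]
  simp

theorem red (n k : ℕ) (hk : k < n) : ∀ (c : ℕ) (μ : ℕ → ℕ), ∑ i ∈ range n, μ i = c →
    2 ^ n - 1 ≤ ∑ i ∈ range n, μ i * 2 ^ i →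
    (∃ t : ℕ, ∑ i ∈ range n, μ i * 2 ^ i = 2 ^ n - 1 + t * (2 ^ n - 2 ^ k)) →
    n ≤ c ∧ (c = n → ∀ i < n, μ i = 1) := by
  intro c
  induction c with
  | zero =>
    intro μ hc hv _
    exfalso
    rw [Finset.sum_eq_zero_iff] at hc
    have h1 : ∑ i ∈ range n, μ i * 2 ^ i = 0 := by
      refine Finset.sum_eq_zero fun i hi => ?_
      rw [hc i hi, zero_mul]
    rw [h1] at hv
    have h2 : 2 ^ 1 ≤ 2 ^ n := Nat.pow_le_pow_right (by norm_num) (by omega)
    omega
  | succ c ih =>
    intro μ hc hv ht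
    by_cases hall : ∀ i ∈ range n, μ i ≤ 1
    · have h1 : ∀ i ∈ range n, μ i * 2 ^ i ≤ 2 ^ i := by
        intro i hi
        calc μ i * 2 ^ i ≤ 1 * 2 ^ i := Nat.mul_le_mul_right _ (hall i hi)
          _ = 2 ^ i := one_mul _
      have h2 : ∑ i ∈ range n, μ i * 2 ^ i = ∑ i ∈ range n, 2 ^ i := by
        refine le_antisymm (Finset.sum_le_sum h1) ?_
        rw [geo]
        exact hv
      have h3 := (Finset.sum_eq_sum_iff_of_le h1).mp h2
      have h4 : ∀ i ∈ range n, μ i = 1 := by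
        intro i hi
        have h5 := h3 i hi
        have h6 : 0 < 2 ^ i := by positivity
        exact Nat.eq_of_mul_eq_mul_right h6 (by rw [h5, one_mul])
      have h5 : ∑ i ∈ range n, μ i = n := by
        rw [Finset.sum_congr rfl h4]
        simp
      refine ⟨by omega, fun _ i hi => h4 i (Finset.mem_range.mpr hi)⟩
    · push Not at hall
      obtain ⟨i, hi, hi2⟩ := hall
      rw [Finset.mem_range] at hi
      set μ0 : ℕ → ℕ := fun j => if j = i then μ i - 2 else μ j with hμ0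
      have e0 : ∀ j, μ j = μ0 j + if j = i then 2 else 0 := by
        intro j
        rw [hμ0]
        simp only
        by_cases hj : j = i
        · rw [if_pos hj, if_pos hj, hj]; omega
        · rw [if_neg hj, if_neg hj]; omega
      have s1 : ∑ j ∈ range n, μ j = ∑ j ∈ range n, μ0 j + 2 := by
        rw [Finset.sum_congr rfl fun j _ => e0 j, Finset.sum_add_distrib, Finset.sum_ite_eq',
          if_pos (Finset.mem_range.mpr hi)]
      have s2 : ∑ j ∈ range n, μ j * 2 ^ j = ∑ j ∈ range n, μ0 j * 2 ^ j + 2 * 2 ^ i := by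
        have e1 : ∀ j ∈ range n, μ j * 2 ^ j = μ0 j * 2 ^ j + if j = i then 2 * 2 ^ i else 0 := by
          intro j _
          rw [e0 j]
          by_cases hj : j = i
          · rw [if_pos hj, if_pos hj, hj, add_mul]
          · rw [if_neg hj, if_neg hj, add_zero, add_zero]
        rw [Finset.sum_congr rfl e1, Finset.sum_add_distrib, Finset.sum_ite_eq',
          if_pos (Finset.mem_range.mpr hi)]
      -- the replacement
      have key : ∀ i' < n, 2 ^ n - 1 ≤ ∑ j ∈ range n, μ0 j * 2 ^ j + 2 ^ i' →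
          (∃ t : ℕ, ∑ j ∈ range n, μ0 j * 2 ^ j + 2 ^ i' = 2 ^ n - 1 + t * (2 ^ n - 2 ^ k)) →
          n ≤ c := by
        intro i' hi' hv' ht'
        have s3 : ∑ j ∈ range n, (μ0 j + if j = i' then 1 else 0) = c := by
          rw [Finset.sum_add_distrib, Finset.sum_ite_eq', if_pos (Finset.mem_range.mpr hi')]
          omega
        have s4 : ∑ j ∈ range n, (μ0 j + if j = i' then 1 else 0) * 2 ^ j =
            ∑ j ∈ range n, μ0 j * 2 ^ j + 2 ^ i' := by
          have e1 : ∀ j ∈ range n, (μ0 j + if j = i' then 1 else 0) * 2 ^ j =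
              μ0 j * 2 ^ j + if j = i' then 2 ^ i' else 0 := by
            intro j _
            by_cases hj : j = i'
            · rw [if_pos hj, if_pos hj, hj, add_mul, one_mul]
            · rw [if_neg hj, if_neg hj, add_zero, add_zero]
          rw [Finset.sum_congr rfl e1, Finset.sum_add_distrib, Finset.sum_ite_eq',
            if_pos (Finset.mem_range.mpr hi')]
        exact (ih (fun j => μ0 j + if j = i' then 1 else 0) s3 (by rw [s4]; exact hv')
          (by rw [s4]; exact ht')).1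
      have hmain : n ≤ c := by
        by_cases hin : i + 1 < n
        · refine key (i + 1) hin ?_ ?_
          · rw [pow_succ, mul_comm (2 ^ i) 2, ← s2]
            exact hv
          · obtain ⟨t, ht⟩ := ht
            refine ⟨t, ?_⟩
            rw [pow_succ, mul_comm (2 ^ i) 2, ← s2]
            exact ht
        · have hin' : i + 1 = n := by omega
          have e2 : 2 * 2 ^ i = 2 ^ n := by rw [← hin', pow_succ, mul_comm]
          rw [e2] at s2
          obtain ⟨t, ht⟩ := ht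
          have hkn : 2 ^ k < 2 ^ n := Nat.pow_lt_pow_right (by norm_num) hk
          have hk1 : 1 ≤ 2 ^ k := Nat.one_le_two_pow
          cases t with
          | zero => omega
          | succ t =>
            have e3 : ∑ j ∈ range n, μ0 j * 2 ^ j + 2 ^ k = 2 ^ n - 1 + t * (2 ^ n - 2 ^ k) := by
              rw [add_mul, one_mul] at ht
              omega
            exact key k hk (by rw [e3]; omega) ⟨t, e3⟩
      exact ⟨by omega, fun h => by omega⟩

/-- The number of terms is exactly `n`. -/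
theorem fin2 (n k : ℕ) (hk : 2 ^ k ≤ n) (μ : ℕ → ℕ) (hc : ∑ i ∈ range n, μ i = n)
    (h : (∑ i ∈ range n, μ i * 2 ^ i) ≡ 2 ^ n - 1 [MOD (2 ^ n - 2 ^ k)]) : ∀ i < n, μ i = 1 := by
  have hkn : k < n := lt_of_lt_of_le Nat.lt_two_pow_self hk
  have h1 : 2 ^ k < 2 ^ n := Nat.pow_lt_pow_right (by norm_num) hkn
  have hk1 : 1 ≤ 2 ^ k := Nat.one_le_two_pow
  have h2 : 2 * 2 ^ k ≤ 2 ^ n := by
    rw [← pow_succ']
    exact Nat.pow_le_pow_right (by norm_num) hkn
  rcases Nat.lt_or_ge (∑ i ∈ range n, μ i * 2 ^ i) (2 ^ n - 1) with h3 | h3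
  · exfalso
    have h4 := (Nat.modEq_iff_dvd' h3.le).mp h
    obtain ⟨t, ht⟩ := h4
    have hcv : n ≤ ∑ i ∈ range n, μ i * 2 ^ i := by
      conv_lhs => rw [← hc]
      refine Finset.sum_le_sum fun i _ => ?_
      exact Nat.le_mul_of_pos_right _ (by positivity)
    rcases Nat.lt_or_ge t 2 with h5 | h5
    · interval_cases t
      · omega
      · omega
    · have h6 : (2 ^ n - 2 ^ k) * 2 ≤ (2 ^ n - 2 ^ k) * t := Nat.mul_le_mul_left _ h5
      omega
  · have h4 := (Nat.modEq_iff_dvd' h3).mp h.symm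
    obtain ⟨t, ht⟩ := h4
    exact (red n k hkn n μ hc h3 ⟨t, by rw [mul_comm]; omega⟩).2 rfl

theorem vd (n k : ℕ) (hk : 2 ^ k ≤ n) :
    Vd (fun i : Fin n => ((2 ^ (i : ℕ) : ℕ) : ZMod (2 ^ n - 2 ^ k))) := by
  intro m hm hv
  set μ : ℕ → ℕ := fun j => if h : j < n then m ⟨j, h⟩ else 0 with hμ
  have e : ∀ i : Fin n, μ i = m i := by
    intro i
    rw [hμ]
    simp
  have h1 : ∑ i ∈ range n, μ i = n := by
    rw [← Fin.sum_univ_eq_sum_range μ n, Finset.sum_congr rfl fun i _ => e i, hm, Fintype.card_fin]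
  have h2 : ((∑ i ∈ range n, μ i * 2 ^ i : ℕ) : ZMod (2 ^ n - 2 ^ k)) =
      ((2 ^ n - 1 : ℕ) : ZMod (2 ^ n - 2 ^ k)) := by
    rw [← geo n, ← Fin.sum_univ_eq_sum_range (fun j => μ j * 2 ^ j) n,
      ← Fin.sum_univ_eq_sum_range (fun j => 2 ^ j) n, Nat.cast_sum, Nat.cast_sum]
    unfold H97.val H97.sg at hv
    rw [← hv]
    refine Finset.sum_congr rfl fun i _ => ?_
    rw [e i, nsmul_eq_mul, Nat.cast_mul]
  rw [ZMod.natCast_eq_natCast_iff] at h2
  intro i
  rw [← e i]
  exact fin2 n k hk μ h1 h2 i i.2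

end XCONV

end Pool.Agent.Work.MP_2a6590_nt.XL
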