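import Pool.Agent.Work.MP_2a6590_nt.XL.Stmts

/-!
# MP_2a6590_nt, block XL, item CORE
-/

set_option autoImplicit false

namespace Pool.Agent.Work.MP_2a6590_nt.XL

open Finset Pool.Agent.Work.MP_2a6590_nt.H97

namespace XCORE

variable {ι : Type} [Fintype ι] [DecidableEq ι] {N : ℕ}

theorem doubles (b : ι → ZMod N) (Z : Finset ι) (hZ : ∀ z ∈ Z, ∃ i, b i + b i = b z) :
    ∃ M : ι → ℕ, ∑ i, M i = 2 * Z.card ∧ val b M = sg b Z ∧ (Z.Nonempty → ∃ i, 2 ≤ M i) := by
  induction Z using Finset.induction_on with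
  | empty =>
    refine ⟨0, by simp, ?_, fun h => absurd h (by simp)⟩
    unfold H97.val H97.sg
    simp
  | insert z Z hz ih =>
    obtain ⟨M, hM, hv, _⟩ := ih (fun w hw => hZ w (Finset.mem_insert_of_mem hw))
    obtain ⟨i, hi⟩ := hZ z (Finset.mem_insert_self z Z)
    refine ⟨M + (un i + un i), ?_, ?_, fun _ => ⟨i, ?_⟩⟩
    · simp only [Pi.add_apply]
      rw [Finset.sum_add_distrib, Finset.sum_add_distrib, sum_un, hM,
        Finset.card_insert_of_notMem hz]
      omega
    · rw [val_add, val_add, val_un, hv, hi, sg_insert b hz, add_comm]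
    · rw [Pi.add_apply, Pi.add_apply, un_self]
      omega

end XCORE

theorem CORE_pf : S_core := by
  intro ι _ _ N b hV T m hm hv
  by_contra hcon
  have hle : T.card - ∑ i, m i ≤ (FF b \ T).card := by omega
  obtain ⟨Z, hZs, hZc⟩ := Finset.exists_subset_card_eq hle
  have hZF : ∀ z ∈ Z, ∃ i, b i + b i = b z := fun z hz =>
    mem_FF.mp (Finset.mem_sdiff.mp (hZs hz)).1
  obtain ⟨M, hM, hMv, hM2⟩ := XCORE.doubles b Z hZF
  have hdis : Disjoint T Z := by
    rw [Finset.disjoint_right]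
    intro z hz
    exact (Finset.mem_sdiff.mp (hZs hz)).2
  have hcard : (T ∪ Z).card = T.card + Z.card := Finset.card_union_of_disjoint hdis
  have hu := uniq hV (T ∪ Z) (m + M) (by
    simp only [Pi.add_apply]
    rw [Finset.sum_add_distrib, hM, hcard, hZc]
    omega) (by rw [val_add, hv, hMv, sg_union b hdis])
  have hne : Z.Nonempty := by
    rw [← Finset.card_pos, hZc]
    omega
  obtain ⟨i, hi⟩ := hM2 hne
  have h1 := congrFun hu i
  rw [Pi.add_apply] at h1
  by_cases hiT : i ∈ T ∪ Z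
  · rw [ind_mem hiT] at h1
    omega
  · rw [ind_notMem hiT] at h1
    omega

end Pool.Agent.Work.MP_2a6590_nt.XL
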