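import Pool.Agent.Work.MP_2a6590_nt.XL.Stmts

/-!
# MP_2a6590_nt, block XL: item DUP
-/

set_option autoImplicit false

namespace Pool.Agent.Work.MP_2a6590_nt.XL

open Finset Pool.Agent.Work.MP_2a6590_nt.H97

namespace XDUP

theorem two_tors {N : ℕ} (hN : 0 < N) {x y : ZMod N} (hx : x + x = 0) (hy : y + y = 0)
    (hx0 : x ≠ 0) (hy0 : y ≠ 0) : x = y := by
  have : NeZero N := ⟨hN.ne'⟩
  have key : ∀ z : ZMod N, z + z = 0 → z ≠ 0 → z.val + z.val = N := by
    intro z hz hz0
    have h1 : ((z.val + z.val : ℕ) : ZMod N) = 0 := by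
      push_cast
      rw [ZMod.natCast_zmod_val]
      exact hz
    rw [ZMod.natCast_eq_zero_iff] at h1
    have h2 : z.val < N := ZMod.val_lt z
    have h3 : 0 < z.val := by
      rcases Nat.eq_zero_or_pos z.val with h | h
      · exact absurd ((ZMod.val_eq_zero z).1 h) hz0
      · exact h
    obtain ⟨q, hq⟩ := h1
    rcases q with _ | _ | q
    · omega
    · omega
    · exfalso
      have : N * (q + 1 + 1) = N * q + N + N := by ring
      have h4 : 0 ≤ N * q := Nat.zero_le _
      omega
  have e1 := key x hx hx0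
  have e2 := key y hy hy0
  apply ZMod.val_injective N
  omega

variable {ι : Type} [Fintype ι] [DecidableEq ι] {N : ℕ} {b : ι → ZMod N}

theorem pair_eq (hV : Vd b) {i j k l : ι} (hij : i ≠ j) (hkl : k ≠ l)
    (h : b i + b j = b k + b l) : ({i, j} : Finset ι) = {k, l} := by
  apply sg_inj hV
  · rw [Finset.card_pair hij, Finset.card_pair hkl]
  · unfold H97.sg
    rw [Finset.sum_pair hij, Finset.sum_pair hkl, h]

theorem quad (hN : 0 < N) (hV : Vd b) {i i' k k' : ι} (hi : i ≠ i') (hk : k ≠ k')
    (h1 : b i + b i = b i' + b i') (h2 : b k + b k = b k' + b k') : k = i ∨ k' = i := by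
  have hinj := Vd_inj hV
  have hh : b i - b i' = b k - b k' := by
    apply two_tors hN
    · linear_combination h1
    · linear_combination h2
    · intro h
      exact hi (hinj (sub_eq_zero.1 h))
    · intro h
      exact hk (hinj (sub_eq_zero.1 h))
  by_cases hA : k' = i
  · exact Or.inr hA
  · left
    by_cases hB : k = i'
    · exfalso
      apply hA
      apply hinj
      subst hB
      linear_combination hh - h1
    · have e : b i + b k' = b k + b i' := by linear_combination hh
      have h3 := pair_eq hV (i := i) (j := k') (k := k) (l := i') (fun h => hA h.symm) hB e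
      have h4 : i ∈ ({k, i'} : Finset ι) := by
        rw [← h3]
        simp
      rw [Finset.mem_insert, Finset.mem_singleton] at h4
      rcases h4 with h4 | h4
      · exact h4.symm
      · exact absurd h4 hi

end XDUP

theorem DUP_pf : S_dup := by
  intro ι _ _ N b hN hV θ
  classical
  have hex : ∀ i : ι, ∃ j : ι, i ∈ CT θ b → b i + b i = θ + b j := by
    intro i
    by_cases h : i ∈ CT θ b
    · obtain ⟨j, hj⟩ := mem_CT.1 h
      exact ⟨j, fun _ => hj⟩
    · exact ⟨i, fun h' => absurd h' h⟩
  choose f hf using hex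
  have hmaps : ∀ i ∈ CT θ b, f i ∈ FT θ b := fun i hi => mem_FT.2 ⟨i, hf i hi⟩
  by_cases hinj : ∀ i ∈ CT θ b, ∀ i' ∈ CT θ b, f i = f i' → i = i'
  · have := Finset.card_le_card_of_injOn f hmaps
      (fun i hi i' hi' h => hinj i hi i' hi' h)
    omega
  · push Not at hinj
    obtain ⟨i, hi, i', hi', hfi, hne⟩ := hinj
    have h1 : b i + b i = b i' + b i' := by rw [hf i hi, hf i' hi', hfi]
    have hc : ((CT θ b).erase i).card ≤ (FT θ b).card := by
      refine Finset.card_le_card_of_injOn f (fun k hk => hmaps k (Finset.mem_of_mem_erase hk)) ?_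
      intro k hk k' hk' h
      by_contra hkk
      have hk2 := Finset.mem_erase.1 hk
      have hk2' := Finset.mem_erase.1 hk'
      have h2 : b k + b k = b k' + b k' := by rw [hf k hk2.2, hf k' hk2'.2, h]
      rcases XDUP.quad hN hV hne hkk h1 h2 with h3 | h3
      · exact hk2.1 h3
      · exact hk2'.1 h3
    rw [Finset.card_erase_of_mem hi] at hc
    omega

end Pool.Agent.Work.MP_2a6590_nt.XL
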