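import Pool.Agent.Work.MP_2a6590_nt.XL.Stmts

set_option autoImplicit false

namespace Pool.Agent.Work.MP_2a6590_nt.XL

open Finset Pool.Agent.Work.MP_2a6590_nt.H97

namespace XEND

variable {ι : Type} [Fintype ι] [DecidableEq ι] {N : ℕ}

/-- The multiset with multiplicity `m s` at `u s`. -/
def mm (k : ℕ) (u : ℕ → ι) (m : ℕ → ℕ) : ι → ℕ :=
  fun i => ∑ s ∈ range k, if i = u s then m s else 0

theorem sum_mm (k : ℕ) (u : ℕ → ι) (m : ℕ → ℕ) :
    ∑ i, mm k u m i = ∑ s ∈ range k, m s := by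
  unfold mm
  rw [Finset.sum_comm]
  refine Finset.sum_congr rfl fun s _ => ?_
  rw [Finset.sum_ite_eq' univ (u s) (fun _ => m s), if_pos (Finset.mem_univ _)]

theorem val_mm (k : ℕ) (u : ℕ → ι) (m : ℕ → ℕ) (b : ι → ZMod N) :
    val b (mm k u m) = ∑ s ∈ range k, m s • b (u s) := by
  unfold H97.val mm
  simp only [Finset.sum_smul]
  rw [Finset.sum_comm]
  refine Finset.sum_congr rfl fun s _ => ?_
  simp only [ite_smul, zero_smul]
  rw [Finset.sum_ite_eq' univ (u s) (fun i => m s • b i), if_pos (Finset.mem_univ _)]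

theorem exists_out (k : ℕ) (u : ℕ → ι) (hk : k < Fintype.card ι) :
    ∃ i : ι, ∀ s < k, i ≠ u s := by
  by_contra h
  push Not at h
  have h1 : (univ : Finset ι) ⊆ (range k).image u := by
    intro i _
    obtain ⟨s, hs, hi⟩ := h i
    rw [Finset.mem_image]
    exact ⟨s, Finset.mem_range.mpr hs, hi.symm⟩
  have h2 := (Finset.card_le_card h1).trans Finset.card_image_le
  rw [Finset.card_univ, Finset.card_range] at h2
  omega

end XEND

open XEND in
theorem END_pf (h1 : S_str) (h2 : S_coin) : S_end := by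
  intro ι _ _ N b hN hb hn hl hu hd
  obtain ⟨k, hk, hNk, hc⟩ := h1 ι N b hN hb hn hl hu hd
  refine ⟨k, hNk, ?_⟩
  rcases hc with rfl | ⟨u, hinj, hbu, hsum⟩
  · simp
    omega
  by_contra hlt
  push Not at hlt
  obtain ⟨m, -, hm1, hm2⟩ := h2 k (Fintype.card ι) hk.le hlt
  have hone := hb (mm k u m) (by rw [sum_mm, hm1]) (by
    rw [val_mm, hsum, ← hm2, Finset.sum_smul]
    refine Finset.sum_congr rfl fun s hs => ?_
    rw [hbu s (Finset.mem_range.mp hs), smul_smul])
  obtain ⟨i, hi⟩ := exists_out k u hk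
  have h3 := hone i
  have h4 : mm k u m i = 0 := by
    unfold mm
    refine Finset.sum_eq_zero fun s hs => ?_
    rw [if_neg (hi s (Finset.mem_range.mp hs))]
  omega

end Pool.Agent.Work.MP_2a6590_nt.XL
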