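import Pool.Agent.Work.MP_2a6590_nt.XL.Stmts

/-!
# MP_2a6590_nt, block XL, item EXP
-/

set_option autoImplicit false

namespace Pool.Agent.Work.MP_2a6590_nt.XL

open Finset Pool.Agent.Work.MP_2a6590_nt.H97

namespace XEXP

variable {ι : Type} [Fintype ι] [DecidableEq ι] {N : ℕ}

omit [DecidableEq ι] in
theorem val_nsmul (b : ι → ZMod N) (k : ℕ) (m : ι → ℕ) : val b (k • m) = k • val b m := by
  unfold H97.val
  rw [Finset.smul_sum]
  refine Finset.sum_congr rfl fun i _ => ?_
  rw [Pi.smul_apply, smul_eq_mul, mul_smul]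

theorem inj_le {b : ι → ZMod N} (hV : Vd b) {i0 : ι} {T T' : Finset ι} (h : i0 ∉ T)
    (h' : i0 ∉ T') (hle : T.card ≤ T'.card)
    (e : sg b T + (Fintype.card ι - T.card) • b i0 =
      sg b T' + (Fintype.card ι - T'.card) • b i0) : T = T' := by
  have hT' := Finset.card_le_univ T'
  have e2 : Fintype.card ι - T.card = (Fintype.card ι - T'.card) + (T'.card - T.card) := by omega
  rw [e2, add_smul] at e
  have e3 : sg b T + (T'.card - T.card) • b i0 = sg b T' := by
    linear_combination e
  have h1 := uniq hV T' (ind T + (T'.card - T.card) • un i0) (by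
    simp only [Pi.add_apply, Pi.smul_apply, smul_eq_mul]
    rw [Finset.sum_add_distrib, sum_ind, ← Finset.mul_sum, sum_un]
    omega) (by
    rw [val_add, val_ind, val_nsmul, val_un, e3])
  have h2 := congrFun h1 i0
  rw [Pi.add_apply, Pi.smul_apply, ind_notMem h, ind_notMem h', un_self, smul_eq_mul] at h2
  exact sg_inj hV (by omega) (by
    have h3 : T'.card - T.card = 0 := by omega
    rw [h3, zero_smul, add_zero] at e3
    exact e3)

theorem inj {b : ι → ZMod N} (hV : Vd b) {i0 : ι} {T T' : Finset ι} (h : i0 ∉ T)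
    (h' : i0 ∉ T')
    (e : sg b T + (Fintype.card ι - T.card) • b i0 =
      sg b T' + (Fintype.card ι - T'.card) • b i0) : T = T' := by
  rcases le_total T.card T'.card with hle | hle
  · exact inj_le hV h h' hle e
  · exact (inj_le hV h' h hle e.symm).symm

end XEXP

theorem EXP_pf : S_exp := by
  intro ι _ _ N b hN hV hlt hpos R hR
  classical
  have : NeZero N := ⟨hN.ne'⟩
  obtain ⟨i0⟩ := Fintype.card_pos_iff.mp hpos
  set H : AddSubgroup (ZMod N) := (nsmulAddMonoidHom (α := ZMod N) R).ker with hH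
  have hb : ∀ i, b i ∈ H := fun i => by
    rw [hH, AddMonoidHom.mem_ker]
    exact hR i
  set f : Finset ι → H := fun T =>
    ⟨sg b T + (Fintype.card ι - T.card) • b i0,
      H.add_mem (H.sum_mem fun i _ => hb i) (H.nsmul_mem (hb i0) _)⟩ with hf
  have hinj : Set.InjOn f (((univ : Finset (Finset ι)).filter fun S : Finset ι => i0 ∉ S) :
      Set (Finset ι)) := by
    intro T hT T' hT' e
    rw [Finset.mem_coe, Finset.mem_filter] at hT hT'
    exact XEXP.inj hV hT.2 hT'.2 (congrArg Subtype.val e)
  have hcard : 2 ^ (Fintype.card ι - 1) ≤ Nat.card H := by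
    rw [← card_avoid i0, ← Finset.card_image_of_injOn hinj, Nat.card_eq_fintype_card]
    exact Finset.card_le_univ _
  have hidx := H.card_mul_index
  rw [Nat.card_zmod] at hidx
  have h2 : 2 ^ Fintype.card ι = 2 * 2 ^ (Fintype.card ι - 1) := by
    rw [← pow_succ']
    congr 1
    omega
  have hi1 : H.index = 1 := by
    have hne : H.index ≠ 0 := by
      intro h0
      rw [h0, mul_zero] at hidx
      omega
    by_contra hne1
    have h3 : 2 ≤ H.index := by omega
    have h4 : 2 ^ (Fintype.card ι - 1) * 2 ≤ Nat.card H * H.index := Nat.mul_le_mul hcard h3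
    omega
  have htop : H = ⊤ := AddSubgroup.index_eq_one.mp hi1
  have h1 : (1 : ZMod N) ∈ H := by
    rw [htop]
    exact AddSubgroup.mem_top _
  rw [hH, AddMonoidHom.mem_ker] at h1
  have h5 : R • (1 : ZMod N) = 0 := h1
  rw [nsmul_eq_mul, mul_one] at h5
  exact (ZMod.natCast_eq_zero_iff R N).mp h5

end Pool.Agent.Work.MP_2a6590_nt.XL
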