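import Pool.Agent.Work.MP_2a6590_nt.XL.Stmts

/-!
# MP_2a6590_nt, block XL, item LOW
-/

set_option autoImplicit false

namespace Pool.Agent.Work.MP_2a6590_nt.XL

open Finset Pool.Agent.Work.MP_2a6590_nt.H97

namespace XLOW

section

variable {ι : Type} [Fintype ι] [DecidableEq ι] {N : ℕ}

/-- Two sets which are not bad and have the same sum are equal. -/
theorem good_inj {b : ι → ZMod N} (hV : Vd b) {T T' : Finset ι} (hT : T ∉ Bad b)
    (hT' : T' ∉ Bad b) (e : sg b T = sg b T') : T = T' := by
  rw [mem_Bad] at hT hT'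
  refine sg_inj hV ?_ e
  rcases lt_trichotomy T.card T'.card with h | h | h
  · exact absurd ⟨T, h, e⟩ hT'
  · exact h
  · exact absurd ⟨T', h, e.symm⟩ hT

end

end XLOW

theorem LOW_pf : S_low := by
  intro ι _ _ N b hN hV
  have : NeZero N := ⟨hN.ne'⟩
  refine ⟨fun T T' hT hT' e => XLOW.good_inj hV hT hT' e, ?_⟩
  intro W hW
  have hinj : Set.InjOn (sg b) (((Bad b)ᶜ : Finset (Finset ι)) : Set (Finset ι)) := by
    intro T hT T' hT' e
    rw [Finset.mem_coe, Finset.mem_compl] at hT hT'
    exact XLOW.good_inj hV hT hT' e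
  have hdisj : Disjoint W (((Bad b)ᶜ : Finset (Finset ι)).image (sg b)) := by
    rw [Finset.disjoint_left]
    intro g hg hg'
    rw [Finset.mem_image] at hg'
    obtain ⟨T, hT, e⟩ := hg'
    rw [Finset.mem_compl] at hT
    exact hW g hg T hT e
  have h1 := Finset.card_le_univ (W ∪ ((Bad b)ᶜ : Finset (Finset ι)).image (sg b))
  rw [Finset.card_union_of_disjoint hdisj, Finset.card_image_of_injOn hinj, ZMod.card] at h1
  have h2 := Finset.card_add_card_compl (Bad b)
  rw [Fintype.card_finset] at h2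
  omega

end Pool.Agent.Work.MP_2a6590_nt.XL
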