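import Pool.Agent.Work.MP_2a6590_nt.XL.Stmts

/-!
# MP_2a6590_nt, block XL: the item MAIN
-/

set_option autoImplicit false

namespace Pool.Agent.Work.MP_2a6590_nt.XL

open Finset Pool.Agent.Work.MP_2a6590_nt.H97

namespace XMAIN

/-- `log² n = o(n)`, explicit form. -/
theorem log_sq_le (C n : ℕ) (hn : 2 ^ (27 * C) ≤ n) : C * (Nat.log 2 n + 1) ^ 2 ≤ n := by
  have hpos : 0 < n := lt_of_lt_of_le (by positivity) hn
  set L := Nat.log 2 n with hL
  have h1 : 2 ^ L ≤ n := Nat.pow_log_le_self 2 (by omega)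
  have h2 : 27 * C ≤ L := by
    rw [hL]
    exact Nat.le_log_of_pow_le (by norm_num) hn
  set t := L / 3 with ht
  have h3 : 3 * t ≤ L := by omega
  have h4 : L + 1 ≤ 3 * (t + 1) := by omega
  have h5 : 9 * C ≤ t := by omega
  have h6 : t + 1 ≤ 2 ^ t := Nat.lt_two_pow_self
  calc C * (L + 1) ^ 2 ≤ C * (3 * (t + 1)) ^ 2 :=
        Nat.mul_le_mul_left _ (Nat.pow_le_pow_left h4 2)
    _ = (9 * C) * (t + 1) ^ 2 := by ring
    _ ≤ (t + 1) * (t + 1) ^ 2 := Nat.mul_le_mul_right _ (by omega)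
    _ = (t + 1) ^ 3 := by ring
    _ ≤ (2 ^ t) ^ 3 := Nat.pow_le_pow_left h6 3
    _ = 2 ^ (3 * t) := by rw [← pow_mul, mul_comm]
    _ ≤ 2 ^ L := Nat.pow_le_pow_right (by norm_num) h3
    _ ≤ n := h1

end XMAIN

/-- The exact law for all large `n`. -/
theorem MAIN_pf (h1 : S_most) (h2 : S_dup) (h3 : S_bad) (h4 : S_low) (h5 : S_sparse)
    (h6 : S_end) : S_main := by
  obtain ⟨K, n₁, hmost⟩ := h1
  obtain ⟨n₂, hbad⟩ := h3 2
  refine ⟨n₁ + n₂ + 16 + 2 ^ (27 * (4 * (K + 4))), ?_⟩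
  intro ι _ _ N a hN hV hn hN2
  have hn4 : 2 ^ (27 * (4 * (K + 4))) ≤ Fintype.card ι := le_trans (Nat.le_add_left _ _) hn
  have hn0 : n₁ + n₂ + 16 ≤ Fintype.card ι := le_trans (Nat.le_add_right _ _) hn
  have hn1 : n₁ ≤ Fintype.card ι := by omega
  have hn2 : n₂ ≤ Fintype.card ι := by omega
  have hn3 : 16 ≤ Fintype.card ι := by omega
  have hlog := XMAIN.log_sq_le (4 * (K + 4)) (Fintype.card ι) hn4
  obtain ⟨c, hc⟩ := hmost ι N a hN hV hn1 hN2
  have hVb : Vd (sh c a) := Vd_sh hV c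
  generalize sh c a = b at hc hVb
  have hdup := h2 ι N b hN hVb 0
  rw [CT_zero, FT_zero] at hdup
  have hu : (univ \ FF b).card + (FF b).card = Fintype.card ι := by
    rw [Finset.card_sdiff_add_card_eq_card (Finset.subset_univ _), Finset.card_univ]
  set u := (univ \ FF b).card with hudef
  set L := Nat.log 2 (Fintype.card ι) with hLdef
  set n := Fintype.card ι with hndef
  have hu1 : u ≤ K * (L + 1) + 1 := by omega
  have hsp : 4 * ((L + 1) * u + 3) ≤ n := by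
    refine le_trans ?_ hlog
    have e1 : (L + 1) * u ≤ (L + 1) * (K * (L + 1) + 1) := Nat.mul_le_mul_left _ hu1
    nlinarith [Nat.zero_le L, Nat.zero_le K, Nat.zero_le (K * L), Nat.zero_le (L * L)]
  have hun : 4 * u ≤ n := by
    have e1 : u ≤ (L + 1) * u := Nat.le_mul_of_pos_left u (Nat.succ_pos L)
    omega
  have hFF : n ≤ 2 * (FF b).card := by omega
  have hB := hbad ι N b hVb hn2 hFF
  have hL := (h4 ι N b hN hVb).2 ∅ (by intro g hg; exact absurd hg (Finset.notMem_empty g))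
  rw [Finset.card_empty, zero_add] at hL
  have hNlow : 2 ^ (n - 1) < N := by
    have e1 : 4 * (Bad b).card ≤ 2 ^ n := by
      refine le_trans ?_ hB
      refine Nat.mul_le_mul_right _ ?_
      nlinarith [Nat.zero_le n]
    have e2 : 2 ^ n = 2 * 2 ^ (n - 1) := by
      rw [← pow_succ']
      congr 1
      omega
    have e3 : 0 < 2 ^ (n - 1) := by positivity
    change 2 ^ n ≤ N + (Bad b).card at hL
    omega
  exact h6 ι N b hN hVb (by omega) hNlow hN2 (h5 ι N b hN hVb hN2 hn3 hsp)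

end Pool.Agent.Work.MP_2a6590_nt.XL
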