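import Pool.Agent.Work.MP_2a6590_nt.XL.Stmts

/-! Item MOST of block XL. -/

set_option autoImplicit false

namespace Pool.Agent.Work.MP_2a6590_nt.XL

open Finset Pool.Agent.Work.MP_2a6590_nt.H97

theorem MOST_pf (h1 : S_big) (h2 : S_dup) (h3 : S_uni) : S_most := by
  obtain ⟨K₁, M₁, hbig⟩ := h1
  obtain ⟨nU, hU⟩ := h3 (2 * K₁)
  refine ⟨M₁ + 6 * K₁, M₁ + 2 * K₁ + nU + 1, ?_⟩
  intro ι _ _ N a hN hV hn hlt
  have hn1 : 1 ≤ Fintype.card ι := by omega
  obtain ⟨c, hc⟩ := hbig ι N a hN hV hlt.le univ (by rw [Finset.card_univ]; omega)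
  rw [Finset.univ_inter, Finset.card_univ] at hc
  refine ⟨c, ?_⟩
  have hVb : Vd (sh c a) := Vd_sh hV c
  have hd0 := h2 ι N (sh c a) hN hVb 0
  rw [CT_zero, FT_zero] at hd0
  rw [← CC_sh] at hc
  have hFF : Fintype.card ι ≤ 2 * K₁ * (FF (sh c a)).card := by
    have h4 : K₁ * (CC (sh c a)).card ≤ K₁ * ((FF (sh c a)).card + 1) := Nat.mul_le_mul_left _ hd0
    have h5 : K₁ * ((FF (sh c a)).card + 1) = K₁ * (FF (sh c a)).card + K₁ := by ring
    have h6 : 2 * K₁ * (FF (sh c a)).card = 2 * (K₁ * (FF (sh c a)).card) := by ring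
    rw [h6]
    omega
  have huni := hU ι N (sh c a) hN hVb (by omega) hlt hFF
  have hcomp : (univ \ CC (sh c a)).card + (CC (sh c a)).card = Fintype.card ι := by
    rw [Finset.card_sdiff_add_card_eq_card (Finset.subset_univ _), Finset.card_univ]
  have hlog : 1 ≤ Nat.log 2 (Fintype.card ι) + 1 := by omega
  have hgoal : (univ \ CC (sh c a)).card ≤ (M₁ + 6 * K₁) * (Nat.log 2 (Fintype.card ι) + 1) := by
    by_cases hI : M₁ ≤ (univ \ CC (sh c a)).card
    · obtain ⟨c', hc'⟩ := hbig ι N a hN hV hlt.le (univ \ CC (sh c a)) hI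
      rw [← CT_sh c c' a] at hc'
      by_cases hbg : 32 * Fintype.card ι ≤ 2 ^ (FT (c' - c) (sh c a)).card
      · have h0 := huni (c' - c) hbg
        rw [h0, CT_zero, Finset.sdiff_inter_self, Finset.card_empty, mul_zero] at hc'
        omega
      · push Not at hbg
        have h4 : (FT (c' - c) (sh c a)).card ≤ Nat.log 2 (Fintype.card ι) + 5 := by
          by_contra hcon
          push Not at hcon
          have h5 : Fintype.card ι < 2 ^ (Nat.log 2 (Fintype.card ι) + 1) :=
            Nat.lt_pow_succ_log_self (by norm_num) _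
          have h6 : 2 ^ (Nat.log 2 (Fintype.card ι) + 6) ≤ 2 ^ (FT (c' - c) (sh c a)).card :=
            Nat.pow_le_pow_right (by norm_num) hcon
          have h7 : 2 ^ (Nat.log 2 (Fintype.card ι) + 6) =
              32 * 2 ^ (Nat.log 2 (Fintype.card ι) + 1) := by
            rw [pow_add, pow_add]; ring
          omega
        have h5 : ((univ \ CC (sh c a)) ∩ CT (c' - c) (sh c a)).card ≤
            Nat.log 2 (Fintype.card ι) + 6 := by
          refine (Finset.card_le_card Finset.inter_subset_right).trans ?_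
          have := h2 ι N (sh c a) hN hVb (c' - c)
          omega
        refine hc'.trans ((Nat.mul_le_mul_left K₁ h5).trans ?_)
        nlinarith [Nat.zero_le (M₁ * (Nat.log 2 (Fintype.card ι) + 1)),
          Nat.zero_le (K₁ * Nat.log 2 (Fintype.card ι))]
    · push Not at hI
      have h4 : M₁ * 1 ≤ M₁ * (Nat.log 2 (Fintype.card ι) + 1) := Nat.mul_le_mul_left _ hlog
      rw [add_mul]
      omega
  omega

end Pool.Agent.Work.MP_2a6590_nt.XL
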