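import Pool.Agent.Work.MP_2a6590_nt.XL.Stmts

/-!
# MP_2a6590_nt, block XL: the sets which become larger
-/

set_option autoImplicit false

namespace Pool.Agent.Work.MP_2a6590_nt.XL

open Finset Pool.Agent.Work.MP_2a6590_nt.H97

namespace XNEG

variable {ι : Type} [Fintype ι] [DecidableEq ι] {N : ℕ} {b : ι → ZMod N}

theorem card_above (E : Finset ι) (𝒜 : Finset (Finset ι)) (h : ∀ T ∈ 𝒜, E ⊆ T) :
    𝒜.card ≤ 2 ^ (Fintype.card ι - E.card) := by
  have h1 : 𝒜 ⊆ Icc E univ := by
    intro T hT
    rw [mem_Icc]
    exact ⟨h T hT, Finset.subset_univ _⟩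
  have h2 := Finset.card_le_card h1
  rwa [card_Icc_finset (Finset.subset_univ _), Finset.card_univ] at h2

theorem key (h1 : S_core) (hV : Vd b) {θ : ZMod N} {T T' : Finset ι} (hs : sg b T' = sg b T + θ)
    (hlt : T.card < T'.card) (hF : ¬ FT θ b ⊆ T') :
    (FF b \ T').card + T.card < T'.card := by
  obtain ⟨z, hz, hzT⟩ := Finset.not_subset.mp hF
  obtain ⟨i, hi⟩ := mem_FT.mp hz
  have hc : (insert z T').card = T'.card + 1 := Finset.card_insert_of_notMem hzT
  have hsm : ∑ x, (ind T + (un i + un i)) x = T.card + 2 := by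
    simp only [Pi.add_apply]
    rw [Finset.sum_add_distrib, Finset.sum_add_distrib, sum_ind, sum_un]
  have hvm : H97.val b (ind T + (un i + un i)) = sg b (insert z T') := by
    rw [val_add, val_add, val_ind, val_un, hi, sg_insert b hzT, hs]
    abel
  rcases Nat.lt_or_ge (T.card + 2) (insert z T').card with h2 | h2
  · have h3 := h1 ι N b hV (insert z T') _ (by rw [hsm]; exact h2) hvm
    rw [hsm] at h3
    have h4 : FF b \ T' ⊆ insert z (FF b \ insert z T') := by
      intro x hx
      rw [Finset.mem_sdiff] at hx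
      rw [Finset.mem_insert, Finset.mem_sdiff, Finset.mem_insert]
      by_cases hxz : x = z
      · exact Or.inl hxz
      · exact Or.inr ⟨hx.1, fun h => h.elim hxz hx.2⟩
    have h5 := (Finset.card_le_card h4).trans (Finset.card_insert_le _ _)
    omega
  · exfalso
    have h3 := uniq hV (insert z T') _ (by rw [hsm]; omega) hvm
    have h4 := congrFun h3 i
    rw [Pi.add_apply, Pi.add_apply, un_self] at h4
    by_cases hiT : i ∈ insert z T'
    · rw [ind_mem hiT] at h4; omega
    · rw [ind_notMem hiT] at h4; omega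

end XNEG

open XNEG in
theorem NEG_pf (h1 : S_core) : S_neg := by
  classical
  intro ι _ _ N b hV θ 𝒢 st hst hinj
  set X := 𝒢.filter fun T => T.card < (st T).card with hX
  have hXi : Set.InjOn st (X : Set (Finset ι)) := by
    intro T hT T' hT' h
    exact hinj T (Finset.mem_filter.mp (Finset.mem_coe.mp hT)).1 T'
      (Finset.mem_filter.mp (Finset.mem_coe.mp hT')).1 h
  have hcov : X ⊆ (((X.filter fun T => FT θ b ⊆ st T) ∪ (X.filter fun T => st T ∈ A1 (FF b))) ∪
      (X.filter fun T => st T ∈ A2 (FF b))) ∪ (X.filter fun T => T ∈ A3 (FF b)) := by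
    intro T hT
    have hT0 := Finset.mem_filter.mp hT
    by_cases hF : FT θ b ⊆ st T
    · exact Finset.mem_union_left _ (Finset.mem_union_left _ (Finset.mem_union_left _
        (Finset.mem_filter.mpr ⟨hT, hF⟩)))
    · have h2 := key h1 hV (hst T hT0.1) hT0.2 hF
      by_cases a1 : st T ∈ A1 (FF b)
      · exact Finset.mem_union_left _ (Finset.mem_union_left _ (Finset.mem_union_right _
          (Finset.mem_filter.mpr ⟨hT, a1⟩)))
      · by_cases a2 : st T ∈ A2 (FF b)
        · exact Finset.mem_union_left _ (Finset.mem_union_right _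
            (Finset.mem_filter.mpr ⟨hT, a2⟩))
        · refine Finset.mem_union_right _ (Finset.mem_filter.mpr ⟨hT, ?_⟩)
          unfold A1 at a1
          unfold A2 at a2
          unfold A3
          rw [Finset.mem_filter] at a1 a2 ⊢
          refine ⟨Finset.mem_univ _, ?_⟩
          have b1 : ¬ 4 * (FF b \ st T).card ≤ (FF b).card := fun h => a1 ⟨Finset.mem_univ _, h⟩
          have b2 : ¬ 4 * Fintype.card ι + (FF b).card ≤ 8 * (st T).card :=
            fun h => a2 ⟨Finset.mem_univ _, h⟩
          omega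
  have c0 : (X.filter fun T => FT θ b ⊆ st T).card ≤ 2 ^ (Fintype.card ι - (FT θ b).card) := by
    rw [← Finset.card_image_of_injOn (s := X.filter fun T => FT θ b ⊆ st T) (f := st)
      (hXi.mono (by exact_mod_cast Finset.filter_subset _ _))]
    refine card_above _ _ ?_
    intro T' hT'
    rw [Finset.mem_image] at hT'
    obtain ⟨T, hT, rfl⟩ := hT'
    exact (Finset.mem_filter.mp hT).2
  have c1 : (X.filter fun T => st T ∈ A1 (FF b)).card ≤ (A1 (FF b)).card := by
    refine Finset.card_le_card_of_injOn st (fun T hT => (Finset.mem_filter.mp hT).2)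
      (hXi.mono (by exact_mod_cast Finset.filter_subset _ _))
  have c2 : (X.filter fun T => st T ∈ A2 (FF b)).card ≤ (A2 (FF b)).card := by
    refine Finset.card_le_card_of_injOn st (fun T hT => (Finset.mem_filter.mp hT).2)
      (hXi.mono (by exact_mod_cast Finset.filter_subset _ _))
  have c3 : (X.filter fun T => T ∈ A3 (FF b)).card ≤ (A3 (FF b)).card := by
    refine Finset.card_le_card fun T hT => (Finset.mem_filter.mp hT).2
  have h3 := Finset.card_le_card hcov
  have h4 := Finset.card_union_le (((X.filter fun T => FT θ b ⊆ st T) ∪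
    (X.filter fun T => st T ∈ A1 (FF b))) ∪ (X.filter fun T => st T ∈ A2 (FF b)))
    (X.filter fun T => T ∈ A3 (FF b))
  have h5 := Finset.card_union_le ((X.filter fun T => FT θ b ⊆ st T) ∪
    (X.filter fun T => st T ∈ A1 (FF b))) (X.filter fun T => st T ∈ A2 (FF b))
  have h6 := Finset.card_union_le (X.filter fun T => FT θ b ⊆ st T)
    (X.filter fun T => st T ∈ A1 (FF b))
  unfold TL
  omega

end Pool.Agent.Work.MP_2a6590_nt.XL
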