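import Pool.Agent.Work.MP_2a6590_nt.XL.Stmts

/-!
# MP_2a6590_nt, block XL, item SPARSE (helper24)
-/

set_option autoImplicit false

namespace Pool.Agent.Work.MP_2a6590_nt.XL

open Finset Pool.Agent.Work.MP_2a6590_nt.H97

namespace XSPARSE

section

variable {ι : Type} [Fintype ι] [DecidableEq ι] {N : ℕ}

/-- The sets containing `E`. -/
def Sup (E : Finset ι) : Finset (Finset ι) := univ.filter fun T => E ⊆ T

theorem card_Sup (E : Finset ι) : (Sup E).card ≤ 2 ^ (Fintype.card ι - E.card) := by
  have h1 : (Sup E).card ≤ ((univ \ E).powerset).card := by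
    refine Finset.card_le_card_of_injOn (fun T => T \ E) ?_ ?_
    · intro T _
      simp only [Finset.coe_powerset, Set.mem_preimage, Set.mem_powerset_iff, Finset.coe_subset]
      intro x hx
      rw [Finset.mem_sdiff] at hx ⊢
      exact ⟨Finset.mem_univ _, hx.2⟩
    · intro T hT T' hT' e
      simp only [Sup, Finset.coe_filter, Finset.mem_univ, true_and, Set.mem_ofPred_eq] at hT hT'
      have e' : T \ E = T' \ E := e
      rw [← Finset.sdiff_union_of_subset hT, ← Finset.sdiff_union_of_subset hT', e']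
  rw [Finset.card_powerset, Finset.card_sdiff_of_subset (Finset.subset_univ E),
    Finset.card_univ] at h1
  exact h1

end

end XSPARSE

open XSPARSE in
theorem SPARSE_pf (h1 : S_long) (h2 : S_low) : S_sparse := by
  intro ι _ _ N b hN hV hN2 hn hcard i
  classical
  by_contra hcon
  push Not at hcon
  obtain ⟨hi0, hiC⟩ := hcon
  set n := Fintype.card ι with hndef
  set j := Nat.log 2 n + 1 with hj
  have hjn : n < 2 ^ j := Nat.lt_pow_succ_log_self (by norm_num) n
  obtain ⟨E, hE1, hE2⟩ := h1 ι N b hV j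
  have hE : 3 * n + 12 ≤ 4 * E.card := by
    have h3 : 4 * (j * (univ \ FF b).card) + 12 ≤ n := by
      have := hcard
      rw [mul_add] at this
      exact this
    have h4 : n ≤ E.card + j * (univ \ FF b).card := hE1
    omega
  have hEn : E.card ≤ n := Finset.card_le_univ E
  have hle : ∀ T : Finset ι, T.card ≤ n := fun T => Finset.card_le_univ T
  -- long
  have hL : ∀ (T : Finset ι) (m : ι → ℕ), ∑ k, m k < T.card → val b m = sg b T → E ⊆ T := by
    intro T m hm hv
    refine hE2 T m hm ?_ hv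
    have := hle T
    omega
  obtain ⟨hl1, hl2⟩ := h2 ι N b hN hV
  have hBadE : ∀ T ∈ Bad b, E ⊆ T := by
    intro T hT
    rw [mem_Bad] at hT
    obtain ⟨T', hc, hs⟩ := hT
    exact hL T (ind T') (by rw [sum_ind]; exact hc) (by rw [val_ind]; exact hs)
  set ρ := 2 ^ (n - E.card) with hρ
  have hSup : (Sup E).card ≤ ρ := card_Sup E
  have hBad : (Bad b).card ≤ ρ := by
    refine le_trans (Finset.card_le_card ?_) hSup
    intro T hT
    unfold Sup
    rw [Finset.mem_filter]
    exact ⟨Finset.mem_univ _, hBadE T hT⟩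
  -- small sets are not bad
  have hsmall : ∀ S : Finset ι, 4 * S.card ≤ n → S ∉ Bad b := by
    intro S hS hB
    have := Finset.card_le_card (hBadE S hB)
    omega
  set SS : Finset (Finset ι) := univ.filter fun S => i ∉ S ∧ 4 * S.card ≤ n with hSS
  set SW : Finset (Finset ι) := SS.filter fun S => ∀ T, T ∉ Bad b → sg b T ≠ sg b S + (b i + b i)
    with hSW
  set SE : Finset (Finset ι) := SS.filter fun S => ∃ T, T ∉ Bad b ∧ E ⊆ T ∧
    sg b T = sg b S + (b i + b i) with hSE
  set S2 : Finset (Finset ι) := SS.filter fun S => ∃ T, T ∉ Bad b ∧ T.card ≤ S.card + 1 ∧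
    sg b T = sg b S + (b i + b i) with hS2
  have hWc : SW.card ≤ ρ := by
    have h3 : (SW.image fun S => sg b S + (b i + b i)).card = SW.card := by
      refine Finset.card_image_of_injOn ?_
      intro S hS S' hS' e
      have e' : sg b S = sg b S' := add_right_cancel e
      rw [Finset.mem_coe, hSW, Finset.mem_filter, hSS, Finset.mem_filter] at hS hS'
      exact hl1 S S' (hsmall S hS.1.2.2) (hsmall S' hS'.1.2.2) e'
    have h4 := hl2 (SW.image fun S => sg b S + (b i + b i)) (by
      intro g hg T hT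
      rw [Finset.mem_image] at hg
      obtain ⟨S, hS, rfl⟩ := hg
      rw [hSW, Finset.mem_filter] at hS
      exact hS.2 T hT)
    rw [h3, ← hndef] at h4
    omega
  have hEc : SE.card ≤ ρ := by
    have hch : ∀ S : Finset ι, S ∈ SE → ∃ T, T ∉ Bad b ∧ E ⊆ T ∧
        sg b T = sg b S + (b i + b i) := by
      intro S hS
      rw [hSE, Finset.mem_filter] at hS
      exact hS.2
    choose! t ht1 ht2 ht3 using hch
    refine le_trans (Finset.card_le_card_of_injOn t ?_ ?_) hSup
    · intro S hS
      have := ht2 S hS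
      unfold Sup
      rw [Finset.mem_coe, Finset.mem_filter]
      exact ⟨Finset.mem_univ _, this⟩
    · intro S hS S' hS' e
      have a1 := ht3 S hS
      have a2 := ht3 S' hS'
      have e' : t S = t S' := e
      rw [e', a2] at a1
      have e2 : sg b S' = sg b S := add_right_cancel a1
      rw [Finset.mem_coe, hSE, Finset.mem_filter, hSS, Finset.mem_filter] at hS hS'
      exact hl1 S S' (hsmall S hS.1.2.2) (hsmall S' hS'.1.2.2) e2.symm
  have hdiff : SS \ S2 ⊆ SW ∪ SE := by
    intro S hS
    rw [Finset.mem_sdiff] at hS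
    rw [Finset.mem_union]
    by_cases hW : S ∈ SW
    · exact Or.inl hW
    · right
      rw [hSW, Finset.mem_filter, not_and] at hW
      have hW' := hW hS.1
      push Not at hW'
      obtain ⟨T, hT, hs⟩ := hW'
      rw [hSE, Finset.mem_filter]
      refine ⟨hS.1, T, hT, ?_, hs⟩
      have hTc : S.card + 2 ≤ T.card := by
        by_contra hlt
        apply hS.2
        rw [hS2, Finset.mem_filter]
        exact ⟨hS.1, T, hT, by omega, hs⟩
      have hiS : i ∉ S := by
        have := hS.1
        rw [hSS, Finset.mem_filter] at this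
        exact this.2.1
      have hval : val b (ind S + un i + un i) = sg b T := by
        rw [val_add, val_add, val_ind, val_un, hs, add_assoc]
      have hsum : ∑ k, (ind S + un i + un i) k = S.card + 2 := by
        simp only [Pi.add_apply]
        rw [Finset.sum_add_distrib, Finset.sum_add_distrib, sum_ind, sum_un]
      rcases Nat.lt_or_ge (S.card + 2) T.card with hlt | hge
      · exact hL T _ (by rw [hsum]; exact hlt) hval
      · exfalso
        have h5 := uniq hV T _ (by rw [hsum]; omega) hval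
        have h6 := congrFun h5 i
        rw [Pi.add_apply, Pi.add_apply, ind_notMem hiS, un_self] at h6
        unfold H97.ind at h6
        split_ifs at h6 <;> omega
  have hdc : (SS \ S2).card ≤ 2 * ρ := by
    have a1 := Finset.card_le_card hdiff
    have a2 := Finset.card_union_le SW SE
    omega
  -- the powerset of a set with `n / 4` elements
  have hY : ∀ Y : Finset ι, i ∉ Y → n / 4 ≤ Y.card → ∃ S ∈ S2, S ⊆ Y := by
    intro Y hiY hYc
    obtain ⟨Y', hY'1, hY'2⟩ := Finset.exists_subset_card_eq hYc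
    by_contra hno
    push Not at hno
    have hsub : Y'.powerset ⊆ SS \ S2 := by
      intro S hS
      rw [Finset.mem_powerset] at hS
      rw [Finset.mem_sdiff]
      constructor
      · rw [hSS, Finset.mem_filter]
        refine ⟨Finset.mem_univ _, fun hi => hiY (hY'1 (hS hi)), ?_⟩
        have := Finset.card_le_card hS
        omega
      · intro hS'
        exact hno S hS' (hS.trans hY'1)
    have a1 := Finset.card_le_card hsub
    rw [Finset.card_powerset, hY'2] at a1
    have a2 : 2 * ρ < 2 ^ (n / 4) := by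
      have a3 : 2 * ρ = 2 ^ (n - E.card + 1) := by rw [hρ, pow_succ]; ring
      rw [a3]
      refine Nat.pow_lt_pow_right (by norm_num) ?_
      omega
    omega
  -- the pairs
  set PP : Finset (Finset ι × Finset ι) := univ.filter fun p => p.1 ∈ SS ∧ p.2 ∉ Bad b ∧
    p.2.card ≤ p.1.card + 1 ∧ sg b p.2 = sg b p.1 + (b i + b i) with hPP
  have hPP2 : ∀ S ∈ S2, ∃ T, (S, T) ∈ PP := by
    intro S hS
    rw [hS2, Finset.mem_filter] at hS
    obtain ⟨hS, T, hT1, hT2, hT3⟩ := hS
    refine ⟨T, ?_⟩
    rw [hPP, Finset.mem_filter]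
    exact ⟨Finset.mem_univ _, hS, hT1, hT2, hT3⟩
  have hne : PP.Nonempty := by
    obtain ⟨S, hS, _⟩ := hY (univ.erase i) (Finset.notMem_erase i _) (by
      rw [Finset.card_erase_of_mem (Finset.mem_univ i), Finset.card_univ]
      omega)
    obtain ⟨T, hT⟩ := hPP2 S hS
    exact ⟨_, hT⟩
  obtain ⟨⟨S₁, T₁⟩, hp1, hmax⟩ := Finset.exists_max_image PP
    (fun p => p.2.card + (n - p.1.card)) hne
  rw [hPP, Finset.mem_filter] at hp1
  obtain ⟨-, hS₁, hT₁B, hT₁c, hT₁s⟩ := hp1
  dsimp only at hS₁ hT₁B hT₁c hT₁s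
  have hS₁' := hS₁
  rw [hSS, Finset.mem_filter] at hS₁'
  obtain ⟨-, hiS₁, hS₁c⟩ := hS₁'
  have hdec : ∀ S T : Finset ι, sg b T = sg b S + (b i + b i) →
      sg b (T \ S) = (b i + b i) + sg b (S \ T) := by
    intro S T hs
    have a1 : sg b T = sg b (T \ S) + sg b (T ∩ S) := by
      rw [← sg_union b (Finset.disjoint_sdiff_inter T S), Finset.sdiff_union_inter]
    have a2 : sg b S = sg b (S \ T) + sg b (S ∩ T) := by
      rw [← sg_union b (Finset.disjoint_sdiff_inter S T), Finset.sdiff_union_inter]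
    rw [a1, a2, Finset.inter_comm S T] at hs
    have a3 : sg b (T \ S) + sg b (T ∩ S) = (b i + b i + sg b (S \ T)) + sg b (T ∩ S) := by
      rw [hs]; abel
    exact add_right_cancel a3
  have hcd : ∀ S T : Finset ι, (T \ S).card + S.card = (S \ T).card + T.card := by
    intro S T
    have a1 := Finset.card_sdiff_add_card_inter T S
    have a2 := Finset.card_sdiff_add_card_inter S T
    rw [Finset.inter_comm S T] at a2
    omega
  set P := T₁ \ S₁ with hPdef
  set Q := S₁ \ T₁ with hQdef
  have hPQs : sg b P = (b i + b i) + sg b Q := hdec S₁ T₁ hT₁s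
  have hPQc : P.card + S₁.card = Q.card + T₁.card := hcd S₁ T₁
  have hQS : Q.card ≤ S₁.card := Finset.card_le_card Finset.sdiff_subset
  have hQne : Q.Nonempty := by
    rw [Finset.nonempty_iff_ne_empty]
    intro hQ
    rw [hQ, Finset.card_empty] at hPQc
    have hPc : P.card ≤ 1 := by omega
    rw [hQ] at hPQs
    have h0 : sg b (∅ : Finset ι) = 0 := by unfold H97.sg; simp
    rw [h0, add_zero] at hPQs
    rcases Nat.lt_or_ge P.card 1 with hlt | hge
    · have : P = ∅ := Finset.card_eq_zero.mp (by omega)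
      rw [this, h0] at hPQs
      exact hi0 hPQs.symm
    · obtain ⟨y, hy⟩ := Finset.card_eq_one.mp (le_antisymm hPc hge)
      rw [hy] at hPQs
      have : sg b ({y} : Finset ι) = b y := by unfold H97.sg; simp
      rw [this] at hPQs
      exact hiC (mem_CC.mpr ⟨y, hPQs.symm⟩)
  obtain ⟨z, hz⟩ := hQne
  have hz' := Finset.mem_sdiff.mp hz
  obtain ⟨S₂, hS₂, hS₂Y⟩ := hY (univ \ (P ∪ {i, z})) (by
      rw [Finset.mem_sdiff, not_and, not_not]
      intro _
      rw [Finset.mem_union]
      right
      simp) (by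
      rw [Finset.card_sdiff_of_subset (Finset.subset_univ _), Finset.card_univ]
      have a1 := Finset.card_union_le P ({i, z} : Finset ι)
      have a2 : ({i, z} : Finset ι).card ≤ 2 := Finset.card_le_two
      omega)
  obtain ⟨T₂, hp2⟩ := hPP2 S₂ hS₂
  have hm2 := hmax _ hp2
  dsimp only at hm2
  rw [hPP, Finset.mem_filter] at hp2
  obtain ⟨-, hS₂', hT₂B, hT₂c, hT₂s⟩ := hp2
  dsimp only at hS₂' hT₂B hT₂c hT₂s
  rw [hSS, Finset.mem_filter] at hS₂'
  obtain ⟨-, hiS₂, hS₂c⟩ := hS₂'
  have hzS₂ : z ∉ S₂ := by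
    intro h
    have := hS₂Y h
    rw [Finset.mem_sdiff, Finset.mem_union] at this
    exact this.2 (Or.inr (by simp))
  have hdisj : Disjoint P (S₂ \ T₂) := by
    rw [Finset.disjoint_left]
    intro x hxP hx
    have := hS₂Y (Finset.mem_sdiff.mp hx).1
    rw [Finset.mem_sdiff, Finset.mem_union] at this
    exact this.2 (Or.inl hxP)
  have h2s : sg b (T₂ \ S₂) = (b i + b i) + sg b (S₂ \ T₂) := hdec S₂ T₂ hT₂s
  have h2c : (T₂ \ S₂).card + S₂.card = (S₂ \ T₂).card + T₂.card := hcd S₂ T₂
  have hval : val b (ind (T₂ \ S₂) + ind Q) = sg b (P ∪ (S₂ \ T₂)) := by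
    rw [val_add, val_ind, val_ind, sg_union b hdisj, hPQs, h2s]
    abel
  have hsum : ∑ k, (ind (T₂ \ S₂) + ind Q) k = (T₂ \ S₂).card + Q.card := by
    simp only [Pi.add_apply]
    rw [Finset.sum_add_distrib, sum_ind, sum_ind]
  have hTc : (P ∪ (S₂ \ T₂)).card = P.card + (S₂ \ T₂).card :=
    Finset.card_union_of_disjoint hdisj
  have hS₁n := hle S₁
  have hS₂n := hle S₂
  have hle2 : (T₂ \ S₂).card + Q.card ≤ P.card + (S₂ \ T₂).card := by omega
  rcases Nat.lt_or_ge ((T₂ \ S₂).card + Q.card) (P.card + (S₂ \ T₂).card) with hlt | hge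
  · have hET := hL (P ∪ (S₂ \ T₂)) _ (by rw [hsum, hTc]; exact hlt) hval
    have a1 := Finset.card_le_card hET
    rw [hTc] at a1
    have a2 : (S₂ \ T₂).card ≤ S₂.card := Finset.card_le_card Finset.sdiff_subset
    omega
  · have h5 := uniq hV (P ∪ (S₂ \ T₂)) _ (by rw [hsum, hTc]; omega) hval
    have h6 := congrFun h5 z
    rw [Pi.add_apply, ind_mem hz, ind_notMem (S := P ∪ (S₂ \ T₂)) (by
      rw [Finset.mem_union, not_or]
      refine ⟨?_, ?_⟩
      · intro h
        exact hz'.2 (Finset.mem_sdiff.mp h).1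
      · intro h
        exact hzS₂ (Finset.mem_sdiff.mp h).1)] at h6
    omega

end Pool.Agent.Work.MP_2a6590_nt.XL
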