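import Pool.Agent.Work.MP_2a6590_nt.XL.Stmts

/-!
# MP_2a6590_nt, block XL, item STR: systems closed under doubling
-/

set_option autoImplicit false

namespace Pool.Agent.Work.MP_2a6590_nt.XL

open Finset Pool.Agent.Work.MP_2a6590_nt.H97

namespace XSTR

theorem geo {G : Type} [AddCommGroup G] (y : G) (k : ℕ) :
    ∑ s ∈ range k, 2 ^ s • y = (2 ^ k - 1) • y := by
  induction k with
  | zero => simp
  | succ k ih =>
    rw [Finset.sum_range_succ, ih, ← add_smul]
    congr 1
    have : 1 ≤ 2 ^ k := Nat.one_le_two_pow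
    rw [pow_succ]
    omega

theorem per_mul {G : Type} [AddCommGroup G] {y : G} {t : ℕ} (h : 2 ^ t • y = y) (q : ℕ) :
    2 ^ (t * q) • y = y := by
  induction q with
  | zero => simp
  | succ q ih => rw [Nat.mul_succ, pow_add, mul_smul, h, ih]

section

variable {ι : Type} [Fintype ι] [DecidableEq ι] {N : ℕ} {b : ι → ZMod N}

/-- The properties of a cycle. -/
structure Cy (b : ι → ZMod N) (x : ι) (c : Finset ι) : Prop where
  mem : ∀ j, j ∈ c ↔ ∃ r : ℕ, b j = 2 ^ r • b x
  back : ∀ j ∈ c, ∃ r : ℕ, b x = 2 ^ r • b j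
  sub : c ⊆ FF b
  sum : sg b c = 0
  pos : 0 < c.card
  per : ∀ j ∈ c, 2 ^ c.card • b j = b j

theorem exists_cy (hV : Vd b) (hne : ∀ i, b i ≠ 0)
    (hcl : ∀ i, b i + b i = 0 ∨ i ∈ CC b) {x : ι} {t : ℕ} (ht : 1 ≤ t) (hx : 2 ^ t • b x = b x) :
    ∃ c, Cy b x c := by
  classical
  have hinj := Vd_inj hV
  have hex : ∃ t : ℕ, 1 ≤ t ∧ 2 ^ t • b x = b x := ⟨t, ht, hx⟩
  obtain ⟨hl1, hl2⟩ := Nat.find_spec hex
  set l := Nat.find hex with hl
  have hnz : ∀ s : ℕ, 2 ^ s • b x ≠ 0 := by
    intro s hs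
    apply hne x
    have h1 := per_mul hl2 s
    have h2 : l * s = (l * s - s) + s := by
      have : s ≤ l * s := Nat.le_mul_of_pos_left s hl1
      omega
    rw [h2, pow_add, mul_smul, hs, smul_zero] at h1
    exact h1.symm
  have hv : ∀ s : ℕ, ∃ j, b j = 2 ^ s • b x := by
    intro s
    induction s with
    | zero => exact ⟨x, by simp⟩
    | succ s ih =>
      obtain ⟨j, hj⟩ := ih
      have h1 : b j + b j = 2 ^ (s + 1) • b x := by
        rw [hj, pow_succ', mul_smul, two_smul]
      rcases hcl j with h | h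
      · exfalso
        rw [h1] at h
        exact hnz _ h
      · obtain ⟨j', hj'⟩ := mem_CC.1 h
        exact ⟨j', by rw [← h1, hj']⟩
  choose v hv using hv
  have hvinj : ∀ s s' : ℕ, s < s' → s' < l → v s ≠ v s' := by
    intro s s' hs hs' h
    have h1 : 2 ^ s • b x = 2 ^ s' • b x := by rw [← hv, ← hv, h]
    have h2 : b x = 2 ^ (s' - s) • b x := by
      calc b x = 2 ^ (l - s) • 2 ^ s • b x := by
            rw [← mul_smul, ← pow_add, Nat.sub_add_cancel (by omega), hl2]
        _ = 2 ^ (l - s) • 2 ^ s' • b x := by rw [h1]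
        _ = 2 ^ (s' - s) • 2 ^ l • b x := by
            rw [← mul_smul, ← mul_smul, ← pow_add, ← pow_add]
            congr 2
            omega
        _ = 2 ^ (s' - s) • b x := by rw [hl2]
    exact Nat.find_min hex (m := s' - s) (by omega) ⟨by omega, h2.symm⟩
  have hvinj' : Set.InjOn v (range l : Set ℕ) := by
    intro s hs s' hs' h
    rw [Finset.mem_coe, Finset.mem_range] at hs hs'
    rcases lt_trichotomy s s' with h1 | h1 | h1
    · exact absurd h (hvinj s s' h1 hs')
    · exact h1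
    · exact absurd h.symm (hvinj s' s h1 hs)
  have hcard : ((range l).image v).card = l := by
    rw [Finset.card_image_of_injOn hvinj', Finset.card_range]
  have hmod : ∀ r : ℕ, 2 ^ r • b x = 2 ^ (r % l) • b x := by
    intro r
    conv_lhs => rw [← Nat.mod_add_div r l, pow_add, mul_smul, per_mul hl2]
  refine ⟨(range l).image v, ?_, ?_, ?_, ?_, ?_, ?_⟩
  · intro j
    rw [Finset.mem_image]
    constructor
    · rintro ⟨s, _, rfl⟩
      exact ⟨s, hv s⟩
    · rintro ⟨r, hr⟩
      refine ⟨r % l, Finset.mem_range.2 (Nat.mod_lt _ hl1), ?_⟩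
      apply hinj
      rw [hv, hr, ← hmod]
  · intro j hj
    obtain ⟨s, hs, rfl⟩ := Finset.mem_image.1 hj
    rw [Finset.mem_range] at hs
    refine ⟨l - s, ?_⟩
    rw [hv, ← mul_smul, ← pow_add, Nat.sub_add_cancel hs.le, hl2]
  · intro j hj
    obtain ⟨s, hs, rfl⟩ := Finset.mem_image.1 hj
    rw [mem_FF]
    refine ⟨v (s + l - 1), ?_⟩
    rw [hv, hv, ← two_smul ℕ, ← mul_smul, ← pow_succ', Nat.sub_add_cancel (by omega), pow_add,
      mul_smul, hl2]
  · unfold H97.sg
    rw [Finset.sum_image hvinj']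
    simp only [hv]
    rw [geo, Nat.sub_one]
    have h1 : (Nat.pred (2 ^ l)) • b x + b x = 2 ^ l • b x := by
      rw [← succ_nsmul]
      congr 1
      exact Nat.succ_pred (by positivity)
    rw [hl2] at h1
    exact add_eq_right.1 h1
  · rw [hcard]; exact hl1
  · intro j hj
    rw [hcard]
    obtain ⟨s, hs, rfl⟩ := Finset.mem_image.1 hj
    rw [hv, ← mul_smul, mul_comm, mul_smul, hl2]

theorem cy_unique (h1 : S_core) (hV : Vd b) {x x' : ι} {c c' : Finset ι} (hc : Cy b x c)
    (hc' : Cy b x' c') : x' ∈ c := by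
  by_contra hx
  have hdis : Disjoint c c' := by
    rw [Finset.disjoint_left]
    intro j hj hj'
    apply hx
    obtain ⟨r, hr⟩ := (hc.mem j).1 hj
    obtain ⟨m, hm⟩ := hc'.back j hj'
    rw [hc.mem]
    exact ⟨m + r, by rw [hm, hr, ← mul_smul, ← pow_add]⟩
  have key : ∀ c c' : Finset ι, c' ⊆ FF b → 0 < c.card → sg b c = 0 → Disjoint c c' →
      c'.card < c.card := by
    intro c c' hs hp h0 hd
    have h2 := h1 ι N b hV c 0 (by simpa using hp) (by
      rw [h0]; unfold H97.val; simp)
    have h3 : c'.card ≤ (FF b \ c).card := by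
      apply Finset.card_le_card
      intro j hj
      rw [Finset.mem_sdiff]
      exact ⟨hs hj, fun h => (Finset.disjoint_left.1 hd) h hj⟩
    simp only [Pi.zero_apply, Finset.sum_const_zero, add_zero] at h2
    omega
  have h2 := key c c' hc'.sub hc.pos hc.sum hdis
  have h3 := key c' c hc.sub hc'.pos hc'.sum hdis.symm
  omega

end

end XSTR

theorem STR_pf (h1 : S_core) (h2 : S_exp) : S_str := by
  classical
  intro ι _ _ N b hN hV hn hN1 hN2 hcl
  set n := Fintype.card ι with hnn
  have hinj := Vd_inj hV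
  have hexp := h2 ι N b hN hV hN2 (by omega)
  have hpow : 2 ^ n = 2 * 2 ^ (n - 1) := by
    rw [← pow_succ']
    congr 1
    omega
  -- no element vanishes
  have hne : ∀ i, b i ≠ 0 := by
    intro i hi
    have hall : ∀ l, 2 • b l = 0 := by
      intro l
      rw [two_smul]
      by_contra hl
      rcases hcl l with h | h
      · exact hl h
      · obtain ⟨k, hk⟩ := mem_CC.1 h
        have hki : k ≠ i := by
          rintro rfl
          rw [hi] at hk
          exact hl hk
        have h3 := uniq hV ({i, k} : Finset ι) (un l + un l) (by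
          rw [Finset.card_pair hki.symm]
          simp only [Pi.add_apply]
          rw [Finset.sum_add_distrib, sum_un]) (by
          rw [val_add, val_un, hk]
          unfold H97.sg
          rw [Finset.sum_pair hki.symm, hi, zero_add])
        have h4 := congrFun h3 l
        rw [Pi.add_apply, un_self] at h4
        unfold H97.ind at h4
        split_ifs at h4 <;> omega
    have h3 := Nat.le_of_dvd (by norm_num) (hexp 2 hall)
    have h4 : 2 ^ 2 ≤ 2 ^ (n - 1) := Nat.pow_le_pow_right (by norm_num) (by omega)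
    omega
  -- orbits stay in the system
  have horb : ∀ (i : ι) (t : ℕ), 2 ^ t • b i ≠ 0 → ∃ j, b j = 2 ^ t • b i := by
    intro i t
    induction t with
    | zero => intro _; exact ⟨i, by simp⟩
    | succ t ih =>
      intro ht
      have h3 : 2 ^ (t + 1) • b i = 2 ^ t • b i + 2 ^ t • b i := by
        rw [pow_succ', mul_smul, two_smul]
      have h4 : 2 ^ t • b i ≠ 0 := by
        intro h0
        rw [h3, h0, add_zero] at ht
        exact ht rfl
      obtain ⟨j, hj⟩ := ih h4
      rw [h3, ← hj] at ht ⊢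
      rcases hcl j with h | h
      · exact absurd h ht
      · obtain ⟨j', hj'⟩ := mem_CC.1 h
        exact ⟨j', hj'.symm⟩
  have hzero : ∀ (i : ι) (s t : ℕ), s ≤ t → 2 ^ s • b i = 0 → 2 ^ t • b i = 0 := by
    intro i s t hst h0
    obtain ⟨r, rfl⟩ := Nat.exists_eq_add_of_le hst
    rw [add_comm, pow_add, mul_smul, h0, smul_zero]
  -- a repetition gives a periodic index
  have hrep : ∀ (i : ι) (s s' : ℕ), s < s' → 2 ^ s • b i = 2 ^ s' • b i → ∀ j,
      b j = 2 ^ s • b i → ∃ t, 1 ≤ t ∧ 2 ^ t • b j = b j := by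
    intro i s s' hs h j hj
    refine ⟨s' - s, by omega, ?_⟩
    rw [hj, ← mul_smul, ← pow_add, Nat.sub_add_cancel hs.le, h]
  -- pigeonhole
  have hpig : ∀ i, 2 ^ n • b i ≠ 0 → ∃ (s : ℕ) (j : ι), b j = 2 ^ s • b i ∧
      ∃ t, 1 ≤ t ∧ 2 ^ t • b j = b j := by
    intro i hi
    have h3 : ∀ s : Fin (n + 1), ∃ j, b j = 2 ^ (s : ℕ) • b i := by
      intro s
      apply horb
      intro h0
      exact hi (hzero i s n (by omega) h0)
    choose w hw using h3
    obtain ⟨s, s', hss, hw'⟩ := Fintype.exists_ne_map_eq_of_card_lt w (by simp [hnn])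
    have h4 : 2 ^ (s : ℕ) • b i = 2 ^ (s' : ℕ) • b i := by rw [← hw, ← hw, hw']
    rcases lt_or_gt_of_ne (fun h => hss (Fin.ext h)) with h5 | h5
    · exact ⟨s, w s, hw s, hrep i s s' h5 h4 _ (hw s)⟩
    · exact ⟨s', w s', hw s', hrep i s' s h5 h4.symm _ (hw s')⟩
  -- there is a cycle
  have hcyc : ∃ x c, XSTR.Cy b x c := by
    by_contra hno
    push Not at hno
    have h3 : ∀ i, 2 ^ n • b i = 0 := by
      intro i
      by_contra hi
      obtain ⟨s, j, _, t, ht, hj⟩ := hpig i hi
      obtain ⟨c, hc⟩ := XSTR.exists_cy hV hne hcl ht hj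
      exact hno _ _ hc
    have h4 := hexp (2 ^ n) h3
    obtain ⟨a, ha, rfl⟩ := (Nat.dvd_prime_pow Nat.prime_two).1 h4
    have h5 := (Nat.pow_lt_pow_iff_right (by norm_num : 1 < 2)).1 hN1
    have h6 := (Nat.pow_lt_pow_iff_right (by norm_num : 1 < 2)).1 hN2
    omega
  obtain ⟨x₀, c, hc⟩ := hcyc
  have hper : ∀ j, (∃ t, 1 ≤ t ∧ 2 ^ t • b j = b j) → j ∈ c := by
    rintro j ⟨t, ht, hj⟩
    obtain ⟨c', hc'⟩ := XSTR.exists_cy hV hne hcl ht hj
    exact XSTR.cy_unique h1 hV hc hc'
  set l := c.card with hl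
  have hl0 : 0 < l := hc.pos
  have hkill : ∀ j ∈ c, (2 ^ l - 1) • b j = 0 := by
    intro j hj
    have h3 : (2 ^ l - 1) • b j + b j = 2 ^ l • b j := by
      rw [← succ_nsmul]
      congr 1
      exact Nat.sub_add_cancel Nat.one_le_two_pow
    rw [hc.per j hj] at h3
    exact add_eq_right.1 h3
  -- entrance times
  have hent : ∀ i, ∃ d : ℕ, 2 ^ d • b i = 0 ∨ ∃ j ∈ c, b j = 2 ^ d • b i := by
    intro i
    by_cases hi : 2 ^ n • b i = 0
    · exact ⟨n, Or.inl hi⟩
    · obtain ⟨s, j, hj, hjp⟩ := hpig i hi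
      exact ⟨s, Or.inr ⟨j, hper j hjp, hj⟩⟩
  set dd : ι → ℕ := fun i => Nat.find (hent i) with hdd
  have hne' : (univ : Finset ι).Nonempty := by
    rw [← Finset.card_pos, Finset.card_univ]
    omega
  obtain ⟨x, _, hx⟩ := Finset.exists_max_image univ dd hne'
  set k := dd x with hk
  -- the exponent
  have hR : ∀ i, (2 ^ k * (2 ^ l - 1)) • b i = 0 := by
    intro i
    have h3 : dd i ≤ k := hx i (Finset.mem_univ i)
    have h4 : 2 ^ k * (2 ^ l - 1) = 2 ^ (k - dd i) * ((2 ^ l - 1) * 2 ^ (dd i)) := by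
      conv_lhs => rw [← Nat.sub_add_cancel h3, pow_add]
      ring
    rw [h4, mul_smul, mul_smul]
    rcases Nat.find_spec (hent i) with h5 | ⟨j, hj, h5⟩
    · have h6 : 2 ^ (dd i) • b i = 0 := h5
      rw [h6, smul_zero, smul_zero]
    · have h6 : b j = 2 ^ (dd i) • b i := h5
      rw [← h6, hkill j hj, smul_zero]
  have hdvd := hexp _ hR
  -- the path
  have hu : ∀ s, s < k → ∃ j, b j = 2 ^ s • b x ∧ j ∉ c := by
    intro s hs
    have h3 := Nat.find_min (hent x) (m := s) hs
    push Not at h3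
    obtain ⟨j, hj⟩ := horb x s h3.1
    exact ⟨j, hj, fun hjc => h3.2 j hjc hj⟩
  set u : ℕ → ι := fun s => if hs : s < k then (hu s hs).choose else x with hudef
  have hu1 : ∀ s, s < k → b (u s) = 2 ^ s • b x := by
    intro s hs
    simp only [hudef, dif_pos hs]
    exact (hu s hs).choose_spec.1
  have hu2 : ∀ s, s < k → u s ∉ c := by
    intro s hs
    simp only [hudef, dif_pos hs]
    exact (hu s hs).choose_spec.2
  have hu3 : ∀ s s', s < s' → s' < k → u s ≠ u s' := by
    intro s s' hs hs' h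
    have h3 : 2 ^ s • b x = 2 ^ s' • b x := by
      rw [← hu1 s (by omega), ← hu1 s' hs', h]
    exact hu2 s (by omega) (hper _ (hrep x s s' hs h3 _ (hu1 s (by omega))))
  have hu4 : ∀ s < k, ∀ s' < k, u s = u s' → s = s' := by
    intro s hs s' hs' h
    rcases lt_trichotomy s s' with h3 | h3 | h3
    · exact absurd h (hu3 s s' h3 hs')
    · exact h3
    · exact absurd h.symm (hu3 s' s h3 hs)
  have hinjOn : Set.InjOn u (range k : Set ℕ) := by
    intro s hs s' hs' h
    rw [Finset.mem_coe, Finset.mem_range] at hs hs'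
    exact hu4 s hs s' hs' h
  have hdis : Disjoint c ((range k).image u) := by
    rw [Finset.disjoint_left]
    intro j hj hj'
    obtain ⟨s, hs, rfl⟩ := Finset.mem_image.1 hj'
    exact hu2 s (Finset.mem_range.1 hs) hj
  have hcard : (c ∪ (range k).image u).card = l + k := by
    rw [Finset.card_union_of_disjoint hdis, Finset.card_image_of_injOn hinjOn, Finset.card_range]
  have hle : l + k ≤ n := by
    rw [← hcard]
    exact Finset.card_le_univ _
  -- arithmetic
  have h2l : 1 < 2 ^ l := Nat.one_lt_two_pow (by omega)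
  have hRpos : 0 < 2 ^ k * (2 ^ l - 1) := Nat.mul_pos (by positivity) (by omega)
  have hRe : 2 ^ k * (2 ^ l - 1) + 2 ^ k = 2 ^ (l + k) := by
    rw [pow_add, mul_comm (2 ^ l), ← Nat.mul_succ]
    congr 1
    omega
  have hNR := Nat.le_of_dvd hRpos hdvd
  have h2k : 0 < 2 ^ k := by positivity
  have hge : n ≤ l + k := by
    by_contra hlt
    have h3 : 2 ^ (l + k) ≤ 2 ^ (n - 1) := Nat.pow_le_pow_right (by norm_num) (by omega)
    omega
  have heq : l + k = n := le_antisymm hle hge
  have hNk : N + 2 ^ k = 2 ^ n := by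
    rw [heq] at hRe
    obtain ⟨q, hq⟩ := hdvd
    have hq1 : q = 1 := by
      rcases Nat.lt_or_ge q 2 with h3 | h3
      · interval_cases q
        · omega
        · rfl
      · exfalso
        have h4 : N * 2 ≤ N * q := Nat.mul_le_mul_left N h3
        omega
    rw [hq1, mul_one] at hq
    omega
  refine ⟨k, by omega, hNk, ?_⟩
  rcases Nat.eq_zero_or_pos k with hk0 | hk0
  · exact Or.inl hk0
  · right
    have hu0 : b (u 0) = b x := by
      rw [hu1 0 hk0]; simp
    refine ⟨u, hu4, ?_, ?_⟩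
    · intro s hs
      rw [hu1 s hs, hu0]
    · have huniv : univ = c ∪ (range k).image u := by
        symm
        rw [← Finset.card_eq_iff_eq_univ, hcard, heq]
      rw [huniv, sg_union b hdis, hc.sum, zero_add, hu0]
      unfold H97.sg
      rw [Finset.sum_image hinjOn, ← XSTR.geo]
      exact Finset.sum_congr rfl fun s hs => hu1 s (Finset.mem_range.1 hs)

end Pool.Agent.Work.MP_2a6590_nt.XL
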