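import Pool.Agent.Work.MP_2a6590_nt.XL.StmtsB
import Pool.Agent.Work.MP_2a6590_nt.H97B.I.Sys

/-!
# MP_2a6590_nt, block XL: the system of a valid family
-/

set_option autoImplicit false

namespace Pool.Agent.Work.MP_2a6590_nt.XL

open Finset Pool.Agent.Work.MP_2a6590_nt.H97 Pool.Agent.Work.MP_2a6590_nt.H97B

theorem SYSG_pf : S_sysg := by
  classical
  intro ι _ _ N a hN hV
  have hNZ : NeZero N := ⟨by omega⟩
  have hinj : Function.Injective a := Vd_inj hV
  refine ⟨?_, ?_, ?_, ?_⟩
  · intro m h i
    exact JSys.uni hV m h i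
  · intro b W hW
    have h1 : W.card ≤ (univ : Finset (ZMod N)).card := by
      refine Finset.card_le_card_of_injOn (fun w : ℤ × ZMod N => w.2 - w.1 • (a b))
        (fun _ _ => Finset.mem_coe.mpr (Finset.mem_univ _)) ?_
      intro w hw w' hw' h
      have hw1 := hW w hw
      have hw2 := hW w' hw'
      have h3 := JSys.aux a b hw1.1 hw2.2 h
      have h4 := JSys.aux a b hw2.1 hw1.2 h.symm
      have h5 : w.1 = w'.1 := le_antisymm h4 h3
      refine Prod.ext h5 ?_
      simp only at h
      rw [h5] at h
      exact sub_left_injective h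
    rwa [Finset.card_univ, ZMod.card] at h1
  · intro i j k h1 h2
    by_contra hcon
    push Not at hcon
    obtain ⟨hij, hik, hjk⟩ := hcon
    have h1' : 2 • (a i) = 2 • (a j) := congrArg Prod.snd h1
    have h2' : 2 • (a i) = 2 • (a k) := congrArg Prod.snd h2
    have h := IsAddCyclic.card_nsmul_eq_zero_le (α := ZMod N) (n := 2) (by norm_num)
    have h3 : ({i, j, k} : Finset ι).card = 3 := by
      rw [Finset.card_eq_three]
      exact ⟨i, j, k, hij, hik, hjk, rfl⟩
    have h4 : ({i, j, k} : Finset ι).card ≤
        (univ.filter fun g : ZMod N => 2 • g = 0).card := by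
      refine Finset.card_le_card_of_injOn (fun b : ι => a b - a i) ?_ ?_
      · intro b hb
        simp only [Finset.coe_insert, Finset.coe_singleton, Set.mem_insert_iff,
          Set.mem_singleton_iff] at hb
        rw [Finset.mem_coe, Finset.mem_filter]
        refine ⟨Finset.mem_univ _, ?_⟩
        rw [smul_sub, sub_eq_zero]
        rcases hb with rfl | rfl | rfl
        · rfl
        · exact h1'.symm
        · exact h2'.symm
      · intro b _ b' _ e
        exact hinj (sub_left_injective e)
    omega
  · exact ⟨AddMonoidHom.fst ℤ (ZMod N), fun i => rfl⟩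

end Pool.Agent.Work.MP_2a6590_nt.XL
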