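import Pool.Agent.Work.MP_2a6590_nt.XL.Stmts

set_option autoImplicit false

/-!
# MP_2a6590_nt, block XL, item TAIL: exponentially small tails
-/

namespace Pool.Agent.Work.MP_2a6590_nt.XL

open Finset Pool.Agent.Work.MP_2a6590_nt.H97

namespace XTAIL

variable {ι : Type} [Fintype ι] [DecidableEq ι]

theorem two_cosh_le (t : ℝ) : Real.exp t + Real.exp (-t) ≤ 2 * Real.exp (t ^ 2 / 2) := by
  have h := Real.cosh_le_exp_half_sq t
  rw [Real.cosh_eq] at h
  linarith

/-- the exponential moment -/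
theorem mgf (F : Finset ι) (t : ℝ) :
    ∑ T : Finset ι, Real.exp (t * (((T ∩ F).card : ℝ) - ((F \ T).card : ℝ))) ≤
      2 ^ Fintype.card ι * Real.exp ((F.card : ℝ) * t ^ 2 / 2) := by
  have h1 := Finset.prod_add (fun i : ι => if i ∈ F then Real.exp t else 1)
    (fun i => if i ∈ F then Real.exp (-t) else 1) univ
  have h2 : ∏ i : ι, ((if i ∈ F then Real.exp t else 1) + (if i ∈ F then Real.exp (-t) else 1)) ≤
      ∏ i : ι, (2 * (if i ∈ F then Real.exp (t ^ 2 / 2) else 1)) := by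
    apply Finset.prod_le_prod
    · intro i _
      split_ifs
      · positivity
      · norm_num
    · intro i _
      split_ifs
      · exact two_cosh_le t
      · norm_num
  have h3 : ∏ i : ι, (2 * (if i ∈ F then Real.exp (t ^ 2 / 2) else (1 : ℝ))) =
      2 ^ Fintype.card ι * Real.exp ((F.card : ℝ) * t ^ 2 / 2) := by
    rw [Finset.prod_mul_distrib, Finset.prod_const, Finset.card_univ, Finset.prod_ite_mem,
      Finset.univ_inter, Finset.prod_const, ← Real.exp_nat_mul]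
    congr 2
    ring
  have h4 : ∀ T : Finset ι, (∏ i ∈ T, (if i ∈ F then Real.exp t else (1 : ℝ))) *
      ∏ i ∈ univ \ T, (if i ∈ F then Real.exp (-t) else (1 : ℝ)) =
      Real.exp (t * (((T ∩ F).card : ℝ) - ((F \ T).card : ℝ))) := by
    intro T
    rw [Finset.prod_ite_mem, Finset.prod_ite_mem, Finset.prod_const, Finset.prod_const]
    have : (univ \ T) ∩ F = F \ T := by
      ext i
      simp [and_comm]
    rw [this, ← Real.exp_nat_mul, ← Real.exp_nat_mul, ← Real.exp_add]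
    congr 1
    ring
  rw [← h3]
  refine le_trans (le_of_eq ?_) h2
  rw [h1, Finset.powerset_univ]
  exact Finset.sum_congr rfl fun T _ => (h4 T).symm

/-- the Markov inequality for the exponential moment -/
theorem markov (F : Finset ι) (t : ℝ) (s : ℝ) (A : Finset (Finset ι))
    (hA : ∀ T ∈ A, s ≤ t * (((T ∩ F).card : ℝ) - ((F \ T).card : ℝ))) :
    (A.card : ℝ) * Real.exp s ≤ 2 ^ Fintype.card ι * Real.exp ((F.card : ℝ) * t ^ 2 / 2) := by
  refine le_trans ?_ (mgf F t)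
  rw [← nsmul_eq_mul, ← Finset.sum_const]
  refine le_trans (Finset.sum_le_sum fun T hT => Real.exp_le_exp.2 (hA T hT)) ?_
  exact Finset.sum_le_sum_of_subset_of_nonneg (Finset.subset_univ A) fun _ _ _ =>
    (Real.exp_pos _).le

omit [Fintype ι] in
theorem inter_add_sdiff (F T : Finset ι) : (T ∩ F).card + (F \ T).card = F.card := by
  rw [Finset.inter_comm]
  exact Finset.card_inter_add_card_sdiff F T

theorem A1_le (F : Finset ι) :
    ((A1 F).card : ℝ) ≤ 2 ^ Fintype.card ι * Real.exp (-((F.card : ℝ) / 8)) := by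
  have h := markov F (1 / 2) ((F.card : ℝ) / 4) (A1 F) (by
    intro T hT
    have h1 : 4 * (F \ T).card ≤ F.card := by
      unfold A1 at hT
      exact (Finset.mem_filter.1 hT).2
    have h2 := inter_add_sdiff F T
    have h3 : (4 : ℝ) * ((F \ T).card : ℝ) ≤ (F.card : ℝ) := by exact_mod_cast h1
    have h4 : ((T ∩ F).card : ℝ) + ((F \ T).card : ℝ) = (F.card : ℝ) := by exact_mod_cast h2
    linarith)
  have h5 : Real.exp (-((F.card : ℝ) / 8)) =
      Real.exp ((F.card : ℝ) * (1 / 2) ^ 2 / 2) * Real.exp (-((F.card : ℝ) / 4)) := by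
    rw [← Real.exp_add]
    congr 1
    ring
  rw [h5, ← mul_assoc]
  have h6 : ((A1 F).card : ℝ) =
      (A1 F).card * Real.exp ((F.card : ℝ) / 4) * Real.exp (-((F.card : ℝ) / 4)) := by
    rw [mul_assoc, ← Real.exp_add, add_neg_cancel, Real.exp_zero, mul_one]
  rw [h6]
  exact mul_le_mul_of_nonneg_right h (Real.exp_pos _).le

theorem A2_le (F : Finset ι) (hn : 0 < Fintype.card ι) :
    ((A2 F).card : ℝ) ≤ 2 ^ Fintype.card ι *
      Real.exp (-((F.card : ℝ) ^ 2 / (32 * (Fintype.card ι : ℝ)))) := by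
  have hn' : (0 : ℝ) < (Fintype.card ι : ℝ) := by exact_mod_cast hn
  set n : ℝ := (Fintype.card ι : ℝ) with hn0
  set f : ℝ := (F.card : ℝ) with hf0
  have hf : 0 ≤ f := by rw [hf0]; positivity
  have h := markov (univ : Finset ι) (f / (4 * n)) (f ^ 2 / (16 * n)) (A2 F) (by
    intro T hT
    have h1 : 4 * Fintype.card ι + F.card ≤ 8 * T.card := by
      unfold A2 at hT
      exact (Finset.mem_filter.1 hT).2
    have h2 := inter_add_sdiff univ T
    rw [Finset.inter_univ, Finset.card_univ] at h2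
    have h3 : 4 * n + f ≤ 8 * (T.card : ℝ) := by rw [hn0, hf0]; exact_mod_cast h1
    have h4 : (T.card : ℝ) + ((univ \ T).card : ℝ) = n := by rw [hn0]; exact_mod_cast h2
    rw [Finset.inter_univ]
    have h5 : f / 4 ≤ (T.card : ℝ) - ((univ \ T).card : ℝ) := by linarith
    calc f ^ 2 / (16 * n) = f / (4 * n) * (f / 4) := by
          field_simp
          ring
      _ ≤ _ := mul_le_mul_of_nonneg_left h5 (by positivity))
  rw [Finset.card_univ, ← hn0] at h
  have h5 : Real.exp (-(f ^ 2 / (32 * n))) =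
      Real.exp (n * (f / (4 * n)) ^ 2 / 2) * Real.exp (-(f ^ 2 / (16 * n))) := by
    rw [← Real.exp_add]
    congr 1
    field_simp
    ring
  rw [h5, ← mul_assoc]
  have h6 : ((A2 F).card : ℝ) =
      (A2 F).card * Real.exp (f ^ 2 / (16 * n)) * Real.exp (-(f ^ 2 / (16 * n))) := by
    rw [mul_assoc, ← Real.exp_add, add_neg_cancel, Real.exp_zero, mul_one]
  rw [h6]
  exact mul_le_mul_of_nonneg_right h (Real.exp_pos _).le

theorem A3_le_A2 (F : Finset ι) : (A3 F).card ≤ (A2 F).card := by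
  refine Finset.card_le_card_of_injOn (fun T => Tᶜ) ?_ ?_
  · intro T hT
    rw [Finset.mem_coe] at hT ⊢
    unfold A3 at hT
    unfold A2
    have h1 := (Finset.mem_filter.1 hT).2
    have h2 := Finset.card_add_card_compl T
    refine Finset.mem_filter.2 ⟨Finset.mem_univ _, ?_⟩
    show 4 * Fintype.card ι + F.card ≤ 8 * (Tᶜ).card
    omega
  · intro T _ T' _ h
    exact compl_injective h

theorem absorb (K n : ℕ) (hK : 1 ≤ K) (hn : 72 * 2 ^ 12 * (32 * K ^ 2) ^ 3 + 1 ≤ n) :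
    (3 : ℝ) * 2 ^ 12 * ((n : ℝ) + 1) ^ 2 ≤ Real.exp ((n : ℝ) / (32 * (K : ℝ) ^ 2)) := by
  have hK' : (1 : ℝ) ≤ (K : ℝ) := by exact_mod_cast hK
  have hn1 : (72 : ℝ) * 2 ^ 12 * (32 * (K : ℝ) ^ 2) ^ 3 + 1 ≤ (n : ℝ) := by exact_mod_cast hn
  set D : ℝ := 32 * (K : ℝ) ^ 2 with hD
  have hD0 : 0 < D := by rw [hD]; positivity
  have hn2 : (1 : ℝ) ≤ (n : ℝ) := by
    have : (0 : ℝ) ≤ 72 * 2 ^ 12 * D ^ 3 := by positivity
    linarith
  have h1 := Real.pow_div_factorial_le_exp ((n : ℝ) / D) (by positivity) 3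
  refine le_trans ?_ h1
  have h2 : ((n : ℝ) / D) ^ 3 / (Nat.factorial 3 : ℝ) = (n : ℝ) ^ 3 / (6 * D ^ 3) := by
    have : (Nat.factorial 3 : ℝ) = 6 := by norm_num [Nat.factorial]
    rw [this, div_pow]
    field_simp
  rw [h2, le_div_iff₀ (by positivity)]
  have h3 : ((n : ℝ) + 1) ^ 2 ≤ 4 * (n : ℝ) ^ 2 := by nlinarith
  have h4 : 72 * 2 ^ 12 * D ^ 3 ≤ (n : ℝ) := by linarith
  calc 3 * 2 ^ 12 * ((n : ℝ) + 1) ^ 2 * (6 * D ^ 3)
      ≤ 3 * 2 ^ 12 * (4 * (n : ℝ) ^ 2) * (6 * D ^ 3) := by gcongr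
    _ = (n : ℝ) ^ 2 * (72 * 2 ^ 12 * D ^ 3) := by ring
    _ ≤ (n : ℝ) ^ 2 * (n : ℝ) := mul_le_mul_of_nonneg_left h4 (by positivity)
    _ = (n : ℝ) ^ 3 := by ring

end XTAIL

open XTAIL in
theorem TAIL_pf : S_tail := by
  intro K
  refine ⟨72 * 2 ^ 12 * (32 * K ^ 2) ^ 3 + 1, ?_⟩
  intro ι _ _ hn F hF
  have hn1 : 1 ≤ Fintype.card ι := le_trans (Nat.le_add_left 1 _) hn
  have hK : 1 ≤ K := by
    rcases Nat.eq_zero_or_pos K with h | h
    · rw [h, zero_mul] at hF
      omega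
    · exact h
  have hK' : (1 : ℝ) ≤ (K : ℝ) := by exact_mod_cast hK
  have habs := absorb K (Fintype.card ι) hK hn
  have hFn : F.card ≤ Fintype.card ι := Finset.card_le_univ F
  have h1 := A1_le F
  have h2 := A2_le F hn1
  have h3 : ((A3 F).card : ℝ) ≤ ((A2 F).card : ℝ) := by exact_mod_cast A3_le_A2 F
  set n : ℝ := (Fintype.card ι : ℝ) with hn0
  set f : ℝ := (F.card : ℝ) with hf0
  have hn' : (1 : ℝ) ≤ n := by rw [hn0]; exact_mod_cast hn1
  have hf : 0 ≤ f := by rw [hf0]; positivity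
  have hfK : n ≤ (K : ℝ) * f := by rw [hn0, hf0]; exact_mod_cast hF
  have hfn : f ≤ n := by rw [hn0, hf0]; exact_mod_cast hFn
  have hKK : (0 : ℝ) < 32 * (K : ℝ) ^ 2 := by positivity
  -- the two exponents
  have e2 : n / (32 * (K : ℝ) ^ 2) ≤ f ^ 2 / (32 * n) := by
    rw [div_le_div_iff₀ hKK (by positivity)]
    have : n * n ≤ ((K : ℝ) * f) * ((K : ℝ) * f) := mul_le_mul hfK hfK (by linarith) (by positivity)
    nlinarith
  have e1 : n / (32 * (K : ℝ) ^ 2) ≤ f / 8 := by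
    refine le_trans e2 ?_
    rw [div_le_div_iff₀ (by positivity) (by norm_num)]
    nlinarith
  have g1 : ((A1 F).card : ℝ) ≤ 2 ^ Fintype.card ι * Real.exp (-(n / (32 * (K : ℝ) ^ 2))) :=
    le_trans h1 (mul_le_mul_of_nonneg_left (Real.exp_le_exp.2 (by linarith)) (by positivity))
  have g2 : ((A2 F).card : ℝ) ≤ 2 ^ Fintype.card ι * Real.exp (-(n / (32 * (K : ℝ) ^ 2))) :=
    le_trans h2 (mul_le_mul_of_nonneg_left (Real.exp_le_exp.2 (by linarith)) (by positivity))
  have key : (2 : ℝ) ^ 12 * (n + 1) ^ 2 * ((TL F : ℕ) : ℝ) ≤ 2 ^ Fintype.card ι := by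
    have hTL : ((TL F : ℕ) : ℝ) ≤
        3 * (2 ^ Fintype.card ι * Real.exp (-(n / (32 * (K : ℝ) ^ 2)))) := by
      unfold TL
      push_cast
      linarith
    calc (2 : ℝ) ^ 12 * (n + 1) ^ 2 * ((TL F : ℕ) : ℝ)
        ≤ 2 ^ 12 * (n + 1) ^ 2 *
            (3 * (2 ^ Fintype.card ι * Real.exp (-(n / (32 * (K : ℝ) ^ 2))))) :=
          mul_le_mul_of_nonneg_left hTL (by positivity)
      _ = (3 * 2 ^ 12 * (n + 1) ^ 2) * Real.exp (-(n / (32 * (K : ℝ) ^ 2))) *
            2 ^ Fintype.card ι := by ring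
      _ ≤ Real.exp (n / (32 * (K : ℝ) ^ 2)) * Real.exp (-(n / (32 * (K : ℝ) ^ 2))) *
            2 ^ Fintype.card ι := by
          gcongr
      _ = 2 ^ Fintype.card ι := by
          rw [← Real.exp_add, add_neg_cancel, Real.exp_zero, one_mul]
  rw [hn0] at key
  exact_mod_cast key

end Pool.Agent.Work.MP_2a6590_nt.XL
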