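import Pool.Agent.Work.MP_2a6590_nt.XL.StmtsB
import Pool.Agent.Work.MP_2a6590_nt.H97B.I.Main

/-!
# MP_2a6590_nt, block XL: three elements of a large set are in one class
-/

set_option autoImplicit false

namespace Pool.Agent.Work.MP_2a6590_nt.XL

open Finset Pool.Agent.Work.MP_2a6590_nt.H97 Pool.Agent.Work.MP_2a6590_nt.H97B

namespace XTHREE

open JMain

theorem half_le {φ : ℕ} (hφ : 1 ≤ φ) : (1 : ℝ) / 2 ≤ 1 - 1 / 2 ^ φ := by
  have h1 : (1 : ℝ) / 2 ^ φ ≤ 1 / 2 ^ 1 :=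
    one_div_le_one_div_of_le (by positivity) (pow_le_pow_right₀ (by norm_num) hφ)
  norm_num at h1 ⊢
  linarith

theorem wt_le {φ ψ j : ℕ} (hφ : 1 ≤ φ) (hψ : ψ ≤ j) :
    (1 : ℝ) / 2 ^ (j + 2) ≤ (1 - 1 / 2 ^ φ) / 2 ^ (ψ + 1) := by
  have h1 := half_le hφ
  have h2 : (1 : ℝ) / 2 ^ (j + 2) = (1 / 2) / 2 ^ (j + 1) := by
    rw [pow_succ (2 : ℝ) (j + 1)]
    field_simp
  rw [h2]
  have h3 : (1 / 2 : ℝ) / 2 ^ (j + 1) ≤ (1 / 2) / 2 ^ (ψ + 1) :=
    div_le_div_of_nonneg_left (by norm_num) (by positivity)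
      (pow_le_pow_right₀ (by norm_num) (by omega))
  refine h3.trans ?_
  exact div_le_div_of_nonneg_right h1 (by positivity)

theorem wt0 {φ ψ : ℕ} (hφ : 2 ≤ φ) (hψ : ψ ≤ 0) :
    (3 : ℝ) / 8 ≤ (1 - 1 / 2 ^ φ) / 2 ^ (ψ + 1) := by
  have h0 : ψ = 0 := by omega
  subst h0
  have h1 : (1 : ℝ) / 2 ^ φ ≤ 1 / 2 ^ 2 :=
    one_div_le_one_div_of_le (by positivity) (pow_le_pow_right₀ (by norm_num) hφ)
  norm_num at h1 ⊢
  linarith

variable {ι H : Type} [DecidableEq ι] [AddCommGroup H]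

/-- Extension of a path. -/
theorem ext2 {e : ι → H} {I : Finset ι}
    {V : ι → Finset ι} {l : ℕ} {T : ℕ → TyD ι H} {y : ℕ → ι → ι} (h : Path e I V l T y)
    {k : TyD ι H} (hk : IsTy e I V k) (hkY : ∀ a ∈ I, k.Ψ a ⊆ Ys y l a ∧ Disjoint (k.Φ a) (Ys y l a))
    (hφ : 0 < k.φ) : ∃ T' y', Path e I V (l + 1) T' y' ∧ ∀ j < l, T' j = T j := by
  classical
  have hex : ∀ a ∈ I, ∃ x, x ∈ k.Φ a := by
    intro a ha
    have : 0 < (k.Φ a).card := by rw [hk.kΦ a ha]; exact hφ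
    exact Finset.card_pos.mp this
  set z : ι → ι := fun a => if ha : a ∈ I then (hex a ha).choose else a with hz
  have hz1 : ∀ a ∈ I, z a ∈ k.Φ a := by
    intro a ha
    rw [hz]
    simp only
    rw [dif_pos ha]
    exact (hex a ha).choose_spec
  set T' : ℕ → TyD ι H := fun j => if j = l then k else T j with hT'
  set y' : ℕ → ι → ι := fun j => if j = l then z else y j with hy'
  have eT : T' l = k := by rw [hT']; simp
  have eT' : ∀ j < l, T' j = T j := by
    intro j hj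
    rw [hT']
    simp only
    rw [if_neg (by omega)]
  have ey : y' l = z := by rw [hy']; simp
  have ey' : ∀ j < l, y' j = y j := by
    intro j hj
    rw [hy']
    simp only
    rw [if_neg (by omega)]
  have eY : ∀ j ≤ l, ∀ a, Ys y' j a = Ys y j a := fun j hj a =>
    Ys_congr (fun i hi => ey' i (by omega)) a
  refine ⟨T', y', ⟨?_, ?_, ?_, ?_⟩, eT'⟩
  · intro j hj
    by_cases h1 : j = l
    · rw [h1, eT]; exact hk
    · rw [eT' j (by omega)]; exact h.ty j (by omega)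
  · intro j hj a ha
    by_cases h1 : j = l
    · rw [h1, eT, ey]; exact hz1 a ha
    · rw [eT' j (by omega), ey' j (by omega)]; exact h.mem j (by omega) a ha
  · intro j hj a ha
    rw [eY j (by omega)]
    by_cases h1 : j = l
    · rw [h1, eT]; exact (hkY a ha).1
    · rw [eT' j (by omega)]; exact h.sub j (by omega) a ha
  · intro j hj a ha
    rw [eY j (by omega)]
    by_cases h1 : j = l
    · rw [h1, eT]; exact (hkY a ha).2
    · rw [eT' j (by omega)]; exact h.dis j (by omega) a ha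

/-- The conclusion of the total count. -/
def TotN (σ : ℕ) (η : ℝ) (M : ℕ) : Prop := ∀ (ι H : Type) [Fintype ι]
  [DecidableEq ι] [AddCommGroup H] (e : ι → H) (N : ℕ), Sys e N → ∀ (I : Finset ι)
  (V : ι → Finset ι), Loc I V σ → M ≤ I.card → ∀ (r : ℕ) (T : ℕ → TyD ι H),
  (∀ j < r, IsTy e I V (T j)) →
  (∀ j < r, ∀ j' < r, j ≠ j' → TLt I (T j) (T j') ∨ TLt I (T j') (T j)) →
  ∀ w : ℕ → ℝ, (∀ j < r, (w j ≤ (1 - 1 / 2 ^ (T j).φ) / 2 ^ ((T j).ψ + 1)) ∨
    ∃ k : TyD ι H, IsTy e I V k ∧ TLt I (T j) k ∧ w j ≤ 1 / 2 ^ (1 + k.φ + k.ψ)) →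
  2 ^ Fintype.card ι * (1 / 2 + ∑ j ∈ range r, w j - r * η) ≤ (N : ℝ)

theorem geo1 (l : ℕ) : ∑ j ∈ range l, (1 : ℝ) / 2 ^ (j + 1 + 2) = 1 / 4 - 1 / 2 ^ (l + 2) := by
  induction l with
  | zero => norm_num
  | succ l ih =>
    rw [Finset.sum_range_succ, ih]
    rw [pow_succ (2 : ℝ) (l + 2)]
    ring

/-- A path whose first type has `φ ≥ 2` and whose last type counts as much as all the types which
could follow. -/
theorem full2 [Fintype ι] (hC : S_conf) {σ M₀ : ℕ} {η : ℝ} (hM : TotN σ η M₀) {e : ι → H}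
    {N : ℕ} (hS : Sys e N) {I : Finset ι} {V : ι → Finset ι} (hV : Loc I V σ)
    (hI : 2 ≤ I.card) (hI₀ : M₀ ≤ I.card) {l : ℕ} {T : ℕ → TyD ι H}
    {y : ℕ → ι → ι} (h : Path e I V (l + 2) T y) (h0 : 2 ≤ (T 0).φ)
    (hlast : (T (l + 1)).ψ ≤ l ∨ ∃ k : TyD ι H, IsTy e I V k ∧ TLt I (T (l + 1)) k ∧
      1 + k.φ + k.ψ ≤ l + 2) :
    2 ^ Fintype.card ι * (9 / 8 - (l + 2) * η) ≤ (N : ℝ) := by
  have hne : I.Nonempty := Finset.card_pos.mp (by omega)
  have h1 := hM ι H e N hS I V hV hI₀ (l + 2) T h.ty (h.cmp hC hS hV hI)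
    (fun j => if j = 0 then 3 / 8 else if j = l + 1 then 1 / 2 ^ (l + 2) else 1 / 2 ^ (j + 2)) (by
    intro j hj
    by_cases hj0 : j = 0
    · subst hj0
      left
      simp only [if_true]
      exact wt0 h0 (h.ψ_le hne (by omega))
    · by_cases hjl : j = l + 1
      · subst hjl
        simp only [if_neg hj0, if_true]
        rcases hlast with h2 | ⟨k, hk1, hk2, hk3⟩
        · left
          exact wt_le (h.φ_pos hne (by omega)) h2
        · right
          refine ⟨k, hk1, hk2, ?_⟩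
          exact one_div_le_one_div_of_le (by positivity) (pow_le_pow_right₀ (by norm_num) hk3)
      · left
        simp only [if_neg hj0, if_neg hjl]
        exact wt_le (h.φ_pos hne hj) (h.ψ_le hne hj))
  rw [Finset.sum_range_succ, Finset.sum_range_succ'] at h1
  have h2 : ∑ j ∈ range l, (if j + 1 = 0 then (3 : ℝ) / 8 else
      if j + 1 = l + 1 then 1 / 2 ^ (l + 2) else 1 / 2 ^ (j + 1 + 2)) =
      1 / 4 - 1 / 2 ^ (l + 2) := by
    rw [← geo1 l]
    refine Finset.sum_congr rfl fun j hj => ?_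
    rw [Finset.mem_range] at hj
    rw [if_neg (by omega), if_neg (by omega)]
  rw [h2] at h1
  simp only [if_true, if_neg (show ¬ (l + 1 = 0) by omega)] at h1
  push_cast at h1
  have h3 : (1 : ℝ) / 2 + (1 / 4 - 1 / 2 ^ (l + 2) + 3 / 8 + 1 / 2 ^ (l + 2)) - (l + 2) * η =
      9 / 8 - (l + 2) * η := by ring
  rw [h3] at h1
  exact h1

/-- **One step.** -/
theorem step2 (hD : S_desc) (hC : S_conf) (hT : S_tot2) (l s : ℕ) :
    ∃ s' : ℕ, ∀ M : ℕ, ∃ M' : ℕ, ∀ (ι H : Type) [Fintype ι] [DecidableEq ι] [AddCommGroup H]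
    (e : ι → H) (N : ℕ), Sys e N → N ≤ 2 ^ Fintype.card ι →
    ∀ (I : Finset ι) (V : ι → Finset ι) (T : ℕ → TyD ι H) (y : ℕ → ι → ι), Loc I V s →
    Path e I V (l + 1) T y → 2 ≤ (T 0).φ → M' ≤ I.card →
    ∃ (I' : Finset ι) (V' : ι → Finset ι) (T' : ℕ → TyD ι H)
    (y' : ℕ → ι → ι), M ≤ I'.card ∧ Loc I' V' s' ∧ Path e I' V' (l + 2) T' y' ∧
      2 ≤ (T' 0).φ := by
  obtain ⟨s₁, hs₁⟩ := hD s
  obtain ⟨s₂, hs₂⟩ := hD s₁
  refine ⟨max s₁ s₂, fun M => ?_⟩
  obtain ⟨M₀, hM₀⟩ := hT s₁ (1 / (16 * (l + 2))) (by positivity)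
  obtain ⟨M₂, hM₂⟩ := hs₂ (max M 3)
  obtain ⟨M₁, hM₁⟩ := hs₁ (max (max M 3) (max M₀ M₂))
  refine ⟨M₁, ?_⟩
  intro ι H _ _ _ e N hS hN' I V T y hV hP hT0 hI
  have h2n : (0 : ℝ) < 2 ^ Fintype.card ι := by positivity
  have hNr : (N : ℝ) ≤ 2 ^ Fintype.card ι := by exact_mod_cast hN'
  obtain ⟨I₁, hI₁, hc₁, V₁, hV₁, hloc₁, k, hk, hkY⟩ :=
    hM₁ ι H e N hS hN' I V (Ys y (l + 1)) hV hP.inV hI
  have hP₁ : Path e I₁ V₁ (l + 1) T y := hP.mono hI₁ hV₁
  have c3 : 3 ≤ I₁.card := by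
    refine le_trans ?_ hc₁
    exact (le_max_right M 3).trans (le_max_left _ _)
  have cM : M ≤ I₁.card := by
    refine le_trans ?_ hc₁
    exact (le_max_left M 3).trans (le_max_left _ _)
  have cM₀ : M₀ ≤ I₁.card := by
    refine le_trans ?_ hc₁
    exact (le_max_left M₀ M₂).trans (le_max_right _ _)
  have cM₂ : M₂ ≤ I₁.card := by
    refine le_trans ?_ hc₁
    exact (le_max_right M₀ M₂).trans (le_max_right _ _)
  by_cases hφ : 0 < k.φ
  · obtain ⟨T', y', h, hTT⟩ := ext2 hP₁ hk hkY hφ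
    exact ⟨I₁, V₁, T', y', cM, hloc₁.mono (Finset.Subset.refl _) (le_max_left _ _), h,
      by rw [hTT 0 (by omega)]; exact hT0⟩
  · have hφ0 : k.φ = 0 := by omega
    have hΦ : ∀ a ∈ I₁, k.Φ a = ∅ := by
      intro a ha
      rw [← Finset.card_eq_zero, hk.kΦ a ha, hφ0]
    have hlast := hP₁.last hC hS hloc₁ (by omega) hk hkY
    by_cases ht2 : 2 ≤ (T l).φ
    · -- change the last point
      obtain ⟨y', hP', hYY, hne⟩ := hP₁.change ht2
      obtain ⟨I₂, hI₂, hc₂, V₂, hV₂, hloc₂, k₂, hk₂, hkY₂⟩ :=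
        hM₂ ι H e N hS hN' I₁ V₁ (Ys y' (l + 1)) hloc₁ hP'.inV cM₂
      have hP₂ : Path e I₂ V₂ (l + 1) T y' := hP'.mono hI₂ hV₂
      have cM' : M ≤ I₂.card := (le_max_left _ _).trans hc₂
      have c3' : 3 ≤ I₂.card := (le_max_right _ _).trans hc₂
      by_cases hφ₂ : 0 < k₂.φ
      · obtain ⟨T', y'', h, hTT⟩ := ext2 hP₂ hk₂ hkY₂ hφ₂
        exact ⟨I₂, V₂, T', y'', cM', hloc₂.mono (Finset.Subset.refl _) (le_max_right _ _), h,
          by rw [hTT 0 (by omega)]; exact hT0⟩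
      · exfalso
        have hΦ₂ : ∀ a ∈ I₂, k₂.Φ a = ∅ := by
          intro a ha
          rw [← Finset.card_eq_zero, hk₂.kΦ a ha]
          omega
        have hlast₂ := hP₂.last hC hS hloc₂ (by omega) hk₂ hkY₂
        have hk' : IsTy e I₂ V₂ k := hk.mono hI₂ hV₂
        obtain ⟨a, ha⟩ := Finset.card_pos.mp (show 0 < I₂.card by omega)
        rcases hC ι H e N hS I₂ V₂ _ hloc₂ (by omega) k k₂ hk' hk₂ (fun a ha => by
          rw [hΦ₂ a ha]; exact Finset.disjoint_empty_right _) with h1 | h1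
        · have h2 := hlast₂ a ha
          rw [← (h1 a ha).2] at h2
          have h3 := (hkY a (hI₂ ha)).1 h2
          rw [Ys_succ, Finset.mem_insert] at h3
          rcases h3 with h3 | h3
          · exact hne a (hI₂ ha) h3
          · have h4 := hP'.mem l (by omega) a (hI₂ ha)
            exact (Finset.disjoint_left.mp (hP₁.dis l (by omega) a (hI₂ ha))) h4 h3
        · apply h1 a ha
          rw [hΦ a (hI₂ ha)]
          exact Finset.disjoint_empty_left _
    · exfalso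
      cases l with
      | zero => exact ht2 hT0
      | succ l =>
      have hne : I₁.Nonempty := Finset.card_pos.mp (by omega)
      have ht1 : (T (l + 1)).φ = 1 := by
        have := hP₁.φ_pos hne (show l + 1 < l + 1 + 1 by omega)
        omega
      have hcon : ∀ hl : ((T (l + 1)).ψ ≤ l ∨ ∃ k : TyD ι H, IsTy e I₁ V₁ k ∧
          TLt I₁ (T (l + 1)) k ∧ 1 + k.φ + k.ψ ≤ l + 2), False := by
        intro hl
        have h1 := full2 hC (l := l) hM₀ hS hloc₁ (by omega) cM₀ hP₁ hT0 hl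
        have h2 : ((l : ℝ) + 2) * (1 / (16 * (((l + 1 : ℕ) : ℝ) + 2))) ≤ 1 / 16 := by
          push_cast
          rw [mul_one_div, div_le_div_iff₀ (by positivity) (by positivity)]
          nlinarith
        nlinarith
      have hlt : TLt I₁ (T (l + 1)) k := hP₁.lt_new hC hS hloc₁ (by omega) hk
        (fun a ha => (hkY a ha).2) (j := l + 1) (by omega) (by omega)
      have hψk : k.ψ = l + 2 := by
        by_contra hcon1
        obtain ⟨a, ha⟩ := hne
        have h1 := (Finset.card_le_card (hkY a ha).1).trans (Ys_card y (l + 1 + 1) a)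
        rw [hk.kΨ a ha] at h1
        exact hcon (Or.inr ⟨k, hk, hlt, by omega⟩)
      have hψt : (T (l + 1)).ψ = l + 1 := by
        by_contra hcon1
        have h1 := hP₁.ψ_le hne (show l + 1 < l + 1 + 1 by omega)
        exact hcon (Or.inl (by omega))
      have hΨk : ∀ a ∈ I₁, k.Ψ a = Ys y (l + 1 + 1) a := by
        intro a ha
        refine Finset.eq_of_subset_of_card_le (hkY a ha).1 ?_
        rw [hk.kΨ a ha, hψk]
        exact Ys_card y (l + 1 + 1) a
      have hΨt : ∀ a ∈ I₁, (T (l + 1)).Ψ a = Ys y (l + 1) a := by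
        intro a ha
        refine Finset.eq_of_subset_of_card_le (hP₁.sub (l + 1) (by omega) a ha) ?_
        rw [(hP₁.ty (l + 1) (by omega)).kΨ a ha, hψt]
        exact Ys_card y (l + 1) a
      have hΦt : ∀ a ∈ I₁, (T (l + 1)).Φ a = {y (l + 1) a} := by
        intro a ha
        have h1 : ((T (l + 1)).Φ a).card = 1 := by rw [(hP₁.ty (l + 1) (by omega)).kΦ a ha, ht1]
        obtain ⟨x, hx⟩ := Finset.card_eq_one.mp h1
        have h2 := hP₁.mem (l + 1) (by omega) a ha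
        rw [hx, Finset.mem_singleton] at h2
        rw [hx, h2]
      have hyn : ∀ a ∈ I₁, y (l + 1) a ∉ Ys y (l + 1) a := fun a ha =>
        (Finset.disjoint_left.mp (hP₁.dis (l + 1) (by omega) a ha))
          (hP₁.mem (l + 1) (by omega) a ha)
      have h2e : ∀ a ∈ I₁, 2 • e (y (l + 1) a) = k.c - (T (l + 1)).c := by
        intro a ha
        have h1 := hk.eq a ha
        have h2 := (hP₁.ty (l + 1) (by omega)).eq a ha
        rw [hΦ a ha, hΨk a ha, Ys_succ, sg_insert e (hyn a ha)] at h1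
        rw [hΦt a ha, hΨt a ha] at h2
        have e0 : sg e (∅ : Finset ι) = 0 := by unfold sg; simp
        have e1 : sg e ({y (l + 1) a} : Finset ι) = e (y (l + 1) a) := by unfold sg; simp
        rw [e0, add_zero] at h1
        rw [e1] at h2
        have h3 : (T (l + 1)).c = 2 • e a + sg e (Ys y (l + 1) a) - e (y (l + 1) a) := by
          rw [h2]; abel
        rw [← h1, h3, two_smul, two_smul]
        abel
      have hinj : ∀ a ∈ I₁, ∀ b ∈ I₁, a ≠ b → y (l + 1) a ≠ y (l + 1) b := by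
        intro a ha b hb hab e1
        have h1 := (hP₁.ty (l + 1) (by omega)).sΦ a ha (hP₁.mem (l + 1) (by omega) a ha)
        have h2 := (hP₁.ty (l + 1) (by omega)).sΦ b hb (hP₁.mem (l + 1) (by omega) b hb)
        rw [← e1] at h2
        exact (Finset.disjoint_left.mp (hloc₁.disj a ha b hb hab)) h1 h2
      obtain ⟨a, b, c, ha, hb, hc, hab, hac, hbc⟩ := Finset.two_lt_card_iff.mp
        (show 2 < I₁.card by omega)
      rcases hS.tor (y (l + 1) a) (y (l + 1) b) (y (l + 1) c) (by rw [h2e a ha, h2e b hb])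
        (by rw [h2e a ha, h2e c hc]) with h | h | h
      · exact hinj a ha b hb hab h
      · exact hinj a ha c hc hac h
      · exact hinj b hb c hc hbc h

end XTHREE

open XTHREE JMain in
theorem THREE_pf (h1 : S_desc) (h2 : S_conf) (h3 : S_tot2) (h4 : S_sysg) : S_three := by
  obtain ⟨s₁, hs₁⟩ := h1 1
  obtain ⟨s₂, hs₂⟩ := step2 h1 h2 h3 0 s₁
  obtain ⟨s₃, hs₃⟩ := step2 h1 h2 h3 1 s₂
  obtain ⟨M₀, hM₀⟩ := h3 s₃ (1 / 64) (by norm_num)
  obtain ⟨M₃, hM₃⟩ := hs₃ (max M₀ 2)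
  obtain ⟨M₂, hM₂⟩ := hs₂ M₃
  obtain ⟨M₁, hM₁⟩ := hs₁ (max M₂ 3)
  refine ⟨M₁, ?_⟩
  intro ι _ _ N a hN hV hN2 I hI
  have hS := h4 ι N a hN hV
  set e : ι → ℤ × ZMod N := fun i => ((1 : ℤ), a i) with he
  obtain ⟨I₁, hI₁, hc₁, V₁, -, hloc₁, t, ht, htY⟩ :=
    hM₁ ι (ℤ × ZMod N) e N hS hN2 I (fun a => {a}) (fun _ => ∅)
      ⟨fun a _ => Finset.mem_singleton_self a, fun a _ => (Finset.card_singleton a).le,
        fun a _ b _ hab => Finset.disjoint_singleton.mpr hab⟩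
      (fun a _ => ⟨Finset.empty_subset _, Finset.notMem_empty _⟩) hI
  have c3 : 3 ≤ I₁.card := (le_max_right _ _).trans hc₁
  have cM₂ : M₂ ≤ I₁.card := (le_max_left _ _).trans hc₁
  have hΨ : ∀ i ∈ I₁, t.Ψ i = ∅ := fun i hi => Finset.subset_empty.mp (htY i hi).1
  have e0 : sg e (∅ : Finset ι) = 0 := by unfold sg; simp
  by_cases hφ : 0 < t.φ
  · by_cases hφ1 : t.φ = 1
    · refine ⟨t.c.2, c3.trans (Finset.card_le_card ?_)⟩
      intro i hi
      rw [Finset.mem_inter, mem_CT]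
      refine ⟨hI₁ hi, ?_⟩
      have k1 : (t.Φ i).card = 1 := by rw [ht.kΦ i hi, hφ1]
      obtain ⟨x, hx⟩ := Finset.card_eq_one.mp k1
      refine ⟨x, ?_⟩
      have k2 := ht.eq i hi
      have e1 : sg e ({x} : Finset ι) = e x := by unfold sg; simp
      rw [hΨ i hi, hx, e0, add_zero, e1] at k2
      have k3 := congrArg Prod.snd k2
      rw [Prod.smul_snd, Prod.snd_add, two_smul] at k3
      exact k3
    · exfalso
      have hex : ∀ i ∈ I₁, ∃ x, x ∈ t.Φ i := by
        intro i hi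
        have : 0 < (t.Φ i).card := by rw [ht.kΦ i hi]; exact hφ
        exact Finset.card_pos.mp this
      have hPath : ∃ y, Path e I₁ V₁ 1 (fun _ => t) y := by
        classical
        refine ⟨fun _ i => if hi : i ∈ I₁ then (hex i hi).choose else i, ?_, ?_, ?_, ?_⟩
        · intro j _
          exact ht
        · intro j _ i hi
          rw [dif_pos hi]
          exact (hex i hi).choose_spec
        · intro j hj i hi
          rw [hΨ i hi]
          exact Finset.empty_subset _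
        · intro j hj i hi
          have hj0 : j = 0 := by omega
          subst hj0
          unfold Ys
          simp
      obtain ⟨y, hP⟩ := hPath
      obtain ⟨I₂, V₂, T₂, y₂, hI₂, hV₂, hP₂, hT₂⟩ :=
        hM₂ ι (ℤ × ZMod N) e N hS hN2 I₁ V₁ (fun _ => t) y hloc₁ hP (by omega) cM₂
      obtain ⟨I₃, V₃, T₃, y₃, hI₃, hV₃, hP₃, hT₃⟩ :=
        hM₃ ι (ℤ × ZMod N) e N hS hN2 I₂ V₂ T₂ y₂ hV₂ hP₂ hT₂ hI₂
      have c2 : 2 ≤ I₃.card := (le_max_right _ _).trans hI₃
      have hne : I₃.Nonempty := Finset.card_pos.mp (by omega)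
      have k1 := hM₀ ι (ℤ × ZMod N) e N hS I₃ V₃ hV₃ ((le_max_left _ _).trans hI₃) 3 T₃ hP₃.ty
        (hP₃.cmp h2 hS hV₃ c2) (fun j => if j = 0 then 3 / 8 else 1 / 2 ^ (j + 2)) (by
          intro j hj
          left
          by_cases hj0 : j = 0
          · subst hj0
            simp only [if_true]
            exact wt0 hT₃ (hP₃.ψ_le hne (by omega))
          · simp only [if_neg hj0]
            exact wt_le (hP₃.φ_pos hne hj) (hP₃.ψ_le hne hj))
      have k2 : ∑ j ∈ range 3, (if j = 0 then (3 : ℝ) / 8 else 1 / 2 ^ (j + 2)) = 9 / 16 := by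
        rw [Finset.sum_range_succ, Finset.sum_range_succ, Finset.sum_range_succ]
        norm_num
      rw [k2] at k1
      have k3 : (N : ℝ) ≤ 2 ^ Fintype.card ι := by exact_mod_cast hN2
      have k4 : (0 : ℝ) < 2 ^ Fintype.card ι := by positivity
      norm_num at k1
      nlinarith
  · exfalso
    have hΦ : ∀ i ∈ I₁, t.Φ i = ∅ := by
      intro i hi
      rw [← Finset.card_eq_zero, ht.kΦ i hi]
      omega
    have h2e : ∀ i ∈ I₁, 2 • e i = t.c := by
      intro i hi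
      have k1 := ht.eq i hi
      rw [hΦ i hi, hΨ i hi] at k1
      exact add_right_cancel k1
    obtain ⟨i, j, k, hi, hj, hk, hij, hik, hjk⟩ := Finset.two_lt_card_iff.mp
      (show 2 < I₁.card by omega)
    rcases hS.tor i j k (by rw [h2e i hi, h2e j hj]) (by rw [h2e i hi, h2e k hk]) with h | h | h
    · exact hij h
    · exact hik h
    · exact hjk h

end Pool.Agent.Work.MP_2a6590_nt.XL
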