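import Pool.Agent.Work.MP_2a6590_nt.XL.Stmts

/-!
# MP_2a6590_nt, block XL, item TRANS: the translation of the good sets
-/

set_option autoImplicit false

namespace Pool.Agent.Work.MP_2a6590_nt.XL

open Finset Pool.Agent.Work.MP_2a6590_nt.H97

/-- TRANS. -/
theorem TRANS_pf (h1 : S_low) : S_trans := by
  classical
  intro ι _ _ N b hN hV hlt θ
  obtain ⟨hinj, hW⟩ := h1 ι N b hN hV
  set P : Finset ι → Finset ι → Prop := fun T T' => T' ∉ Bad b ∧ sg b T' = sg b T + θ with hP
  set U : Finset (Finset ι) := univ.filter fun T => T ∉ Bad b with hU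
  set G : Finset (Finset ι) := U.filter fun T => ∃ T', P T T' with hG
  set X : Finset (Finset ι) := U.filter fun T => ¬ ∃ T', P T T' with hX
  set st : Finset ι → Finset ι := fun T => if h : ∃ T', P T T' then h.choose else ∅ with hst
  have hstP : ∀ T ∈ G, P T (st T) := by
    intro T hT
    rw [hG, Finset.mem_filter] at hT
    have h := hT.2
    have e : st T = h.choose := by
      rw [hst]
      exact dif_pos h
    rw [e]
    exact h.choose_spec
  have hgood : ∀ T ∈ U, T ∉ Bad b := fun T hT => (Finset.mem_filter.1 hT).2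
  have hGU : ∀ T ∈ G, T ∈ U := fun T hT => (Finset.mem_filter.1 hT).1
  have hsti : ∀ T ∈ G, ∀ T' ∈ G, st T = st T' → T = T' := by
    intro T hT T' hT' e
    have h2 := (hstP T hT).2
    have h3 := (hstP T' hT').2
    rw [e, h3] at h2
    exact hinj T T' (hgood T (hGU T hT)) (hgood T' (hGU T' hT')) (add_right_cancel h2).symm
  -- cardinalities
  have hXW : X.card + 2 ^ Fintype.card ι ≤ N + (Bad b).card := by
    have h4 := hW (X.image fun T => sg b T + θ) (by
      intro g hg T hT he
      rw [Finset.mem_image] at hg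
      obtain ⟨T0, hT0, rfl⟩ := hg
      rw [hX, Finset.mem_filter] at hT0
      exact hT0.2 ⟨T, hT, he⟩)
    rwa [Finset.card_image_of_injOn] at h4
    intro T hT T' hT' e
    rw [Finset.mem_coe, hX, Finset.mem_filter] at hT hT'
    exact hinj T T' (hgood T hT.1) (hgood T' hT'.1) (add_right_cancel e)
  have hc1 : G.card + X.card = U.card := Finset.card_filter_add_card_filter_not _
  have hc2 : U.card + (Bad b).card = 2 ^ Fintype.card ι := by
    have h5 : (univ.filter fun T : Finset ι => T ∈ Bad b) = Bad b := by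
      ext T
      simp
    have h6 := Finset.card_filter_add_card_filter_not (s := (univ : Finset (Finset ι)))
      (fun T => T ∈ Bad b)
    rw [h5, Finset.card_univ, Fintype.card_finset] at h6
    rw [hU]
    omega
  have hG2 : 2 ^ Fintype.card ι ≤ G.card + 2 * (Bad b).card := by omega
  refine ⟨G, st, fun T hT => (hstP T hT).2, hsti, hG2, ?_⟩
  -- the sum inequality
  have hs1 : ∑ T ∈ G, T.card ≤ ∑ T : Finset ι, T.card :=
    Finset.sum_le_sum_of_subset (Finset.subset_univ _)
  have hs2 : ∑ T ∈ G.image st, T.card = ∑ T ∈ G, (st T).card :=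
    Finset.sum_image fun T hT T' hT' e => hsti T hT T' hT' e
  have hs3 : ∑ T ∈ G.image st, T.card + ∑ T ∈ (G.image st)ᶜ, T.card =
      ∑ T : Finset ι, T.card := Finset.sum_add_sum_compl _ _
  have hs4 : ∑ T ∈ (G.image st)ᶜ, T.card ≤ (G.image st)ᶜ.card * Fintype.card ι := by
    rw [← smul_eq_mul]
    exact Finset.sum_le_card_nsmul _ _ _ fun T _ => Finset.card_le_univ T
  have hs5 : (G.image st).card = G.card :=
    Finset.card_image_of_injOn fun T hT T' hT' e => hsti T hT T' hT' e
  have hs6 : (G.image st)ᶜ.card ≤ 2 * (Bad b).card := by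
    rw [Finset.card_compl, hs5, Fintype.card_finset]
    omega
  have hs7 : (G.image st)ᶜ.card * Fintype.card ι ≤ 2 * Fintype.card ι * (Bad b).card := by
    calc (G.image st)ᶜ.card * Fintype.card ι ≤ 2 * (Bad b).card * Fintype.card ι :=
          Nat.mul_le_mul_right _ hs6
      _ = 2 * Fintype.card ι * (Bad b).card := by ring
  omega

end Pool.Agent.Work.MP_2a6590_nt.XL
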