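import Pool.Agent.Work.MP_2a6590_nt.XL.Stmts

/-!
# MP_2a6590_nt, block XL, item UNI
-/

set_option autoImplicit false

namespace Pool.Agent.Work.MP_2a6590_nt.XL

open Finset Pool.Agent.Work.MP_2a6590_nt.H97

namespace XUNI

/-- The counting step: `|pos| ≤ D + n |neg|`. -/
theorem pos_le {ι : Type} [Fintype ι] [DecidableEq ι] (𝒢 : Finset (Finset ι))
    (st : Finset ι → Finset ι) (D : ℕ)
    (h : ∑ T ∈ 𝒢, T.card ≤ ∑ T ∈ 𝒢, (st T).card + D) :
    (𝒢.filter fun T => (st T).card < T.card).card ≤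
      D + Fintype.card ι * (𝒢.filter fun T => T.card < (st T).card).card := by
  have key : ∀ T ∈ 𝒢, (st T).card + (if (st T).card < T.card then 1 else 0) ≤
      T.card + Fintype.card ι * (if T.card < (st T).card then 1 else 0) := by
    intro T _
    have h1 : (st T).card ≤ Fintype.card ι := Finset.card_le_univ _
    split_ifs <;> omega
  have hs := Finset.sum_le_sum key
  rw [Finset.sum_add_distrib, Finset.sum_add_distrib, ← Finset.mul_sum] at hs
  rw [Finset.card_filter, Finset.card_filter]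
  omega

/-- The three parts. -/
theorem split_card {ι : Type} [Fintype ι] [DecidableEq ι] (𝒢 : Finset (Finset ι))
    (st : Finset ι → Finset ι) :
    𝒢.card ≤ (𝒢.filter fun T => T.card < (st T).card).card +
      (𝒢.filter fun T => (st T).card < T.card).card +
      (𝒢.filter fun T => (st T).card = T.card).card := by
  rw [Finset.card_filter, Finset.card_filter, Finset.card_filter, Finset.card_eq_sum_ones,
    ← Finset.sum_add_distrib, ← Finset.sum_add_distrib]
  apply Finset.sum_le_sum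
  intro T _
  split_ifs <;> omega

/-- The arithmetic. -/
theorem arith (n X β τ g neg pos zero D : ℕ) (hn : 1 ≤ n) (hX : 1 ≤ X) (hDX : 32 * n * D ≤ X)
    (hτ : 2 ^ 12 * (n + 1) ^ 2 * τ ≤ X) (hβ : 2 ^ 12 * (n + 1) * β ≤ X)
    (hg : X ≤ g + 2 * β) (hsp : g ≤ neg + pos + zero) (hpos : pos ≤ 2 * n * β + n * neg)
    (hneg : neg ≤ D + τ) (hzero : 2 * zero ≤ X) : False := by
  have e1 : n * neg ≤ n * D + n * τ := by
    rw [← Nat.mul_add]; exact Nat.mul_le_mul_left n hneg
  have e2 : neg ≤ n * neg := Nat.le_mul_of_pos_left _ hn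
  have e3 : 2 ^ 12 * (n * τ) ≤ X := by
    refine le_trans ?_ hτ
    have : n ≤ (n + 1) ^ 2 := by nlinarith
    calc 2 ^ 12 * (n * τ) = 2 ^ 12 * n * τ := by ring
      _ ≤ 2 ^ 12 * (n + 1) ^ 2 * τ := by gcongr
  have e4 : 2 ^ 12 * (n * β) ≤ X := by
    refine le_trans ?_ hβ
    calc 2 ^ 12 * (n * β) = 2 ^ 12 * n * β := by ring
      _ ≤ 2 ^ 12 * (n + 1) * β := by gcongr; omega
  have e5 : β ≤ n * β := Nat.le_mul_of_pos_left _ hn
  have e6 : 32 * (n * D) ≤ X := by rw [← Nat.mul_assoc]; exact hDX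
  have e7 : pos ≤ 2 * (n * β) + n * neg := by rw [← Nat.mul_assoc]; exact hpos
  generalize n * neg = a at *
  generalize n * D = d at *
  generalize n * τ = t at *
  generalize n * β = c at *
  omega

end XUNI

theorem UNI_pf (h1 : S_bad) (h2 : S_tail) (h3 : S_trans) (h4 : S_zero) (h5 : S_neg) : S_uni := by
  intro K
  obtain ⟨n1, hn1⟩ := h1 K
  obtain ⟨n2, hn2⟩ := h2 K
  refine ⟨n1 + n2 + 1, ?_⟩
  intro ι _ _ N b hN hV hn hlt hK θ hθ
  by_contra hne
  have hB := hn1 ι N b hV (by omega) hK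
  have hT := hn2 ι (by omega) (FF b) hK
  obtain ⟨𝒢, st, hsum, hinj, hcard, hss⟩ := h3 ι N b hN hV hlt θ
  have hneg := h5 ι N b hV θ 𝒢 st hsum hinj
  have hz := h4 ι N b hV θ hne (𝒢.filter fun T => (st T).card = T.card) st (by
    intro T hT
    rw [Finset.mem_filter] at hT
    exact ⟨hsum T hT.1, hT.2⟩)
  have hpos := XUNI.pos_le 𝒢 st _ hss
  have hsp := XUNI.split_card 𝒢 st
  have hf : (FT θ b).card ≤ Fintype.card ι := Finset.card_le_univ _
  have hD : 32 * Fintype.card ι * 2 ^ (Fintype.card ι - (FT θ b).card) ≤ 2 ^ Fintype.card ι := by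
    calc 32 * Fintype.card ι * 2 ^ (Fintype.card ι - (FT θ b).card)
        ≤ 2 ^ (FT θ b).card * 2 ^ (Fintype.card ι - (FT θ b).card) :=
          Nat.mul_le_mul_right _ hθ
      _ = 2 ^ Fintype.card ι := by rw [← pow_add]; congr 1; omega
  exact XUNI.arith (Fintype.card ι) (2 ^ Fintype.card ι) (Bad b).card (TL (FF b)) 𝒢.card
    _ _ _ _ (by omega) Nat.one_le_two_pow hD hT hB hcard hsp hpos hneg hz

end Pool.Agent.Work.MP_2a6590_nt.XL
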