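import Pool.Agent.Work.MP_2a6590_nt.XL.Stmts

/-!
# Item ZERO: translations which preserve the cardinality
-/

set_option autoImplicit false

namespace Pool.Agent.Work.MP_2a6590_nt.XL

open Finset Pool.Agent.Work.MP_2a6590_nt.H97

namespace XZERO

section

variable {ι : Type} [Fintype ι] [DecidableEq ι] {N : ℕ}

/-- The exchange of `T`. -/
def pr (st : Finset ι → Finset ι) (T : Finset ι) : Finset ι × Finset ι := (st T \ T, T \ st T)

theorem cross {b : ι → ZMod N} (hV : Vd b) {θ : ZMod N} {F : Finset (Finset ι × Finset ι)}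
    (h1 : ∀ p ∈ F, Disjoint p.1 p.2) (h2 : ∀ p ∈ F, p.1.card = p.2.card)
    (h3 : ∀ p ∈ F, sg b p.1 = sg b p.2 + θ) : Cross F := by
  refine ⟨h1, ?_⟩
  intro p hp q hq hne
  by_contra hcon
  rw [Finset.not_nonempty_iff_eq_empty] at hcon
  have dp := h1 p hp
  have dq := h1 q hq
  have cp := h2 p hp
  have cq := h2 q hq
  have hd : Disjoint p.1 q.2 := by
    rw [Finset.disjoint_iff_inter_eq_empty]
    exact hcon
  have hs : sg b p.2 + sg b q.1 = sg b p.1 + sg b q.2 := by
    rw [h3 p hp, h3 q hq]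
    ring
  have h := uniq hV (p.1 ∪ q.2) (ind p.2 + ind q.1) (by
    simp only [Pi.add_apply]
    rw [Finset.sum_add_distrib, sum_ind, sum_ind, Finset.card_union_of_disjoint hd]
    omega) (by
    rw [val_add, val_ind, val_ind, sg_union b hd, hs])
  have key : ∀ x, ind p.2 x + ind q.1 x = ind (p.1 ∪ q.2) x := fun x => by
    have := congrFun h x
    rwa [Pi.add_apply] at this
  have s1 : p.1 ⊆ q.1 := by
    intro x hx
    have h1 := key x
    rw [ind_mem (Finset.mem_union_left _ hx),
      ind_notMem ((Finset.disjoint_left.mp dp) hx)] at h1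
    by_contra hq1
    rw [ind_notMem hq1] at h1
    omega
  have s2 : q.2 ⊆ p.2 := by
    intro x hx
    have h1 := key x
    rw [ind_mem (Finset.mem_union_right _ hx),
      ind_notMem (fun h2 => (Finset.disjoint_left.mp dq) h2 hx)] at h1
    by_contra hp2
    rw [ind_notMem hp2] at h1
    omega
  have s3 : q.1 ⊆ p.1 := by
    intro x hx
    have h1 := key x
    have hx2 : x ∉ q.2 := (Finset.disjoint_left.mp dq) hx
    by_contra hp1
    have hx3 : x ∉ p.1 ∪ q.2 := by
      rw [Finset.mem_union]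
      rintro (h4 | h4) <;> contradiction
    rw [ind_mem hx, ind_notMem hx3] at h1
    omega
  have s4 : p.2 ⊆ q.2 := by
    intro x hx
    have h1 := key x
    have hx1 : x ∉ p.1 := fun h2 => (Finset.disjoint_left.mp dp) h2 hx
    by_contra hq2
    have hx3 : x ∉ p.1 ∪ q.2 := by
      rw [Finset.mem_union]
      rintro (h4 | h4) <;> contradiction
    rw [ind_mem hx, ind_notMem hx3] at h1
    omega
  exact hne (Prod.ext (Finset.Subset.antisymm s1 s3) (Finset.Subset.antisymm s4 s2))

theorem card_eq {S T : Finset ι} (h : S.card = T.card) : (S \ T).card = (T \ S).card := by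
  have h1 := Finset.card_sdiff_add_card_inter S T
  have h2 := Finset.card_sdiff_add_card_inter T S
  rw [Finset.inter_comm T S] at h2
  omega

theorem sg_eq (b : ι → ZMod N) (θ : ZMod N) {S T : Finset ι} (h : sg b S = sg b T + θ) :
    sg b (S \ T) = sg b (T \ S) + θ := by
  have h1 : sg b S = sg b (S \ T) + sg b (S ∩ T) := by
    rw [← sg_union b (Finset.disjoint_sdiff_inter S T), Finset.sdiff_union_inter]
  have h2 : sg b T = sg b (T \ S) + sg b (S ∩ T) := by
    rw [Finset.inter_comm S T, ← sg_union b (Finset.disjoint_sdiff_inter T S),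
      Finset.sdiff_union_inter]
  rw [h1, h2] at h
  linear_combination h

/-- The sets with a given exchange. -/
theorem fiber (st : Finset ι → Finset ι) (𝒢 : Finset (Finset ι)) (p : Finset ι × Finset ι)
    (h1 : Disjoint p.1 p.2) (h2 : p.1.card = p.2.card) :
    ((𝒢.filter fun T => pr st T = p).card : ℚ) ≤ 2 ^ Fintype.card ι * dw p := by
  have hsub : (𝒢.filter fun T => pr st T = p) ⊆ Finset.Icc p.2 p.1ᶜ := by
    intro T hT
    rw [Finset.mem_filter] at hT
    rw [Finset.mem_Icc]
    constructor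
    · rw [← hT.2]
      exact Finset.sdiff_subset
    · intro x hx
      rw [Finset.mem_compl, ← hT.2]
      intro h
      exact (Finset.mem_sdiff.mp h).2 hx
  have hle := Finset.card_le_card hsub
  have h3 : p.2 ⊆ p.1ᶜ := by
    intro x hx
    rw [Finset.mem_compl]
    exact fun h => (Finset.disjoint_left.mp h1) h hx
  rw [Finset.card_Icc_finset h3, Finset.card_compl] at hle
  have h4 : p.1.card + p.2.card ≤ Fintype.card ι := by
    rw [← Finset.card_union_of_disjoint h1]
    exact Finset.card_le_univ _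
  have h5 : (2 : ℚ) ^ (Fintype.card ι - p.1.card - p.2.card) = 2 ^ Fintype.card ι * dw p := by
    unfold dw
    have h6 : Fintype.card ι = (Fintype.card ι - p.1.card - p.2.card) + 2 * p.1.card := by omega
    have h7 : (2 : ℚ) ^ Fintype.card ι =
        2 ^ (Fintype.card ι - p.1.card - p.2.card) * 4 ^ p.1.card := by
      conv_lhs => rw [h6]
      rw [pow_add, pow_mul]
      norm_num
    rw [h7, mul_assoc, ← mul_pow]
    norm_num
  rw [← h5]
  exact_mod_cast hle

end

end XZERO

open XZERO in
theorem ZERO_pf : S_zero := by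
  intro ι _ _ N b hV θ hθ 𝒢 st hst
  set F := 𝒢.image (pr st) with hF
  have h1 : ∀ p ∈ F, Disjoint p.1 p.2 := by
    intro p hp
    rw [hF, Finset.mem_image] at hp
    obtain ⟨T, -, rfl⟩ := hp
    exact Finset.disjoint_of_subset_right Finset.sdiff_subset Finset.sdiff_disjoint
  have h2 : ∀ p ∈ F, p.1.card = p.2.card := by
    intro p hp
    rw [hF, Finset.mem_image] at hp
    obtain ⟨T, hT, rfl⟩ := hp
    exact card_eq (hst T hT).2
  have h3 : ∀ p ∈ F, sg b p.1 = sg b p.2 + θ := by
    intro p hp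
    rw [hF, Finset.mem_image] at hp
    obtain ⟨T, hT, rfl⟩ := hp
    exact sg_eq b θ (hst T hT).1
  have h4 : ∀ p ∈ F, 1 ≤ p.1.card := by
    intro p hp
    by_contra hcon
    have h5 : p.1.card = 0 := by omega
    have h6 : p.2.card = 0 := by rw [← h2 p hp]; exact h5
    rw [Finset.card_eq_zero] at h5 h6
    have h7 := h3 p hp
    rw [h5, h6] at h7
    exact hθ (by simpa using h7.symm)
  have h5 := dyadic_half F (cross hV h1 h2 h3) h2 h4
  have h6 : (𝒢.card : ℚ) = ∑ p ∈ F, ((𝒢.filter fun T => pr st T = p).card : ℚ) := by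
    rw [Finset.card_eq_sum_card_image (pr st) 𝒢]
    push_cast
    rfl
  have h7 : (𝒢.card : ℚ) ≤ 2 ^ Fintype.card ι * (1 / 2) := by
    rw [h6]
    calc ∑ p ∈ F, ((𝒢.filter fun T => pr st T = p).card : ℚ) ≤
        ∑ p ∈ F, 2 ^ Fintype.card ι * dw p :=
          Finset.sum_le_sum fun p hp => fiber st 𝒢 p (h1 p hp) (h2 p hp)
      _ = 2 ^ Fintype.card ι * ∑ p ∈ F, dw p := by rw [Finset.mul_sum]
      _ ≤ 2 ^ Fintype.card ι * (1 / 2) := mul_le_mul_of_nonneg_left h5 (by positivity)
  have h8 : (2 : ℚ) * 𝒢.card ≤ 2 ^ Fintype.card ι := by linarith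
  exact_mod_cast h8

end Pool.Agent.Work.MP_2a6590_nt.XL
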