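import Pool.Agent.Work.MP_2a6590_nt.H97.Tail

/-!
# MP_2a6590_nt, block XL: the exact law for large `n` (definitions)

`Vd`, `val`, `sg`, `ind`, `un` are those of `H97/Basic.lean`: `val b m = ∑ m i • b i`,
`sg b T = ∑ i ∈ T, b i`, and `H97.uniq : Vd b → ∑ m = |T| → val b m = sg b T → m = ind T`.
-/

set_option autoImplicit false

namespace Pool.Agent.Work.MP_2a6590_nt.XL

open Finset Pool.Agent.Work.MP_2a6590_nt.H97

section

variable {ι : Type} [Fintype ι] [DecidableEq ι] {N : ℕ}

/-- The class of `θ`: the indices `i` with `2 b_i - θ` in the system. -/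
noncomputable def CT (θ : ZMod N) (b : ι → ZMod N) : Finset ι :=
  open Classical in univ.filter fun i => ∃ j, b i + b i = θ + b j

/-- The indices `j` with `θ + b_j` the double of an element. -/
noncomputable def FT (θ : ZMod N) (b : ι → ZMod N) : Finset ι :=
  open Classical in univ.filter fun j => ∃ i, b i + b i = θ + b j

/-- The indices whose double belongs to the system. -/
noncomputable def CC (b : ι → ZMod N) : Finset ι :=
  open Classical in univ.filter fun i => ∃ j, b i + b i = b j

/-- The indices of the elements which are doubles. -/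
noncomputable def FF (b : ι → ZMod N) : Finset ι :=
  open Classical in univ.filter fun j => ∃ i, b i + b i = b j

/-- The bad sets: there is a smaller set with the same sum. -/
noncomputable def Bad (b : ι → ZMod N) : Finset (Finset ι) :=
  open Classical in univ.filter fun T => ∃ T' : Finset ι, T'.card < T.card ∧ sg b T' = sg b T

/-- The translated system. -/
def sh (c : ZMod N) (a : ι → ZMod N) : ι → ZMod N := fun i => a i - c

/-- The sets containing at least three quarters of `F`. -/
def A1 (F : Finset ι) : Finset (Finset ι) := univ.filter fun T => 4 * (F \ T).card ≤ F.card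

/-- The large sets. -/
def A2 (F : Finset ι) : Finset (Finset ι) :=
  univ.filter fun T => 4 * Fintype.card ι + F.card ≤ 8 * T.card

/-- The small sets. -/
def A3 (F : Finset ι) : Finset (Finset ι) :=
  univ.filter fun T => 8 * T.card + F.card ≤ 4 * Fintype.card ι

/-- The number of untypical sets. -/
def TL (F : Finset ι) : ℕ := (A1 F).card + (A2 F).card + (A3 F).card

omit [DecidableEq ι] in
theorem mem_CT {θ : ZMod N} {b : ι → ZMod N} {i : ι} : i ∈ CT θ b ↔ ∃ j, b i + b i = θ + b j := by
  unfold CT
  simp

omit [DecidableEq ι] in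
theorem mem_FT {θ : ZMod N} {b : ι → ZMod N} {j : ι} : j ∈ FT θ b ↔ ∃ i, b i + b i = θ + b j := by
  unfold FT
  simp

omit [DecidableEq ι] in
theorem mem_CC {b : ι → ZMod N} {i : ι} : i ∈ CC b ↔ ∃ j, b i + b i = b j := by
  unfold CC
  simp

omit [DecidableEq ι] in
theorem mem_FF {b : ι → ZMod N} {j : ι} : j ∈ FF b ↔ ∃ i, b i + b i = b j := by
  unfold FF
  simp

omit [DecidableEq ι] in
theorem CT_zero (b : ι → ZMod N) : CT 0 b = CC b := by
  ext i
  rw [mem_CT, mem_CC]
  simp only [zero_add]

omit [DecidableEq ι] in
theorem FT_zero (b : ι → ZMod N) : FT 0 b = FF b := by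
  ext i
  rw [mem_FT, mem_FF]
  simp only [zero_add]

omit [DecidableEq ι] in
theorem mem_Bad {b : ι → ZMod N} {T : Finset ι} :
    T ∈ Bad b ↔ ∃ T' : Finset ι, T'.card < T.card ∧ sg b T' = sg b T := by
  unfold Bad
  simp

omit [DecidableEq ι] in
theorem CT_sh (c c' : ZMod N) (a : ι → ZMod N) : CT (c' - c) (sh c a) = CT c' a := by
  ext i
  rw [mem_CT, mem_CT]
  unfold sh
  constructor
  · rintro ⟨j, h⟩
    exact ⟨j, by linear_combination h⟩
  · rintro ⟨j, h⟩
    exact ⟨j, by linear_combination h⟩

omit [DecidableEq ι] in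
theorem CC_sh (c : ZMod N) (a : ι → ZMod N) : CC (sh c a) = CT c a := by
  rw [← CT_zero, ← CT_sh c c a, sub_self]

omit [DecidableEq ι] in
theorem Vd_sh {a : ι → ZMod N} (h : Vd a) (c : ZMod N) : Vd (sh c a) := by
  intro m hm hv
  refine h m hm ?_
  have e1 : val (sh c a) m = val a m - (∑ i, m i) • c := by
    unfold H97.val sh
    rw [Finset.sum_smul, ← Finset.sum_sub_distrib]
    exact Finset.sum_congr rfl fun i _ => smul_sub _ _ _
  have e2 : sg (sh c a) univ = sg a univ - (Fintype.card ι) • c := by
    unfold H97.sg sh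
    rw [Finset.sum_sub_distrib, Finset.sum_const, Finset.card_univ]
  rw [e1, e2, hm] at hv
  exact sub_left_injective hv

theorem Vd_inj {b : ι → ZMod N} (h : Vd b) : Function.Injective b := by
  intro i j hij
  have h1 := sg_inj h (S := {i}) (T := {j}) (by rw [Finset.card_singleton, Finset.card_singleton])
    (by unfold H97.sg; rw [Finset.sum_singleton, Finset.sum_singleton, hij])
  exact Finset.singleton_injective h1

end

end Pool.Agent.Work.MP_2a6590_nt.XL
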