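import Pool.Agent.Work.MP_2a6590_nt.XL.Stmts

/-!
# Item LONG
-/

set_option autoImplicit false

namespace Pool.Agent.Work.MP_2a6590_nt.XL

open Finset Pool.Agent.Work.MP_2a6590_nt.H97

namespace XLONG

variable {ι : Type} [Fintype ι] [DecidableEq ι] {N : ℕ}

/-- The ends of the paths of length `j`. -/
noncomputable def Ej (b : ι → ZMod N) : ℕ → Finset ι
  | 0 => univ
  | j + 1 => open Classical in univ.filter fun y => ∃ z ∈ Ej b j, b z + b z = b y

omit [DecidableEq ι] in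
theorem mem_succ {b : ι → ZMod N} {j : ℕ} {y : ι} :
    y ∈ Ej b (j + 1) ↔ ∃ z ∈ Ej b j, b z + b z = b y := by
  rw [Ej]
  simp

omit [DecidableEq ι] in
theorem mem_zero {b : ι → ZMod N} {y : ι} : y ∈ Ej b 0 := by
  rw [Ej]
  exact mem_univ y

omit [DecidableEq ι] in
theorem start (b : ι → ZMod N) : ∀ (j : ℕ) (y : ι), y ∈ Ej b j →
    ∃ x, b y = 2 ^ j • b x ∧ (x ∈ FF b → y ∈ Ej b (j + 1)) := by
  intro j
  induction j with
  | zero =>
    intro y _
    refine ⟨y, by simp, fun h => ?_⟩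
    obtain ⟨z, hz⟩ := mem_FF.mp h
    exact mem_succ.mpr ⟨z, mem_zero, hz⟩
  | succ j ih =>
    intro y hy
    obtain ⟨z, hz, hzy⟩ := mem_succ.mp hy
    obtain ⟨x, hx, hF⟩ := ih z hz
    refine ⟨x, ?_, fun h => mem_succ.mpr ⟨z, hF h, hzy⟩⟩
    rw [← hzy, hx, pow_succ, mul_smul, two_smul, smul_add]

theorem step (b : ι → ZMod N) (hb : Vd b) (j : ℕ) :
    (Ej b j).card ≤ (Ej b (j + 1)).card + (univ \ FF b).card := by
  have h1 : (Ej b j \ Ej b (j + 1)).card ≤ (univ \ FF b).card := by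
    have hex : ∀ y : ι, ∃ x : ι, y ∈ Ej b j \ Ej b (j + 1) → x ∈ univ \ FF b ∧
        b y = 2 ^ j • b x := by
      intro y
      by_cases hy : y ∈ Ej b j \ Ej b (j + 1)
      · obtain ⟨h2, h3⟩ := mem_sdiff.mp hy
        obtain ⟨x, hx, hF⟩ := start b j y h2
        exact ⟨x, fun _ => ⟨mem_sdiff.mpr ⟨mem_univ x, fun h => h3 (hF h)⟩, hx⟩⟩
      · exact ⟨y, fun h => absurd h hy⟩
    choose f hf using hex
    refine Finset.card_le_card_of_injOn f (fun y hy => (hf y hy).1) ?_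
    intro y hy y' hy' hyy
    refine Vd_inj hb ?_
    rw [(hf y hy).2, (hf y' hy').2, hyy]
  have h2 : (Ej b j).card ≤ (Ej b (j + 1)).card + (Ej b j \ Ej b (j + 1)).card := by
    rw [add_comm]
    exact Finset.card_le_card_sdiff_add_card
  omega

theorem count (b : ι → ZMod N) (hb : Vd b) (j : ℕ) :
    Fintype.card ι ≤ (Ej b j).card + j * (univ \ FF b).card := by
  induction j with
  | zero =>
    rw [Ej, Finset.card_univ]
    omega
  | succ j ih =>
    have h1 := step b hb j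
    have h2 : (j + 1) * (univ \ FF b).card = j * (univ \ FF b).card + (univ \ FF b).card := by
      ring
    omega

theorem split (b : ι → ZMod N) : ∀ (j : ℕ) (y : ι), y ∈ Ej b j → ∀ k < 2 ^ j,
    ∃ R : ι → ℕ, ∑ i, R i = k + 1 ∧ val b R = b y ∧ (1 ≤ k → ∃ i, 2 ≤ R i) := by
  intro j
  induction j with
  | zero =>
    intro y _ k hk
    have h0 : k = 0 := by
      rw [pow_zero] at hk
      omega
    subst h0
    exact ⟨un y, by rw [sum_un], val_un b y, fun h => absurd h (by omega)⟩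
  | succ j ih =>
    intro y hy k hk
    obtain ⟨z, hz, hzy⟩ := mem_succ.mp hy
    rw [pow_succ] at hk
    have hp : 0 < 2 ^ j := by positivity
    rcases Nat.lt_or_ge k 2 with h0 | h0
    · rcases Nat.eq_zero_or_pos k with h1 | h1
      · subst h1
        exact ⟨un y, by rw [sum_un], val_un b y, fun h => absurd h (by omega)⟩
      · have h2 : k = 1 := by omega
        subst h2
        refine ⟨un z + un z, ?_, ?_, fun _ => ⟨z, ?_⟩⟩
        · simp only [Pi.add_apply]
          rw [Finset.sum_add_distrib, sum_un]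
        · rw [val_add, val_un, hzy]
        · rw [Pi.add_apply, un_self]
    · obtain ⟨k1, k2, h1, h2, h3, h12⟩ : ∃ k1 k2 : ℕ, 1 ≤ k1 ∧ k1 < 2 ^ j ∧ k2 < 2 ^ j ∧
          k = k1 + k2 + 1 := by
        rcases Nat.lt_or_ge (k - 1) (2 ^ j) with h | h
        · exact ⟨k - 1, 0, by omega, h, hp, by omega⟩
        · exact ⟨2 ^ j - 1, k - 2 ^ j, by omega, by omega, by omega, by omega⟩
      obtain ⟨R1, hs1, hv1, hm1⟩ := ih z hz k1 h2
      obtain ⟨R2, hs2, hv2, _⟩ := ih z hz k2 h3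
      refine ⟨R1 + R2, ?_, ?_, fun _ => ?_⟩
      · simp only [Pi.add_apply]
        rw [Finset.sum_add_distrib, hs1, hs2, h12]
        ring
      · rw [val_add, hv1, hv2, hzy]
      · obtain ⟨i, hi⟩ := hm1 h1
        exact ⟨i, by rw [Pi.add_apply]; omega⟩

end XLONG

open XLONG in
/-- LONG. -/
theorem LONG_pf : S_long := by
  intro ι _ _ N b hb j
  refine ⟨Ej b j, count b hb j, ?_⟩
  intro T m h1 h2 h3 y hy
  by_contra hT
  obtain ⟨s, hs1, hs2, hs3⟩ : ∃ s : ℕ, T.card = ∑ i, m i + s ∧ 1 ≤ s ∧ s < 2 ^ j :=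
    ⟨T.card - ∑ i, m i, by omega, by omega, by omega⟩
  obtain ⟨R, hs, hv, hm⟩ := split b j y hy s hs3
  obtain ⟨i, hi⟩ := hm hs2
  have hu := uniq hb (insert y T) (m + R) (by
    simp only [Pi.add_apply]
    rw [Finset.sum_add_distrib, hs, Finset.card_insert_of_notMem hT, hs1, add_assoc])
    (by rw [val_add, h3, hv, sg_insert b hT, add_comm])
  have h4 := congrFun hu i
  rw [Pi.add_apply] at h4
  unfold ind at h4
  split_ifs at h4 <;> omega

end Pool.Agent.Work.MP_2a6590_nt.XL
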