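import Pool.Agent.Work.MP_2a6590_nt.XL.StmtsB
import Pool.Agent.Work.MP_2a6590_nt.H97B.I.Tot

/-!
# MP_2a6590_nt, block XL: the total count with the exact weights
-/

set_option autoImplicit false

namespace Pool.Agent.Work.MP_2a6590_nt.XL

open Finset Pool.Agent.Work.MP_2a6590_nt.H97 Pool.Agent.Work.MP_2a6590_nt.H97B

namespace XTOT2

open JTot

section

variable {ι H : Type} [Fintype ι] [DecidableEq ι] [AddCommGroup H] {e : ι → H} {N : ℕ}

/-- one type -/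
theorem one2 (h1 : S_regI) (h2 : S_regII) (hS : Sys e N) {I : Finset ι} {V : ι → Finset ι} {s : ℕ}
    (hL : Loc I V s) {b : ι} (hb : b ∈ I) (B : Finset (Finset ι))
    (hB : ∀ S, S ∉ B → Typ I V b S) (t : TyD ι H) (ht : IsTy e I V t) (w : ℝ)
    (hw : (w ≤ (1 - 1 / 2 ^ t.φ) / 2 ^ (t.ψ + 1)) ∨
      ∃ k : TyD ι H, IsTy e I V k ∧ TLt I t k ∧ w ≤ 1 / 2 ^ (1 + k.φ + k.ψ)) :
    ∃ F : Finset (Finset ι), (∀ S ∈ F, Typ I V b S ∧ ¬ MM e (t.c + sg e S - e b)) ∧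
      2 ^ Fintype.card ι * w - B.card ≤ (F.card : ℝ) := by
  have hpos : (0 : ℝ) < 2 ^ Fintype.card ι := by positivity
  rcases hw with hw | ⟨k, hk, htk, hw⟩
  · have hcY : (insert b (t.Ψ b)).card = t.ψ + 1 := by
      rw [card_insert_of_notMem (ht.nΨ b hb), ht.kΨ b hb]
    have hdj : Disjoint (t.Φ b) (insert b (t.Ψ b)) := by
      rw [Finset.disjoint_insert_right]
      exact ⟨ht.nΦ b hb, ht.dj b hb⟩
    have c1 := cIcc (∅ : Finset ι) (insert b (t.Ψ b)) (Finset.disjoint_empty_left _)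
    have c2 := cIcc (t.Φ b) (insert b (t.Ψ b)) hdj
    rw [card_empty, zero_add, hcY] at c1
    rw [hcY, ht.kΦ b hb] at c2
    refine ⟨(Icc ∅ (insert b (t.Ψ b))ᶜ \ Icc (t.Φ b) (insert b (t.Ψ b))ᶜ) \ B, ?_, ?_⟩
    · intro S hS'
      rw [mem_sdiff, mem_sdiff] at hS'
      obtain ⟨⟨hS1, hS2⟩, hS3⟩ := hS'
      have h3 := (mIcc hS1).2
      have h4 := Finset.disjoint_insert_left.mp h3
      refine ⟨hB S hS3, h1 ι H e N hS I V t ht b hb S h4.1 h4.2 ?_⟩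
      intro h5
      exact hS2 (mIcc' h5 h3)
    · have h3 := cSd (Icc ∅ (insert b (t.Ψ b))ᶜ \ Icc (t.Φ b) (insert b (t.Ψ b))ᶜ) B
      have h4 := cSd (Icc ∅ (insert b (t.Ψ b))ᶜ) (Icc (t.Φ b) (insert b (t.Ψ b))ᶜ)
      rw [c1, c2] at h4
      have h7 : (2 : ℝ) ^ Fintype.card ι * w ≤ 2 ^ Fintype.card ι / 2 ^ (t.ψ + 1) -
          2 ^ Fintype.card ι / 2 ^ (t.φ + (t.ψ + 1)) := by
        have e1 : (2 : ℝ) ^ Fintype.card ι / 2 ^ (t.ψ + 1) -
            2 ^ Fintype.card ι / 2 ^ (t.φ + (t.ψ + 1)) =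
            2 ^ Fintype.card ι * ((1 - 1 / 2 ^ t.φ) / 2 ^ (t.ψ + 1)) := by
          rw [pow_add (2 : ℝ) t.φ (t.ψ + 1)]
          field_simp
        rw [e1]
        exact mul_le_mul_of_nonneg_left hw hpos.le
      linarith
  · have hcY : (insert b (k.Ψ b)).card = k.ψ + 1 := by
      rw [card_insert_of_notMem (hk.nΨ b hb), hk.kΨ b hb]
    have hdj : Disjoint (k.Φ b) (insert b (k.Ψ b)) := by
      rw [Finset.disjoint_insert_right]
      exact ⟨hk.nΦ b hb, hk.dj b hb⟩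
    have c2 := cIcc (k.Φ b) (insert b (k.Ψ b)) hdj
    rw [hcY, hk.kΦ b hb] at c2
    refine ⟨Icc (k.Φ b) (insert b (k.Ψ b))ᶜ \ B, ?_, ?_⟩
    · intro S hS'
      rw [mem_sdiff] at hS'
      obtain ⟨hS1, hS3⟩ := hS'
      have h3 := mIcc hS1
      have h4 := Finset.disjoint_insert_left.mp h3.2
      have h5 := hB S hS3
      exact ⟨h5, h2 ι H e N hS I V s hL t k ht hk htk b hb S h4.1 h3.1 h4.2 h5.2⟩
    · have h3 := cSd (Icc (k.Φ b) (insert b (k.Ψ b))ᶜ) B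
      rw [c2] at h3
      have h6 : k.φ + (k.ψ + 1) = 1 + k.φ + k.ψ := by omega
      rw [h6] at h3
      have h7 : (2 : ℝ) ^ Fintype.card ι * w ≤ 2 ^ Fintype.card ι / 2 ^ (1 + k.φ + k.ψ) := by
        rw [div_eq_mul_one_div]
        exact mul_le_mul_of_nonneg_left hw hpos.le
      linarith

end

end XTOT2

open JTot XTOT2 in
/-- The total count. -/
theorem TOT2_of (hA : S_atyp) (hC : S_cnt) (h1 : S_regI) (h2 : S_regII) : S_tot2 := by
  intro s η hη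
  obtain ⟨M₀, hM₀⟩ := hA s η hη
  refine ⟨max M₀ 1, ?_⟩
  intro ι H _ _ _ e N hS I V hL hM r T hT hlt w hw
  have hM1 : M₀ ≤ I.card := le_trans (le_max_left _ _) hM
  have hM2 : 1 ≤ I.card := le_trans (le_max_right _ _) hM
  obtain ⟨b, hb⟩ := Finset.card_pos.mp hM2
  have hB0 := hM₀ ι I V b hL hM1
  obtain ⟨B, hB1, hB2⟩ : ∃ B : Finset (Finset ι), (∀ S, S ∉ B → Typ I V b S) ∧
      (B.card : ℝ) ≤ η * 2 ^ Fintype.card ι := by
    refine ⟨_, ?_, hB0⟩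
    intro S hS'
    by_contra hcon
    apply hS'
    simp only [Finset.mem_filter, Finset.mem_univ, true_and]
    exact hcon
  have hex : ∀ j, ∃ F : Finset (Finset ι), j < r →
      ((∀ S ∈ F, Typ I V b S ∧ ¬ MM e ((T j).c + sg e S - e b)) ∧
      2 ^ Fintype.card ι * w j - B.card ≤ (F.card : ℝ)) := by
    intro j
    by_cases hj : j < r
    · obtain ⟨F, hF⟩ := one2 h1 h2 hS hL hb B hB1 (T j) (hT j hj) (w j) (hw j hj)
      exact ⟨F, fun _ => hF⟩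
    · exact ⟨∅, fun h => absurd h hj⟩
  choose F hF using hex
  have h3 := hC ι H e N hS I V s hL r T hT hlt b hb F (fun j hj => (hF j hj).1)
  have hι : 1 ≤ Fintype.card ι := Fintype.card_pos_iff.mpr ⟨b⟩
  have h4 : ((2 : ℝ) ^ (Fintype.card ι - 1) + ∑ j ∈ range r, ((F j).card : ℝ)) ≤ N := by
    exact_mod_cast h3
  have h5 : (2 : ℝ) ^ Fintype.card ι = 2 * 2 ^ (Fintype.card ι - 1) := by
    rw [← pow_succ']
    congr 1
    omega
  have h6 : ∑ j ∈ range r, (2 ^ Fintype.card ι * w j - η * 2 ^ Fintype.card ι) ≤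
      ∑ j ∈ range r, ((F j).card : ℝ) := by
    refine Finset.sum_le_sum fun j hj => ?_
    have := (hF j (Finset.mem_range.mp hj)).2
    linarith
  rw [Finset.sum_sub_distrib, ← Finset.mul_sum, Finset.sum_const, Finset.card_range,
    nsmul_eq_mul] at h6
  have h7 : (2 : ℝ) ^ Fintype.card ι * (1 / 2 + ∑ j ∈ range r, w j - r * η) =
      2 ^ (Fintype.card ι - 1) + (2 ^ Fintype.card ι * ∑ j ∈ range r, w j -
        r * (η * 2 ^ Fintype.card ι)) := by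
    rw [h5]
    ring
  rw [h7]
  linarith

end Pool.Agent.Work.MP_2a6590_nt.XL
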