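import Pool.Agent.Work.MP_2a6590_nt.XL.Defs

/-!
# MP_2a6590_nt, block XL: statements of the items

Paper proof: note 3782. Always `n = Fintype.card ι`, `b` (or `a`) a valid system in `ZMod N`.
(U) is `H97.uniq`: a multiset `m` with `∑ m = |T|` and `val b m = sg b T` is `ind T`.
-/

set_option autoImplicit false

namespace Pool.Agent.Work.MP_2a6590_nt.XL

open Finset Pool.Agent.Work.MP_2a6590_nt.H97

/-! ### Uniqueness, bad sets -/

/-- CORE. Proof: `s = |T| - ∑ m ≥ 1`. If `|F \ T| ≥ s` (`F = FF b`) choose `Z ⊆ F \ T` with `s`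
elements and for `z ∈ Z` an index `g z` with `2 b_(g z) = b_z`. The multiset
`m' = m + ∑_(z ∈ Z) (un (g z) + un (g z))` has `|T| + s = |T ∪ Z|` elements and
`val b m' = sg b T + ∑_(z ∈ Z) b_z = sg b (T ∪ Z)`, so `m' = ind (T ∪ Z)` by (U), but `m' (g z) ≥ 2`. -/
def S_core : Prop := ∀ (ι : Type) [Fintype ι] [DecidableEq ι] (N : ℕ) (b : ι → ZMod N), Vd b →
  ∀ (T : Finset ι) (m : ι → ℕ), ∑ i, m i < T.card → val b m = sg b T →
    (FF b \ T).card + ∑ i, m i < T.card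

/-- LONG. Proof: `E` is the set of the `y` for which there is `x : ℕ → ι` with `x j = y` and
`2 b_(x i) = b_(x (i+1))` for all `i < j` (a path of length `j` with end `y`).
Count: for `y ∉ E` let `i < j` be maximal such that there is a path of length `i` with end `y`; its
first point `x 0` is not in `FF b` (else the path could be extended), and `y` is determined by
`(i, x 0)` since `b_y = 2^i b_(x 0)` and `b` is injective (`Vd_inj`).
Main point: suppose `y ∈ E`, `y ∉ T`. Put `s = |T| - ∑ m`, `1 ≤ s ≤ 2^j - 1`,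
`c_i = min(2^i, s + 1 - 2^i)` (truncated subtraction) for `i < j`: `c_0 ≤ 1`,
`c_(i+1) ≤ 2 c_i`, `∑_(i<j) c_i = s`. Put `β_i = c_(j-1-i)` (multiplicity at the point `x i`), so
`β_(j-1) ≤ 1`, `β_i ≤ 2 β_(i+1)`, `∑ β_i = s`. The multiset
`M = m + 2 β_0 [x 0] + ∑_(1≤i<j) (2 β_i - β_(i-1)) [x i]` (non-negative) has
`val b M = val b m + β_(j-1) b_y` and `∑ m + s + β_(j-1) = |T| + β_(j-1)` elements, so it is
`ind T` or `ind (insert y T)` by (U). But for the first `i` with `β_i ≥ 1` we have `M (x i) ≥ 2`.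
(The points `x i` need not be distinct.) It may be convenient to do an induction on `j` instead:
statement P(j): for a path of length `j`, `y = x j`, `δ ∈ {0,1}`... or to build `β` recursively. -/
def S_long : Prop := ∀ (ι : Type) [Fintype ι] [DecidableEq ι] (N : ℕ) (b : ι → ZMod N), Vd b →
  ∀ j : ℕ, ∃ E : Finset ι, Fintype.card ι ≤ E.card + j * (univ \ FF b).card ∧
    ∀ (T : Finset ι) (m : ι → ℕ), ∑ i, m i < T.card → T.card < ∑ i, m i + 2 ^ j →
      val b m = sg b T → E ⊆ T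

/-- LOW. Proof: two sets `T, T'` outside of `Bad b` with the same sum have the same cardinality
(otherwise the larger one is bad), so `T = T'` by `H97.sg_inj`. So the `2^n - |Bad b|` sums of the
sets which are not bad are different, and different from the elements of `W`; `ZMod N` has `N`
elements. -/
def S_low : Prop := ∀ (ι : Type) [Fintype ι] [DecidableEq ι] (N : ℕ) (b : ι → ZMod N), 0 < N →
  Vd b → (∀ T T' : Finset ι, T ∉ Bad b → T' ∉ Bad b → sg b T = sg b T' → T = T') ∧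
    ∀ W : Finset (ZMod N), (∀ g ∈ W, ∀ T : Finset ι, T ∉ Bad b → sg b T ≠ g) →
      W.card + 2 ^ Fintype.card ι ≤ N + (Bad b).card

/-- DUP. Proof: send `i ∈ CT θ b` to the unique `j` with `2 b_i = θ + b_j` (`b` is injective). Two
indices with the same image have `2 b_i = 2 b_i'`. There is at most one pair `i ≠ i'` with
`2 b_i = 2 b_i'`: `h = b_i - b_i'` is the non-zero element with `2 h = 0` (unique in the cyclic group
`ZMod N`, `IsAddCyclic.card_nsmul_eq_zero_le`), for a second pair `k, k'` also `b_k - b_k' = h = -h`,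
so `b_i + b_k' = b_k + b_i'` and `b_i + b_k = b_k' + b_i'`, and (U) gives `{i,i'} = {k,k'}`. -/
def S_dup : Prop := ∀ (ι : Type) [Fintype ι] [DecidableEq ι] (N : ℕ) (b : ι → ZMod N), 0 < N →
  Vd b → ∀ θ : ZMod N, (CT θ b).card ≤ (FT θ b).card + 1

/-- TAIL. Proof (`f = |F| ≥ n/K`, `K ≥ 1` since `n ≥ 1`). Exponential moments.
`A1`: `∑_(T) 3^(-|F \ T|) = 2^(n-f) (4/3)^f`, and each `T ∈ A1` has `3^(-|F\T|) ≥ 3^(-f/4)`, so
`|A1| ≤ 2^n ((2/3) 3^(1/4))^f`, `(2/3) 3^(1/4) < 0.88`.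
`A2`, `A3`: `∑_T e^(t(2|T| - n)) = (e^t + e^-t)^n ≤ 2^n e^(n t^2/2)` (`Real.cosh_le_exp_half_sq`), for
`T ∈ A2` `2|T| - n ≥ f/4`, `t = f/(4n)`: `|A2| ≤ 2^n e^(-f^2/(32 n)) ≤ 2^n e^(-n/(32 K^2))`. `A3` by
complements. Polynomial factors are absorbed for `n ≥ n₀(K)`. -/
def S_tail : Prop := ∀ K : ℕ, ∃ n₀ : ℕ, ∀ (ι : Type) [Fintype ι] [DecidableEq ι],
  n₀ ≤ Fintype.card ι → ∀ F : Finset ι, Fintype.card ι ≤ K * F.card →
    2 ^ 12 * (Fintype.card ι + 1) ^ 2 * TL F ≤ 2 ^ Fintype.card ι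

/-- BAD. Proof (CORE, TAIL), `F = FF b`. Let `T` be bad, `T'` with `|T'| < |T|` and the same sum.
CORE with `m = ind T'`: `|F \ T| + |T'| < |T|`. If `T ∉ A1 F`: `4 (|T| - |T'|) > |F|`, so
`(8|T| - 4n) + (4n - 8|T'|) > 2|F|` and `T ∈ A2 F` or `T' ∈ A3 F`. For given `T'` and given cardinality
there is at most one `T` with the same sum (`H97.sg_inj`). So `|Bad b| ≤ |A1| + |A2| + (n+1)|A3|
≤ (n+1) TL F`. -/
def S_bad : Prop := ∀ K : ℕ, ∃ n₀ : ℕ, ∀ (ι : Type) [Fintype ι] [DecidableEq ι] (N : ℕ)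
  (b : ι → ZMod N), Vd b → n₀ ≤ Fintype.card ι → Fintype.card ι ≤ K * (FF b).card →
    2 ^ 12 * (Fintype.card ι + 1) * (Bad b).card ≤ 2 ^ Fintype.card ι

/-! ### Uniqueness of the constant -/

/-- TRANS. Proof (LOW). `𝒢` = the sets `T ∉ Bad b` such that `sg b T + θ = sg b T*` for some
`T* ∉ Bad b`, `st T = T*` (unique by LOW; `st` is injective on `𝒢` by LOW). The elements `g` of
`ZMod N` which are not sums of sets outside of `Bad b` are at most `|Bad b|` many (LOW and `N < 2^n`), so at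
most `|Bad b|` sets `T ∉ Bad b` are not in `𝒢`. Last inequality: `∑_(𝒢) |T| ≤ ∑_(all) |T|`, and
`∑_(𝒢) |st T| = ∑_(st 𝒢) |T'| ≥ ∑_(all) |T'| - n (2^n - |𝒢|)`. -/
def S_trans : Prop := ∀ (ι : Type) [Fintype ι] [DecidableEq ι] (N : ℕ) (b : ι → ZMod N), 0 < N →
  Vd b → N < 2 ^ Fintype.card ι → ∀ θ : ZMod N,
    ∃ (𝒢 : Finset (Finset ι)) (st : Finset ι → Finset ι),
      (∀ T ∈ 𝒢, sg b (st T) = sg b T + θ) ∧ (∀ T ∈ 𝒢, ∀ T' ∈ 𝒢, st T = st T' → T = T') ∧
      2 ^ Fintype.card ι ≤ 𝒢.card + 2 * (Bad b).card ∧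
      ∑ T ∈ 𝒢, T.card ≤ ∑ T ∈ 𝒢, (st T).card + 2 * Fintype.card ι * (Bad b).card

/-- ZERO. Proof: `P = st T \ T`, `Q = T \ st T`, `|P| = |Q| ≥ 1` (as `θ ≠ 0`), `sg b P = sg b Q + θ`.
The family of the pairs `(P, Q)` is `H97.Cross`: if `(P₁,Q₁) ≠ (P₂,Q₂)` and `P₁ ∩ Q₂ = ∅` then
`sg b (P₁ ∪ Q₂) = sg b P₂ + sg b Q₁ = val b (ind P₂ + ind Q₁)` and (U) gives
`ind P₂ + ind Q₁ = ind (P₁ ∪ Q₂)`, so `P₁ = P₂`, `Q₁ = Q₂`. `H97.dyadic_half`: `∑ 4^(-|P|) ≤ 1/2`. The sets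
`T` with a given pair contain `Q` and avoid `P`: at most `2^(n - 2|P|)`. -/
def S_zero : Prop := ∀ (ι : Type) [Fintype ι] [DecidableEq ι] (N : ℕ) (b : ι → ZMod N), Vd b →
  ∀ θ : ZMod N, θ ≠ 0 → ∀ (𝒢 : Finset (Finset ι)) (st : Finset ι → Finset ι),
    (∀ T ∈ 𝒢, sg b (st T) = sg b T + θ ∧ (st T).card = T.card) →
      2 * 𝒢.card ≤ 2 ^ Fintype.card ι

/-- NEG. Proof (CORE), `F = FF b`. Let `T ∈ 𝒢`, `T* = st T`, `|T| < |T*|`. If `FT θ b ⊆ T*`: at most
`2^(n - |FT θ b|)` sets `T*`, and `st` is injective. Otherwise let `z ∈ FT θ b \ T*`,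
`2 b_i = θ + b_z`, `T₁ = insert z T*`, `m = ind T + un i + un i`:
`val b m = sg b T + θ + b_z = sg b T₁`, `∑ m = |T| + 2 ≤ |T*| + 1 = |T₁|`. Equality contradicts (U)
(`m i ≥ 2`), so CORE gives `|F \ T₁| + |T| + 2 < |T*| + 1`, hence `|F \ T*| + |T| < |T*|`. As in BAD:
`T* ∈ A1 F` or `T* ∈ A2 F` or `T ∈ A3 F`. -/
def S_neg : Prop := ∀ (ι : Type) [Fintype ι] [DecidableEq ι] (N : ℕ) (b : ι → ZMod N), Vd b →
  ∀ (θ : ZMod N) (𝒢 : Finset (Finset ι)) (st : Finset ι → Finset ι),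
    (∀ T ∈ 𝒢, sg b (st T) = sg b T + θ) → (∀ T ∈ 𝒢, ∀ T' ∈ 𝒢, st T = st T' → T = T') →
      (𝒢.filter fun T => T.card < (st T).card).card ≤
        2 ^ (Fintype.card ι - (FT θ b).card) + TL (FF b)

/-- UNI. Proof (BAD, TAIL, TRANS, ZERO, NEG). Suppose `θ ≠ 0`; `β = |Bad b|`, `𝒢, st` from TRANS,
`neg, pos, zero` = the `T ∈ 𝒢` with `|T| <, >, = |st T|`. NEG: `n |neg| ≤ 2^n/32 + n TL (FF b)`.
From the sum inequality `|pos| ≤ ∑_(pos) (|T| - |st T|) ≤ 2 n β + ∑_(neg) (|st T| - |T|) ≤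
2 n β + n |neg|`. So `|zero| ≥ 2^n - 2β - |pos| - |neg| > 2^(n-1)`, contradiction with ZERO. -/
def S_uni : Prop := ∀ K : ℕ, ∃ n₀ : ℕ, ∀ (ι : Type) [Fintype ι] [DecidableEq ι] (N : ℕ)
  (b : ι → ZMod N), 0 < N → Vd b → n₀ ≤ Fintype.card ι → N < 2 ^ Fintype.card ι →
    Fintype.card ι ≤ K * (FF b).card → ∀ θ : ZMod N,
      32 * Fintype.card ι ≤ 2 ^ (FT θ b).card → θ = 0

/-! ### A large class -/

/-- THREE. Three elements of a large set are in one class (from the local type lemma and the descent of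
block B, see `StmtsB.lean`). -/
def S_three : Prop := ∃ M : ℕ, ∀ (ι : Type) [Fintype ι] [DecidableEq ι] (N : ℕ) (a : ι → ZMod N),
  0 < N → Vd a → N ≤ 2 ^ Fintype.card ι → ∀ I : Finset ι, M ≤ I.card →
    ∃ c : ZMod N, 3 ≤ (I ∩ CT c a).card

/-- BIG. Proof (THREE with `M`). Let `t` be the maximal `|I ∩ CT c a|`. For `x, x'` with
`2 a_x ≠ 2 a_x'` there are at most two classes `c` containing both: if
`2 a_x = c + a_y`, `2 a_x' = c + a_y'`, `2 a_x = d + a_z`, `2 a_x' = d + a_z'` then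
`a_y + a_z' = a_y' + a_z`, `y ≠ y'`, `z ≠ z'`, and (U) gives `c = d` unless `y = z'`, `y' = z` (then
`d = c + a_y - a_y'`). Choose greedily `x_1, .., x_M ∈ I` with different `2 a_x` and no three in one
class: for the next point the forbidden points are those with the same double as a chosen point
(at most 2 for each; at most 2 indices have the same double since `ZMod N` is cyclic) and the points of
the classes containing two chosen points: at most `2 M + M^2 t` points. If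
`|I| > 2M + M^2 t` this is possible and contradicts THREE. So `|I| ≤ 2M + M^2 t`; for `|I| ≥ 4M`:
`|I| ≤ 2 M^2 t`. -/
def S_big : Prop := ∃ K M : ℕ, ∀ (ι : Type) [Fintype ι] [DecidableEq ι] (N : ℕ)
  (a : ι → ZMod N), 0 < N → Vd a → N ≤ 2 ^ Fintype.card ι → ∀ I : Finset ι, M ≤ I.card →
    ∃ c : ZMod N, I.card ≤ K * (I ∩ CT c a).card

/-- MOST. Proof (BIG with `K₁, M₁`, DUP, UNI). BIG for `I = univ`: `c` with `n ≤ K₁ |CT c a|`; put
`b = sh c a` (`Vd_sh`, `CC_sh`, `CT_sh`); DUP: `n ≤ 2 K₁ |FF b|` for large `n`, so UNI applies with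
`K = 2 K₁`. Let `I = univ \ CC b`. If `|I| ≥ M₁`, BIG gives `c'`, `θ = c' - c`,
`|I| ≤ K₁ |I ∩ CT θ b| ≤ K₁ (|FT θ b| + 1)`. If `32 n ≤ 2^|FT θ b|` then `θ = 0`,
`I ∩ CT 0 b = ∅` and `|I| = 0`. Otherwise `|FT θ b| < log₂ n + 6`. -/
def S_most : Prop := ∃ K n₀ : ℕ, ∀ (ι : Type) [Fintype ι] [DecidableEq ι] (N : ℕ)
  (a : ι → ZMod N), 0 < N → Vd a → n₀ ≤ Fintype.card ι → N < 2 ^ Fintype.card ι →
    ∃ c : ZMod N, Fintype.card ι ≤ (CC (sh c a)).card + K * (Nat.log 2 (Fintype.card ι) + 1)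

/-! ### Sparse sets: every element has its double in the system -/

/-- SPARSE. Proof (LONG with `j = log₂ n + 1`, LOW). `E` from LONG, `n - |E| ≤ j |univ \ FF b| ≤ n/4 - 3`,
`2^j > n`. Every bad set contains `E` (LONG with `m = ind T'`), so `|Bad b| ≤ ρ := 2^(n-|E|)`. Suppose
`2 b_i ≠ 0` and `i ∉ CC b`. `𝒮` = the sets `S` with `i ∉ S`, `4|S| ≤ n`; they are not bad
(`|E| > n/4`), so the elements `sg b S + 2 b_i` are different and all but `ρ` of the `S ∈ 𝒮` have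
`sg b S + 2 b_i = sg b T` for some `T ∉ Bad b` (LOW, `N < 2^n`), `T` determined by `S` and conversely. If
`|T| ≥ |S| + 2` then `E ⊆ T` (LONG with `m = ind S + un i + un i`; if `|T| = |S| + 2` then (U)
contradicts `m i = 2`), which happens for at most `ρ` of the `S`. Let `𝒮₂` be the set of the
remaining `S`: `|𝒮 \ 𝒮₂| ≤ 2ρ`, `|T| ≤ |S| + 1`. It is nonempty. Take `S₁ ∈ 𝒮₂` with `|T₁| - |S₁|`
maximal, `P = T₁ \ S₁`, `Q = S₁ \ T₁`, so `2 b_i + sg b Q = sg b P`, `|P| ≤ |Q| + 1`. If `Q = ∅`: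
`P = ∅`, `2 b_i = 0`, or `P = {y}`, `2 b_i = b_y`: excluded. Let `z ∈ Q`. Claim: no
`S₂ ∈ 𝒮₂` has `z ∉ S₂` and `S₂ ∩ P = ∅`: with `P₂, Q₂` of `S₂`, `T = P ∪ Q₂` (disjoint),
`m = ind P₂ + ind Q`: `sg b T = 2 b_i + sg b Q + sg b Q₂ = val b m`, `∑ m ≤ |T|` by the choice of
`S₁`; equality contradicts (U) at `z`, and `∑ m < |T|` gives `E ⊆ T` (LONG) but
`|T| ≤ n/4 + 1 + n/4 < |E|`. Finally the `2^(n/4)` subsets of a set of `n/4` elements in
`univ \ (P ∪ {i, z})` are in `𝒮 \ 𝒮₂`: contradiction to `2ρ ≤ 2^(n/4 - 2)`. -/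
def S_sparse : Prop := ∀ (ι : Type) [Fintype ι] [DecidableEq ι] (N : ℕ) (b : ι → ZMod N), 0 < N →
  Vd b → N < 2 ^ Fintype.card ι → 16 ≤ Fintype.card ι →
    4 * ((Nat.log 2 (Fintype.card ι) + 1) * (univ \ FF b).card + 3) ≤ Fintype.card ι →
      ∀ i, b i + b i = 0 ∨ i ∈ CC b

/-! ### The end -/

/-- EXP. Proof: `H = {g | R • g = 0}` is a subgroup of `ZMod N` containing all `b_i`. The elements
`sg b T + (n - |T|) b_0`, `0 ∉ T` (`0` an index) are `2^(n-1)` different elements of `H` (if two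
are equal add the complement of the larger set and use validity). `|H|` divides `N < 2^n`, so `H` is everything and
`N ∣ R`. -/
def S_exp : Prop := ∀ (ι : Type) [Fintype ι] [DecidableEq ι] (N : ℕ) (b : ι → ZMod N), 0 < N →
  Vd b → N < 2 ^ Fintype.card ι → 0 < Fintype.card ι → ∀ R : ℕ, (∀ i, R • b i = 0) → N ∣ R

/-- COIN. Number of terms in representations of `2^k - 1` as a sum of powers `2^i`, `i < k`: from the
binary expansion (`k` terms) to `2^k - 1` terms; replacing a term `2^i` (`i ≥ 1`) by two terms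
`2^(i-1)` increases the number by one. -/
def S_coin : Prop := ∀ k n : ℕ, k ≤ n → n + 1 ≤ 2 ^ k → ∃ m : ℕ → ℕ, (∀ i, k ≤ i → m i = 0) ∧
  ∑ i ∈ range k, m i = n ∧ ∑ i ∈ range k, m i * 2 ^ i = 2 ^ k - 1

/-- STR. The structure of a system closed under doubling. Proof (CORE, EXP). All `b_i ≠ 0`: if
`b_i = 0` then for every `l ≠ i`, `2 b_l = 0` or `2 b_l = b_k = b_i + b_k`, (U) for `m = 2 [l]`,
`T = {i, k}` gives `k = i`, so `2 b_l = 0` for all `l` and `n ≤ 2`. For all `t` `2^t b_i ∈ b(ι) ∪ {0}`. `i` is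
periodic if `2^t b_i = b_i` for some `t ≥ 1`; the cycle of `i` (`ℓ` elements, `ℓ` = the
minimal period) has the sum `(2^ℓ - 1) b_i = 0`, so CORE with `m = 0` gives `|F \ c| < |c|` for every cycle
`c ⊆ F = FF b`; two different cycles are disjoint, contradiction; so there is at most one. If there is
none, then `2^n b_i = 0` for all `i` (pigeonhole), `N ∣ 2^n` by EXP, impossible as `2^(n-1) < N < 2^n`.
Let `c` be the cycle, `ℓ = |c|`. For `i ∉ c` let `d_i` be the least `d` with `2^d b_i ∈ b(c) ∪ {0}` (exists);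
the `2^s b_i`, `s < d_i`, are `b` of different indices outside of `c`. `k = max d_i ≤ n - ℓ` (`0` if `c`
is everything). Then `R = 2^k (2^ℓ - 1)` kills all `b_i`, so `N ∣ R` (EXP) and `2^(n-1) < N ≤ R < 2^(k+ℓ)`
gives `k + ℓ = n` and `N = R` (a proper divisor would be `< 2^(n-1)`). So if `k ≥ 1` the orbit of an `i`
with `d_i = k` is all of `univ \ c`: put `x = i`. The conclusion: `N + 2^k = 2^n`, and there is
`u : ℕ → ι` injective on `{0..k-1}` with `b_(u s) = 2^s b_(u 0)`, `k < n`, and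
`sg b univ = (2^k - 1) b_(u 0)` (the cycle has sum `0`). -/
def S_str : Prop := ∀ (ι : Type) [Fintype ι] [DecidableEq ι] (N : ℕ) (b : ι → ZMod N), 0 < N →
  Vd b → 3 ≤ Fintype.card ι → 2 ^ (Fintype.card ι - 1) < N → N < 2 ^ Fintype.card ι →
    (∀ i, b i + b i = 0 ∨ i ∈ CC b) → ∃ k < Fintype.card ι, N + 2 ^ k = 2 ^ Fintype.card ι ∧
      (k = 0 ∨ ∃ u : ℕ → ι, (∀ s < k, ∀ s' < k, u s = u s' → s = s') ∧
        (∀ s < k, b (u s) = 2 ^ s • b (u 0)) ∧ sg b univ = (2 ^ k - 1) • b (u 0))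

/-- END. Proof (STR, COIN). `k` from STR. If `2^k > n` (`k ≥ 1`) COIN gives `m` (on exponents `< k < n`) with
`∑ m = n`, `∑ m_i 2^i = 2^k - 1`; the multiset with multiplicity `m s` at `u s` has `n` elements and
the value `(2^k - 1) b_(u 0) = sg b univ`, so it is `1` everywhere by validity, but it
vanishes outside of `u '' {0..k-1}` and `k < n`. -/
def S_end : Prop := ∀ (ι : Type) [Fintype ι] [DecidableEq ι] (N : ℕ) (b : ι → ZMod N), 0 < N →
  Vd b → 3 ≤ Fintype.card ι → 2 ^ (Fintype.card ι - 1) < N → N < 2 ^ Fintype.card ι →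
    (∀ i, b i + b i = 0 ∨ i ∈ CC b) → ∃ k : ℕ, N + 2 ^ k = 2 ^ Fintype.card ι ∧
      2 ^ k ≤ Fintype.card ι

/-- MAIN. Proof (MOST, DUP, BAD, LOW, SPARSE, END). -/
def S_main : Prop := ∃ n₀ : ℕ, ∀ (ι : Type) [Fintype ι] [DecidableEq ι] (N : ℕ)
  (a : ι → ZMod N), 0 < N → Vd a → n₀ ≤ Fintype.card ι → N < 2 ^ Fintype.card ι →
    ∃ k : ℕ, N + 2 ^ k = 2 ^ Fintype.card ι ∧ 2 ^ k ≤ Fintype.card ι

end Pool.Agent.Work.MP_2a6590_nt.XL
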