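import Pool.Agent.Work.MP_2a6590_nt.XL.Stmts
import Pool.Agent.Work.MP_2a6590_nt.H97B.Stmts

/-!
# MP_2a6590_nt, block XL: statements on top of block B
-/

set_option autoImplicit false

namespace Pool.Agent.Work.MP_2a6590_nt.XL

open Finset Pool.Agent.Work.MP_2a6590_nt.H97 Pool.Agent.Work.MP_2a6590_nt.H97B

/-- SYSG. The system of a valid family (as `H97B.prfSys`, which is the case of a subtype). -/
def S_sysg : Prop := ∀ (ι : Type) [Fintype ι] [DecidableEq ι] (N : ℕ) (a : ι → ZMod N), 0 < N →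
  Vd a → Sys (fun i => ((1 : ℤ), a i)) N

/-- TOT2. The total count with the exact weight of region (I) (as `H97B.prfTot`). -/
def S_tot2 : Prop := ∀ (s : ℕ) (η : ℝ), 0 < η → ∃ M : ℕ, ∀ (ι H : Type) [Fintype ι]
  [DecidableEq ι] [AddCommGroup H] (e : ι → H) (N : ℕ), Sys e N → ∀ (I : Finset ι)
  (V : ι → Finset ι), Loc I V s → M ≤ I.card → ∀ (r : ℕ) (T : ℕ → TyD ι H),
  (∀ j < r, IsTy e I V (T j)) →
  (∀ j < r, ∀ j' < r, j ≠ j' → TLt I (T j) (T j') ∨ TLt I (T j') (T j)) →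
  ∀ w : ℕ → ℝ, (∀ j < r, (w j ≤ (1 - 1 / 2 ^ (T j).φ) / 2 ^ ((T j).ψ + 1)) ∨
    ∃ k : TyD ι H, IsTy e I V k ∧ TLt I (T j) k ∧ w j ≤ 1 / 2 ^ (1 + k.φ + k.ψ)) →
  2 ^ Fintype.card ι * (1 / 2 + ∑ j ∈ range r, w j - r * η) ≤ (N : ℝ)

end Pool.Agent.Work.MP_2a6590_nt.XL
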